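import Pool.Agent.H60.KSM.Defs
import Pool.Agent.H43.OC.RW
import Pool.Agent.H87.OC.Cost

/-!
# Samples which are independent given a label
-/

set_option autoImplicit false

namespace Pool.KSM

open Finset Real
open Pool.Agent.H49.Ent Pool.Agent.H32.Dense Pool.STK Pool.KAF Pool.OC Pool.OC.RS

section

variable {Ω Ξ : Type} [Fintype Ω] {n : ℕ}

/-- The law of `n + 1` samples, independent given `W`. -/
noncomputable def iid (P : Ω → ℝ) (W : Ω → Ξ) (n : ℕ) (w : Fin (n + 1) → Ω) : ℝ :=
  law P W (W (w 0)) * ∏ j, cond P W (W (w 0)) (w j)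

variable {P : Ω → ℝ} {W : Ω → Ξ}

theorem iid_nonneg (hp : ∀ ω, 0 ≤ P ω) (w : Fin (n + 1) → Ω) : 0 ≤ iid P W n w :=
  mul_nonneg (law_nonneg hp _ _) (Finset.prod_nonneg fun _ _ => cond_nonneg hp _ _ _)

theorem iid_pos (hp : ∀ ω, 0 ≤ P ω) {w : Fin (n + 1) → Ω} (hw : 0 < iid P W n w) (j : Fin (n + 1)) :
    0 < P (w j) ∧ W (w j) = W (w 0) := by
  have h1 : ∏ j, cond P W (W (w 0)) (w j) ≠ 0 := by
    intro h
    unfold iid at hw
    rw [h, mul_zero] at hw
    exact lt_irrefl _ hw
  have h2 := (Finset.prod_ne_zero_iff.mp h1) j (Finset.mem_univ j)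
  have h3 : 0 < cond P W (W (w 0)) (w j) := lt_of_le_of_ne (cond_nonneg hp _ _ _) (Ne.symm h2)
  exact (cond_pos_iff hp W (W (w 0)) (w j)).1 h3

/-- The formula with another base sample. -/
theorem iid_base (hp : ∀ ω, 0 ≤ P ω) (w : Fin (n + 1) → Ω) (i : Fin (n + 1)) :
    iid P W n w = law P W (W (w i)) * ∏ j, cond P W (W (w i)) (w j) := by
  by_cases h : W (w i) = W (w 0)
  · rw [h]
    rfl
  · have h1 : iid P W n w = 0 := by
      by_contra hc
      exact h (iid_pos hp (lt_of_le_of_ne (iid_nonneg hp w) (Ne.symm hc)) i).2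
    have h2 : cond P W (W (w i)) (w 0) = 0 := by
      by_contra hc
      have h3 : 0 < cond P W (W (w i)) (w 0) :=
        lt_of_le_of_ne (cond_nonneg hp _ _ _) (Ne.symm hc)
      exact h ((cond_pos_iff hp W _ _).1 h3).2.symm
    have h3 : ∏ j, cond P W (W (w i)) (w j) = 0 :=
      Finset.prod_eq_zero (i := (0 : Fin (n + 1))) (Finset.mem_univ _) h2
    rw [h1, h3, mul_zero]

/-- The first sample. -/
theorem iid_zero (hp : ∀ ω, 0 ≤ P ω) : Marg (iid P W n) P (fun w => w 0) := by
  classical
  intro ω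
  have h1 : ∑ w : Fin (n + 1) → Ω, (if w 0 = ω then iid P W n w else 0) =
      ∑ x : Ω × (Fin n → Ω), (if (Fin.cons x.1 x.2 : Fin (n + 1) → Ω) 0 = ω then
        iid P W n (Fin.cons x.1 x.2) else 0) := by
    rw [← Equiv.sum_comp (Fin.consEquiv fun _ => Ω)]
    rfl
  rw [h1, Fintype.sum_prod_type]
  simp only [Fin.cons_zero]
  rw [Finset.sum_eq_single ω]
  · simp only [if_true]
    have h2 : ∀ y : Fin n → Ω, iid P W n (Fin.cons ω y) =
        law P W (W ω) * cond P W (W ω) ω * ∏ j, cond P W (W ω) (y j) := by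
      intro y
      unfold iid
      rw [Fin.cons_zero, Fin.prod_univ_succ, Fin.cons_zero]
      simp only [Fin.cons_succ]
      ring
    simp only [h2]
    rw [← Finset.mul_sum]
    rcases (hp ω).eq_or_lt with h0 | h0
    · have h3 : cond P W (W ω) ω = 0 := by
        unfold Pool.Agent.H49.Ent.cond
        rw [← h0]
        simp
      rw [h3, mul_zero, zero_mul]
      exact h0
    · have hl := law_pos hp W h0
      have h3 : ∑ y : Fin n → Ω, ∏ j, cond P W (W ω) (y j) = 1 := by
        have h4 := Finset.prod_univ_sum (fun _ : Fin n => (Finset.univ : Finset Ω))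
          (fun _ v => cond P W (W ω) v)
        rw [Fintype.piFinset_univ] at h4
        rw [← h4]
        simp only [sum_cond P W hl.ne', Finset.prod_const_one]
      rw [h3, mul_one]
      unfold Pool.Agent.H49.Ent.cond
      rw [if_pos rfl]
      field_simp
  · intro b _ hb
    simp only [if_neg hb, Finset.sum_const_zero]
  · intro h
    exact absurd (Finset.mem_univ _) h

/-- Every sample has the law `P`. -/
theorem iid_marg (hp : ∀ ω, 0 ≤ P ω) (j : Fin (n + 1)) : Marg (iid P W n) P (fun w => w j) := by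
  classical
  intro ω
  rw [← iid_zero (n := n) (W := W) hp ω]
  refine Fintype.sum_equiv (Equiv.arrowCongr (Equiv.swap 0 j) (Equiv.refl Ω)) _ _ fun w => ?_
  have e0 : (Equiv.arrowCongr (Equiv.swap 0 j) (Equiv.refl Ω)) w 0 = w j := by
    show w ((Equiv.swap 0 j).symm 0) = w j
    rw [Equiv.symm_swap, Equiv.swap_apply_left]
  have e1 : iid P W n ((Equiv.arrowCongr (Equiv.swap 0 j) (Equiv.refl Ω)) w) = iid P W n w := by
    rw [iid_base hp w j]
    unfold iid
    rw [e0]
    congr 1
    exact Fintype.prod_equiv (Equiv.swap 0 j).symm _ _ fun i => rfl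
  show (if w j = ω then iid P W n w else 0) =
    if (Equiv.arrowCongr (Equiv.swap 0 j) (Equiv.refl Ω)) w 0 = ω then
      iid P W n ((Equiv.arrowCongr (Equiv.swap 0 j) (Equiv.refl Ω)) w) else 0
  rw [e0, e1]

theorem iid_law (hP : IsLaw P) : IsLaw (iid P W n) :=
  ⟨iid_nonneg hP.nonneg, by rw [(iid_zero hP.nonneg).sum]; exact hP.sum_one⟩

/-- **Resampling.** -/
theorem iid_resample (hp : ∀ ω, 0 ≤ P ω) (i : Fin n) (F : (Fin (n + 1) → Ω) → ℝ) :
    ∑ w, iid P W n w * F w = ∑ w, iid P W n w *
      ∑ v, cond P W (W (w 0)) v * F (Function.update w i.succ v) := by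
  classical
  have h0 : ∀ (w : Fin (n + 1) → Ω) (v : Ω), Function.update w i.succ v 0 = w 0 := fun w v =>
    Function.update_of_ne (Fin.succ_ne_zero i).symm v w
  -- the sum over the pairs
  have h1 : ∑ w, iid P W n w * ∑ v, cond P W (W (w 0)) v * F (Function.update w i.succ v) =
      ∑ x : (Fin (n + 1) → Ω) × Ω, iid P W n x.1 * cond P W (W (x.1 0)) x.2 *
        F (Function.update x.1 i.succ x.2) := by
    rw [Fintype.sum_prod_type]
    refine Finset.sum_congr rfl fun w _ => ?_
    rw [Finset.mul_sum]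
    exact Finset.sum_congr rfl fun v _ => by ring
  have h2 : ∑ w, iid P W n w * F w =
      ∑ x : (Fin (n + 1) → Ω) × Ω, iid P W n x.1 * cond P W (W (x.1 0)) x.2 * F x.1 := by
    rw [Fintype.sum_prod_type]
    refine Finset.sum_congr rfl fun w _ => ?_
    have h3 : ∀ v, iid P W n w * cond P W (W (w 0)) v * F w =
        iid P W n w * F w * cond P W (W (w 0)) v := fun v => by ring
    simp only [h3]
    rw [← Finset.mul_sum]
    rcases (iid_nonneg (W := W) hp w).eq_or_lt with h4 | h4
    · rw [← h4]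
      simp
    · rw [sum_cond P W (law_pos hp W (iid_pos hp h4 0).1).ne', mul_one]
  rw [h1, h2]
  -- the involution
  have inv : Function.Involutive (fun x : (Fin (n + 1) → Ω) × Ω =>
      (Function.update x.1 i.succ x.2, x.1 i.succ)) := by
    intro x
    refine Prod.ext ?_ ?_
    · show Function.update (Function.update x.1 i.succ x.2) i.succ (x.1 i.succ) = x.1
      rw [Function.update_idem, Function.update_eq_self]
    · show Function.update x.1 i.succ x.2 i.succ = x.2
      rw [Function.update_self]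
  refine Fintype.sum_equiv inv.toPerm _ _ fun x => ?_
  show _ = iid P W n (Function.update x.1 i.succ x.2) *
    cond P W (W ((Function.update x.1 i.succ x.2) 0)) (x.1 i.succ) *
    F (Function.update (Function.update x.1 i.succ x.2) i.succ (x.1 i.succ))
  rw [Function.update_idem, Function.update_eq_self, h0]
  congr 1
  unfold iid
  rw [h0]
  have h5 : ∏ j, cond P W (W (x.1 0)) (Function.update x.1 i.succ x.2 j) =
      cond P W (W (x.1 0)) x.2 *
        ∏ j ∈ univ.erase i.succ, cond P W (W (x.1 0)) (x.1 j) := by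
    rw [← Finset.mul_prod_erase univ _ (Finset.mem_univ i.succ), Function.update_self]
    congr 1
    refine Finset.prod_congr rfl fun j hj => ?_
    rw [Function.update_of_ne (Finset.ne_of_mem_erase hj)]
  have h6 := Finset.mul_prod_erase univ (fun j => cond P W (W (x.1 0)) (x.1 j))
    (Finset.mem_univ i.succ)
  rw [h5, ← h6]
  ring

/-- The probability of an event about one further sample. -/
theorem iid_ev (hP : IsLaw P) (i : Fin n) (E : Set (Fin (n + 1) → Ω)) {δ : ℝ}
    (h : ∀ w, 0 < iid P W n w →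
      Pr (cond P W (W (w 0))) {v | Function.update w i.succ v ∈ E} ≤ δ) :
    Pr (iid P W n) E ≤ δ := by
  classical
  have hp := hP.nonneg
  have h1 := iid_resample (W := W) hp i (fun w => if w ∈ E then (1 : ℝ) else 0)
  have h2 : Pr (iid P W n) E = ∑ w, iid P W n w * (if w ∈ E then (1 : ℝ) else 0) := by
    rw [Pool.KAF.Pr_eq]
    exact Finset.sum_congr rfl fun w _ => by split_ifs <;> simp
  rw [h2, h1]
  have h3 : ∀ w, iid P W n w * ∑ v, cond P W (W (w 0)) v *
      (if Function.update w i.succ v ∈ E then (1 : ℝ) else 0) ≤ iid P W n w * δ := by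
    intro w
    rcases (iid_nonneg (W := W) hp w).eq_or_lt with h4 | h4
    · rw [← h4, zero_mul, zero_mul]
    · refine mul_le_mul_of_nonneg_left ?_ h4.le
      refine le_trans (le_of_eq ?_) (h w h4)
      rw [Pool.KAF.Pr_eq]
      refine Finset.sum_congr rfl fun v _ => ?_
      by_cases hv : Function.update w i.succ v ∈ E
      · rw [if_pos hv, if_pos (show v ∈ {v | Function.update w i.succ v ∈ E} from hv), mul_one]
      · rw [if_neg hv, if_neg (show v ∉ {v | Function.update w i.succ v ∈ E} from hv), mul_zero]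
  refine (Finset.sum_le_sum fun w _ => h3 w).trans (le_of_eq ?_)
  rw [← Finset.sum_mul, (iid_law hP).sum_one, one_mul]

end

end Pool.KSM
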