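import Pool.Agent.H60.KSM.Defs
import Pool.Agent.H55.K2.SY1

/-!
# Rows from a translation, any dimension

A law in dimension `m`, smoothed at the scale `2 ^ κ`, which is nearly invariant under a
translation of the coordinate `k`, has full rows of the coordinate `k`, given the others.
-/

set_option autoImplicit false

namespace Pool.KSM

open Finset Real
open Pool.Agent.H49.Ent Pool.Agent.H32.Dense Pool.STK Pool.KAF Pool.OC Pool.OC.RS Pool.KAL Pool.KX
open Pool.KAL.TI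

/-- Rows from a translation, with the constant `C₀`. -/
def FulAt (m : ℕ) (C₀ : ℝ) : Prop :=
  ∀ (Ω : Type) [Fintype Ω] (q : Ω → ℝ) (N : Ω → Fin m → ℤ) (k : Fin m) (κ kb K : ℕ) (x : ℤ)
    (e : ℝ), IsLaw q → (2 : ℤ) ^ kb ≤ |x| → |x| ≤ 2 ^ κ → 0 ≤ e → 9 * 4 ^ (κ + K - kb) * e ≤ 1 →
    TIV (smp m (2 ^ κ) q) (smX (N := 2 ^ κ) N) (fun _ => ()) (Pi.single k x) e →
    K * Real.log 2 - C₀ ≤ CH q (fun ω => N ω k / ((2 ^ κ : ℕ) : ℤ))
      (fun ω => (N ω k / ((2 ^ (κ + K) : ℕ) : ℤ),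
        fun j : {j : Fin m // j ≠ k} => N ω j / ((2 ^ κ : ℕ) : ℤ)))

section

variable {Ω ι S T : Type} [Fintype Ω] [Fintype ι]

/-- Subadditivity for a finite family. -/
theorem CH_pi {p : Ω → ℝ} (hp0 : ∀ ω, 0 ≤ p ω) (X : Ω → ι → S) (W : Ω → T) :
    CH p X W ≤ ∑ i, CH p (fun ω => X ω i) W := by
  classical
  have key : ∀ s : Finset ι, CH p (fun ω i => if i ∈ s then some (X ω i) else none) W ≤
      ∑ i ∈ s, CH p (fun ω => X ω i) W := by
    intro s
    induction s using Finset.induction_on with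
    | empty =>
      rw [Finset.sum_empty]
      refine le_of_eq (CH_eq_zero hp0 ?_)
      intro ω ω' _ _ _
      funext i
      simp
    | insert j s hj ih =>
      rw [Finset.sum_insert hj]
      have h1 : CH p (fun ω i => if i ∈ insert j s then some (X ω i) else none) W ≤
          CH p (fun ω => (X ω j, fun i => if i ∈ s then some (X ω i) else none)) W := by
        refine CH_mono_left hp0 ?_
        intro ω ω' _ _ h
        simp only [Prod.mk.injEq] at h
        funext i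
        by_cases hi : i = j
        · subst hi
          simp only [Finset.mem_insert_self, if_true]
          rw [h.1.1]
        · have h2 := congrFun h.1.2 i
          simp only [Finset.mem_insert, hi, false_or]
          exact h2
      have h3 := CH_subadd hp0 (fun ω => X ω j) (fun ω i => if i ∈ s then some (X ω i) else none) W
      linarith
  have h1 := key univ
  refine le_trans (CH_mono_left hp0 ?_) h1
  intro ω ω' _ _ h
  simp only [Finset.mem_univ, if_true, Prod.mk.injEq] at h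
  funext i
  have h2 := congrFun h.1 i
  simpa using h2

/-- The rows of nearby variables, with further coordinates in the condition. -/
theorem CH_nearM {q : Ω → ℝ} (hq : IsLaw q) (X X' : Ω → ℤ) (Y Y' : Ω → ι → ℤ)
    (a B b : ℕ) (ha : 0 < a) (haB : a ≤ B) (hb : 0 < b) (h : ∀ w, X w ≤ X' w ∧ X' w < X w + a)
    (h' : ∀ w j, Y w j ≤ Y' w j ∧ Y' w j < Y w j + b) :
    CH q (fun w => X' w / (a : ℤ)) (fun w => (X' w / (B : ℤ), fun j => Y' w j / (b : ℤ))) ≤
      CH q (fun w => X w / (a : ℤ)) (fun w => (X w / (B : ℤ), fun j => Y w j / (b : ℤ))) +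
        (2 + Fintype.card ι) * Real.log 3 := by
  have h1 := CH_near hq X X' (fun w j => Y' w j / (b : ℤ)) a B ha haB h
  have hbZ : (0 : ℤ) < b := by exact_mod_cast hb
  have s1 := CH_le_add hq.nonneg (fun w => X w / (a : ℤ)) (fun w j => Y w j / (b : ℤ))
    (fun w => (X w / (B : ℤ), fun j => Y' w j / (b : ℤ)))
  have s2 : CH q (fun w j => Y w j / (b : ℤ)) (fun w => (X w / (B : ℤ), fun j => Y' w j / (b : ℤ)))
      ≤ Fintype.card ι * Real.log 3 := by
    refine (CH_pi hq.nonneg (fun w j => Y w j / (b : ℤ)) _).trans ?_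
    refine (Finset.sum_le_card_nsmul univ _ (Real.log 3) fun j _ => ?_).trans (le_of_eq ?_)
    · refine PRM.CH_two hq _ _ (fun t => t.2 j) ?_
      intro w
      have l1 : Y w j / (b : ℤ) ≤ Y' w j / (b : ℤ) := Int.ediv_le_ediv hbZ (h' w j).1
      have l2 : Y' w j / (b : ℤ) ≤ Y w j / (b : ℤ) + 1 := by
        have e1 : Y w j / (b : ℤ) + 1 = (Y w j + 1 * b) / (b : ℤ) := by
          rw [Int.add_mul_ediv_right _ _ hbZ.ne']
        rw [e1]
        exact Int.ediv_le_ediv hbZ (by linarith [(h' w j).2])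
      simp only
      omega
    · rw [card_univ, nsmul_eq_mul]
  have s3 : CH q (fun w => X w / (a : ℤ))
      (fun w => (fun j => Y w j / (b : ℤ), (X w / (B : ℤ), fun j => Y' w j / (b : ℤ)))) ≤
      CH q (fun w => X w / (a : ℤ)) (fun w => (X w / (B : ℤ), fun j => Y w j / (b : ℤ))) := by
    refine CH_mono_cond hq.nonneg ?_
    intro w w' _ _ h1
    have h2 := Prod.ext_iff.1 h1
    have h3 := Prod.ext_iff.1 h2.2
    exact Prod.ext h3.1 h2.1
  linarith

end

/-- **Rows.** -/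
theorem ful_thm (m : ℕ) : FulAt m (5 + (2 + m) * Real.log 3) := by
  classical
  intro Ω _ q N k κ kb K x e hq h1 h2 he he2 hT
  have hN : 0 < 2 ^ κ := by positivity
  have hsm := PRM.isLaw_smp (d := m) hN hq
  obtain ⟨v, hv⟩ : ∃ v : Fin m → ℤ, v = Pi.single k x := ⟨_, rfl⟩
  rw [← hv] at hT
  have hT' : TIV (smp m (2 ^ κ) q) (fun w => smX (N := 2 ^ κ) N w k)
      (fun w (j : {j : Fin m // j ≠ k}) => smX (N := 2 ^ κ) N w j / ((2 ^ κ : ℕ) : ℤ)) x e := by
    intro E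
    have h3 := hT {z | (z.1 k, fun j : {j : Fin m // j ≠ k} => z.1 j / ((2 ^ κ : ℕ) : ℤ)) ∈ E}
    have e1 : Pr (smp m (2 ^ κ) q) {w | (smX (N := 2 ^ κ) N w, ()) ∈
        {z : (Fin m → ℤ) × Unit | (z.1 k, fun j : {j : Fin m // j ≠ k} =>
          z.1 j / ((2 ^ κ : ℕ) : ℤ)) ∈ E}} =
        Pr (smp m (2 ^ κ) q) {w | (smX (N := 2 ^ κ) N w k, fun j : {j : Fin m // j ≠ k} =>
          smX (N := 2 ^ κ) N w j / ((2 ^ κ : ℕ) : ℤ)) ∈ E} := Pr_congr _ fun w => Iff.rfl
    have e2 : Pr (smp m (2 ^ κ) q) {w | (smX (N := 2 ^ κ) N w + v, ()) ∈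
        {z : (Fin m → ℤ) × Unit | (z.1 k, fun j : {j : Fin m // j ≠ k} =>
          z.1 j / ((2 ^ κ : ℕ) : ℤ)) ∈ E}} =
        Pr (smp m (2 ^ κ) q) {w | (smX (N := 2 ^ κ) N w k + x, fun j : {j : Fin m // j ≠ k} =>
          smX (N := 2 ^ κ) N w j / ((2 ^ κ : ℕ) : ℤ)) ∈ E} := Pr_congr _ fun w => by
      have a0 : (smX (N := 2 ^ κ) N w + v) k = smX (N := 2 ^ κ) N w k + x := by
        rw [Pi.add_apply, hv, Pi.single_eq_same]
      have a1 : (fun j : {j : Fin m // j ≠ k} =>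
          (smX (N := 2 ^ κ) N w + v) (j : Fin m) / ((2 ^ κ : ℕ) : ℤ)) =
          fun j : {j : Fin m // j ≠ k} => smX (N := 2 ^ κ) N w j / ((2 ^ κ : ℕ) : ℤ) := by
        funext j
        rw [Pi.add_apply, hv, Pi.single_eq_of_ne j.2, add_zero]
      show ((smX (N := 2 ^ κ) N w + v) k, fun j : {j : Fin m // j ≠ k} =>
          (smX (N := 2 ^ κ) N w + v) (j : Fin m) / ((2 ^ κ : ℕ) : ℤ)) ∈ E ↔ _
      rw [a0, a1]
      exact Iff.rfl
    rwa [e1, e2] at h3
  have h4 := full_of_tiv hsm (fun w => smX (N := 2 ^ κ) N w k)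
    (fun w (j : {j : Fin m // j ≠ k}) => smX (N := 2 ^ κ) N w j / ((2 ^ κ : ℕ) : ℤ)) κ (κ + K) kb x e
    (Nat.le_add_right _ _) h1 h2 he he2 hT'
  have hsmX : ∀ (i : Fin m), ∀ w : Ω × (Fin m → Fin (2 ^ κ)),
      N w.1 i ≤ smX (N := 2 ^ κ) N w i ∧ smX (N := 2 ^ κ) N w i < N w.1 i + ((2 ^ κ : ℕ) : ℕ) := by
    intro i w
    simp only [smX]
    have h2 : ((w.2 i : ℕ) : ℤ) < ((2 ^ κ : ℕ) : ℤ) := by
      have := (w.2 i).2
      exact_mod_cast this
    have h3 : (0 : ℤ) ≤ ((w.2 i : ℕ) : ℤ) := by positivity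
    constructor <;> linarith
  have h5 := CH_nearM hsm (fun w => N w.1 k) (fun w => smX (N := 2 ^ κ) N w k)
    (fun w (j : {j : Fin m // j ≠ k}) => N w.1 j)
    (fun w (j : {j : Fin m // j ≠ k}) => smX (N := 2 ^ κ) N w j) (2 ^ κ) (2 ^ (κ + K)) (2 ^ κ)
    (by positivity) (Nat.pow_le_pow_right (by norm_num) (Nat.le_add_right _ _)) (by positivity)
    (hsmX k) (fun w j => hsmX j w)
  have h6 : CH (smp m (2 ^ κ) q) (fun w => N w.1 k / ((2 ^ κ : ℕ) : ℤ))
      (fun w => (N w.1 k / ((2 ^ (κ + K) : ℕ) : ℤ),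
        fun j : {j : Fin m // j ≠ k} => N w.1 j / ((2 ^ κ : ℕ) : ℤ))) =
      CH q (fun ω => N ω k / ((2 ^ κ : ℕ) : ℤ))
        (fun ω => (N ω k / ((2 ^ (κ + K) : ℕ) : ℤ),
          fun j : {j : Fin m // j ≠ k} => N ω j / ((2 ^ κ : ℕ) : ℤ))) :=
    PRM.CH_smp (d := m) hN q (fun ω => N ω k / ((2 ^ κ : ℕ) : ℤ))
      (fun ω => (N ω k / ((2 ^ (κ + K) : ℕ) : ℤ),
        fun j : {j : Fin m // j ≠ k} => N ω j / ((2 ^ κ : ℕ) : ℤ)))
  have h8 : (((κ + K : ℕ) : ℝ) - κ) = K := by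
    push_cast
    ring
  have h9 : ((Fintype.card {j : Fin m // j ≠ k} : ℕ) : ℝ) ≤ m := by
    have := Fintype.card_subtype_le (fun j : Fin m => j ≠ k)
    rw [Fintype.card_fin] at this
    exact_mod_cast this
  have hl3 : 0 ≤ Real.log 3 := by positivity
  have h10 : (2 + (Fintype.card {j : Fin m // j ≠ k} : ℝ)) * Real.log 3 ≤
      (2 + m) * Real.log 3 := mul_le_mul_of_nonneg_right (by linarith) hl3
  rw [h8] at h4
  rw [← h6]
  linarith

end Pool.KSM
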