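import Pool.Agent.H60.KSM.Sum

/-!
# The sum over the directions
-/

set_option autoImplicit false

namespace Pool.KSM

open Finset Real
open Pool.Agent.H49.Ent Pool.Agent.H32.Dense Pool.STK Pool.KAF Pool.OC Pool.OC.RS Pool.KAL Pool.KX
open Pool.KS2 (rr rr_up)

theorem rw_det {Ω : Type} {m X : ℕ} (N : Ω → Fin m → ℤ) (u : ℤ) {ℓ K : ℕ} {ω ω' : Ω} {j : Fin m}
    (h : rw X N u (ℓ + K) ω j = rw X N u (ℓ + K) ω' j) : rw X N u ℓ ω j = rw X N u ℓ ω' j := by
  by_cases hX : ℓ + K ≤ X
  · rw [← rw_up N u hX ω j, ← rw_up N u hX ω' j, h]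
  · have e : X - (ℓ + K) = 0 := by omega
    have h' : (N ω j + u) / ((2 ^ (X - (ℓ + K)) : ℕ) : ℤ) =
      (N ω' j + u) / ((2 ^ (X - (ℓ + K)) : ℕ) : ℤ) := h
    rw [e, pow_zero, Nat.cast_one, Int.ediv_one, Int.ediv_one] at h'
    show (N ω j + u) / _ = (N ω' j + u) / _
    rw [h']

/-- The chain rule, each coordinate given all the others. -/
theorem CH_others {Ω ι S T : Type} [Fintype Ω] [Fintype ι] {p : Ω → ℝ} (hp : ∀ ω, 0 ≤ p ω)
    (Y : Ω → ι → S) (Z : Ω → T) :
    ∑ k, CH p (fun ω => Y ω k) (fun ω => (fun j : {j : ι // j ≠ k} => Y ω j, Z ω)) ≤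
      CH p Y Z := by
  classical
  have key : ∀ s : Finset ι,
      ∑ k ∈ s, CH p (fun ω => Y ω k) (fun ω => (fun j : {j : ι // j ≠ k} => Y ω j, Z ω)) ≤
      CH p (fun ω i => if i ∈ s then some (Y ω i) else none) Z := by
    intro s
    induction s using Finset.induction_on with
    | empty =>
      rw [Finset.sum_empty]
      exact CH_nonneg hp _ _
    | insert j s hj ih =>
      rw [Finset.sum_insert hj]
      have h1 : CH p (fun ω => (Y ω j, fun i => if i ∈ s then some (Y ω i) else none)) Z ≤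
          CH p (fun ω i => if i ∈ insert j s then some (Y ω i) else none) Z := by
        refine CH_mono_left hp ?_
        intro ω ω' _ _ h
        have h' := (Prod.ext_iff.mp h).1
        refine Prod.ext ?_ (funext fun i => ?_)
        · have h2 := congrFun h' j
          simp only [Finset.mem_insert_self, if_true] at h2
          exact Option.some.inj h2
        · by_cases hi : i ∈ s
          · have h2 := congrFun h' i
            simp only [Finset.mem_insert, hi, or_true, if_true] at h2 ⊢
            exact h2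
          · simp only [hi, if_false]
      have h2 := CH_chain hp (fun ω => Y ω j) (fun ω i => if i ∈ s then some (Y ω i) else none) Z
      have h3 : CH p (fun ω => Y ω j) (fun ω => (fun i : {i : ι // i ≠ j} => Y ω i, Z ω)) ≤
          CH p (fun ω => Y ω j) (fun ω => (fun i => if i ∈ s then some (Y ω i) else none, Z ω)) := by
        refine CH_mono_cond hp ?_
        intro ω ω' _ _ h
        have h' := Prod.ext_iff.mp h
        refine Prod.ext (funext fun i => ?_) h'.2
        by_cases hi : i ∈ s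
        · have hij : i ≠ j := fun e => hj (e ▸ hi)
          simp only [hi, if_true]
          exact congrArg some (congrFun h'.1 ⟨i, hij⟩)
        · simp only [hi, if_false]
      linarith
  refine (key univ).trans (CH_mono_left hp ?_)
  intro ω ω' _ _ h
  funext i
  simp only [Finset.mem_univ, if_true]
  have h' : Y ω = Y ω' := (Prod.ext_iff.mp h).1
  rw [h']

/-- **The sum over the directions.** -/
theorem sum_thm : SumStmt := by
  intro Ω Θ _ m X K P N A β hP hK hβ
  have hp0 := hP.nonneg
  -- one shift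
  have one : ∀ u : ℕ, ∑ ℓ ∈ range (X + 1 - K), CH P (rw X N u (ℓ + K))
      (fun ω => (rw X N u ℓ ω, A ω)) ≤ K * CH P N A := by
    intro u
    refine sum_classes (fun ℓ => CH P (rw X N u (ℓ + K)) (fun ω => (rw X N u ℓ ω, A ω)))
      (fun ℓ => CH_nonneg hp0 _ _) (by omega) (X + 1 - K) (CH P N A) fun j _ n _ => ?_
    have h1 := tower_CH hp0 (fun i => rw X N u (j + i * K)) A n (fun i _ ω ω' _ _ e => by
      have e' : rw X N u (j + (i + 1) * K) ω = rw X N u (j + (i + 1) * K) ω' := e
      rw [show j + (i + 1) * K = j + i * K + K by ring] at e'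
      funext l
      exact rw_det N u (congrFun e' l))
    have h2 : CH P (rw X N u (j + n * K)) A ≤ CH P N A :=
      CH_mono_left hp0 (fun ω ω' _ _ e => by
        have e' : N ω = N ω' := (Prod.ext_iff.mp e).1
        funext l
        show (N ω l + u) / _ = (N ω' l + u) / _
        rw [e'])
    have h3 := CH_nonneg hp0 (rw X N u (j + 0 * K)) A
    have h4 : ∑ i ∈ range n, CH P (rw X N u (j + (i + 1) * K))
        (fun ω => (rw X N u (j + i * K) ω, A ω)) =
        ∑ i ∈ range n, CH P (rw X N u (j + i * K + K))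
        (fun ω => (rw X N u (j + i * K) ω, A ω)) := Finset.sum_congr rfl fun i _ => by
      rw [show j + (i + 1) * K = j + i * K + K by ring]
    have h1' : CH P (rw X N u (j + n * K)) A = CH P (rw X N u (j + 0 * K)) A +
      ∑ i ∈ range n, CH P (rw X N u (j + (i + 1) * K))
        (fun ω => (rw X N u (j + i * K) ω, A ω)) := h1
    rw [h4] at h1'
    show ∑ i ∈ range n, CH P (rw X N u (j + i * K + K))
        (fun ω => (rw X N u (j + i * K) ω, A ω)) ≤ CH P N A
    linarith
  -- one shift and one level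
  have lev : ∀ u ℓ : ℕ, ∑ k, CH P (fun ω => rw X N u (ℓ + K) ω k) (ctx X N k K A u ℓ) ≤
      CH P (rw X N u (ℓ + K)) (fun ω => (rw X N u ℓ ω, A ω)) := by
    intro u ℓ
    refine le_trans (Finset.sum_le_sum fun k _ => ?_)
      (CH_others hp0 (rw X N u (ℓ + K)) (fun ω => (rw X N u ℓ ω, A ω)))
    refine CH_congr hp0 (fun _ _ _ _ h => (Prod.ext_iff.mp h).1)
      (fun _ _ _ _ h => (Prod.ext_iff.mp h).1) ?_ ?_ |>.le
    · intro ω ω' _ _ e
      have e1 := Prod.ext_iff.mp e
      have e2 := Prod.ext_iff.mp e1.1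
      refine Prod.ext e2.2 (Prod.ext (funext fun j => ?_) e1.2)
      by_cases hj : j = k
      · rw [hj]
        exact e2.1
      · exact rw_det N u (congrFun e2.2 ⟨j, hj⟩)
    · intro ω ω' _ _ e
      have e1 := Prod.ext_iff.mp e
      have e2 := Prod.ext_iff.mp e1.2
      exact Prod.ext (Prod.ext (congrFun e2.1 k) e1.1) e2.2
  have h1 : ∑ k, 2 ^ X * (K * β k) ≤ ∑ k, rowSum P X N k K A := Finset.sum_le_sum fun k _ => hβ k
  have h2 : ∑ k, rowSum P X N k K A ≤ 2 ^ X * (K * CH P N A) := by
    unfold rowSum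
    rw [Finset.sum_comm]
    have h3 : ∀ u ∈ range (2 ^ X), ∑ k, ∑ ℓ ∈ range (X + 1 - K),
        CH P (fun ω => rw X N u (ℓ + K) ω k) (ctx X N k K A u ℓ) ≤ K * CH P N A := by
      intro u _
      rw [Finset.sum_comm]
      exact (Finset.sum_le_sum fun ℓ _ => lev u ℓ).trans (one u)
    refine (Finset.sum_le_sum h3).trans (le_of_eq ?_)
    rw [Finset.sum_const, card_range, nsmul_eq_mul]
    push_cast
    ring
  rw [← Finset.mul_sum, ← Finset.mul_sum] at h1
  have h5 : (2 : ℝ) ^ X * (K * ∑ k, β k) ≤ 2 ^ X * (K * CH P N A) := h1.trans h2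
  have hK0 : (0 : ℝ) < K := by exact_mod_cast hK
  have h6 := le_of_mul_le_mul_left h5 (by positivity)
  exact le_of_mul_le_mul_left h6 hK0

end Pool.KSM
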