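import Mathlib

/-!
# Frames of vectors

The coordinates of a vector in the basis of the differences of `m + 1` vectors; a lower bound for
the determinant of vectors which are far from the spans of the previous ones.
-/

set_option autoImplicit false

namespace Pool.KSM

open Finset Matrix

section

variable {m : ℕ}

/-- The matrix of the differences. -/
def mtx (c : Fin (m + 1) → Fin m → ℝ) : Matrix (Fin m) (Fin m) ℝ := fun k j => c j.succ k - c 0 k

/-- Coordinates in the basis of the differences. -/
noncomputable def co (c : Fin (m + 1) → Fin m → ℝ) (M : Fin m → ℝ) : Fin m → ℝ :=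
  fun i => (mtx c).cramer M i / (mtx c).det

theorem co_sub (c : Fin (m + 1) → Fin m → ℝ) (M M' : Fin m → ℝ) (k : Fin m) :
    co c M' k - co c M k = co c (fun i => M' i - M i) k := by
  unfold co
  rw [← sub_div, ← Pi.sub_apply, ← map_sub]
  rfl

theorem co_add (c : Fin (m + 1) → Fin m → ℝ) (M M' : Fin m → ℝ) (k : Fin m) :
    co c (fun i => M i + M' i) k = co c M k + co c M' k := by
  unfold co
  rw [← add_div, ← Pi.add_apply, ← map_add]
  rfl

theorem co_mul (c : Fin (m + 1) → Fin m → ℝ) (a : ℝ) (M : Fin m → ℝ) (k : Fin m) :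
    co c (fun i => a * M i) k = a * co c M k := by
  unfold co
  have h : (fun i => a * M i) = a • M := rfl
  rw [h, map_smul, Pi.smul_apply, smul_eq_mul, mul_div_assoc]

/-- The base vector. -/
theorem co_base (c : Fin (m + 1) → Fin m → ℝ) (k : Fin m) :
    co c (fun i => c 0 i - c 0 i) k = 0 := by
  unfold co
  have h : (fun i => c 0 i - c 0 i) = 0 := by
    funext i
    simp
  rw [h, map_zero, Pi.zero_apply, zero_div]

/-- The other vectors have the coordinates `e_j`. -/
theorem co_vel (c : Fin (m + 1) → Fin m → ℝ) (h : (mtx c).det ≠ 0) (j k : Fin m) :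
    co c (fun i => c j.succ i - c 0 i) k = (Pi.single j 1 : Fin m → ℝ) k := by
  unfold co
  rw [Matrix.cramer_row_self (mtx c) (fun i => c j.succ i - c 0 i) j (fun _ => rfl)]
  by_cases hk : k = j
  · rw [hk, Pi.single_eq_same, Pi.single_eq_same, div_self h]
  · rw [Pi.single_eq_of_ne hk, Pi.single_eq_of_ne hk, zero_div]

theorem fact_le (m : ℕ) : ((m.factorial : ℕ) : ℝ) ≤ 2 ^ (m * m) := by
  have h1 : m.factorial ≤ m ^ m := Nat.factorial_le_pow m
  have h2 : m ^ m ≤ (2 ^ m) ^ m := Nat.pow_le_pow_left (Nat.lt_two_pow_self).le m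
  rw [← pow_mul] at h2
  exact_mod_cast h1.trans h2

/-- The size of the coordinates. -/
theorem co_abs {c : Fin (m + 1) → Fin m → ℝ} {U D E : ℝ} (hD : 0 < D) (hd : D ≤ |(mtx c).det|)
    (hU1 : 1 ≤ U) (hU : ∀ k j, |mtx c k j| ≤ U) {M : Fin m → ℝ} (hE : 0 < E)
    (hM : ∀ k, |M k| ≤ E) (k : Fin m) :
    |co c M k| ≤ m.factorial * U ^ m * E / D := by
  have h1 : M = E • (fun i => M i / E) := by
    funext i
    show M i = E * (M i / E)
    field_simp
  have h2 : |(mtx c).cramer (fun i => M i / E) k| ≤ m.factorial * U ^ m := by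
    rw [Matrix.cramer_apply]
    have h3 := Matrix.det_le (A := (mtx c).updateCol k (fun i => M i / E))
      (abv := AbsoluteValue.abs) (x := U) (by
        intro i j
        show |(mtx c).updateCol k (fun i => M i / E) i j| ≤ U
        rw [Matrix.updateCol_apply]
        split_ifs
        · rw [abs_div, abs_of_pos hE, div_le_iff₀ hE]
          calc |M i| ≤ 1 * E := by rw [one_mul]; exact hM i
            _ ≤ U * E := mul_le_mul_of_nonneg_right hU1 hE.le
        · exact hU i j)
    rw [Fintype.card_fin, nsmul_eq_mul] at h3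
    exact h3
  have h4 : (mtx c).cramer M k = E * (mtx c).cramer (fun i => M i / E) k := by
    conv_lhs => rw [h1, map_smul, Pi.smul_apply, smul_eq_mul]
  unfold co
  rw [abs_div, h4, abs_mul, abs_of_pos hE]
  have h5 : E * |(mtx c).cramer (fun i => M i / E) k| ≤ m.factorial * U ^ m * E := by
    rw [mul_comm]
    exact mul_le_mul_of_nonneg_right h2 hE.le
  exact div_le_div₀ (by positivity) h5 hD hd

/-! ### The choice of the normals -/

/-- A unit vector which is orthogonal to fewer than `m` vectors. -/
theorem exists_unit (i : Fin m) (v : Fin m → Fin m → ℝ) :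
    ∃ α : Fin m → ℝ, ∑ k, α k ^ 2 = 1 ∧ ∀ j < i, ∑ k, α k * v j k = 0 := by
  classical
  set B : Matrix (Fin m) (Fin m) ℝ := fun j k => if j < i then v j k else 0 with hB
  have hdet : B.det = 0 := Matrix.det_eq_zero_of_row_eq_zero i fun k => by
    simp [hB]
  obtain ⟨x, hx0, hx⟩ := Matrix.exists_mulVec_eq_zero_iff.mpr hdet
  have hpos : 0 < ∑ k, x k ^ 2 := by
    obtain ⟨k, hk⟩ := Function.ne_iff.mp hx0
    have h1 : 0 < x k ^ 2 := by
      have : x k ≠ 0 := hk
      positivity
    exact lt_of_lt_of_le h1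
      (Finset.single_le_sum (f := fun k => x k ^ 2) (fun i _ => sq_nonneg _) (Finset.mem_univ k))
  obtain ⟨r, hr⟩ : ∃ r, r = √(∑ k, x k ^ 2) := ⟨_, rfl⟩
  have hr0 : 0 < r := by rw [hr]; exact Real.sqrt_pos.mpr hpos
  have hr2 : r ^ 2 = ∑ k, x k ^ 2 := by rw [hr]; exact Real.sq_sqrt hpos.le
  refine ⟨fun k => x k / r, ?_, ?_⟩
  · simp only [div_pow]
    rw [← Finset.sum_div, ← hr2, div_self (by positivity)]
  · intro j hj
    have h1 := congrFun hx j
    have h2 : ∑ k, v j k * x k = 0 := by
      have h3 : B.mulVec x j = ∑ k, B j k * x k := rfl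
      rw [h3] at h1
      simp only [hB, if_pos hj] at h1
      exact h1
    have h3 : ∀ k, x k / r * v j k = v j k * x k / r := fun k => by ring
    simp only [h3]
    rw [← Finset.sum_div, h2, zero_div]

/-- A choice of the unit vector. -/
noncomputable def al0 (i : Fin m) (v : Fin m → Fin m → ℝ) : Fin m → ℝ :=
  Classical.choose (exists_unit i v)

/-- The normal number `i`. It only depends on the vectors `j < i`. -/
noncomputable def al (i : Fin m) (v : Fin m → Fin m → ℝ) : Fin m → ℝ :=
  al0 i (fun j k => if j < i then v j k else 0)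

theorem al_unit (i : Fin m) (v : Fin m → Fin m → ℝ) : ∑ k, al i v k ^ 2 = 1 :=
  (Classical.choose_spec (exists_unit i (fun j k => if j < i then v j k else 0))).1

theorem al_orth (i : Fin m) (v : Fin m → Fin m → ℝ) {j : Fin m} (hj : j < i) :
    ∑ k, al i v k * v j k = 0 := by
  have h := (Classical.choose_spec
    (exists_unit i (fun j k => if j < i then v j k else 0))).2 j hj
  simp only [if_pos hj] at h
  exact h

theorem al_congr (i : Fin m) {v v' : Fin m → Fin m → ℝ} (h : ∀ j < i, v j = v' j) :
    al i v = al i v' := by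
  have e : (fun (j k : Fin m) => if j < i then v j k else 0) =
      fun (j k : Fin m) => if j < i then v' j k else 0 := by
    funext j k
    by_cases hj : j < i
    · rw [if_pos hj, if_pos hj, h j hj]
    · rw [if_neg hj, if_neg hj]
  exact congrArg (al0 i) e

theorem al_abs (i : Fin m) (v : Fin m → Fin m → ℝ) (k : Fin m) : |al i v k| ≤ 1 := by
  have h1 := al_unit i v
  have h2 : al i v k ^ 2 ≤ 1 := by
    rw [← h1]
    exact Finset.single_le_sum (f := fun k => al i v k ^ 2) (fun i _ => sq_nonneg _)
      (Finset.mem_univ k)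
  exact (sq_le_one_iff_abs_le_one _).mp h2

/-- **The determinant.** -/
theorem det_low {c : Fin (m + 1) → Fin m → ℝ} {t : ℝ} (ht : 0 ≤ t)
    (h : ∀ i, t ≤ |∑ k, al i (fun j k => c j.succ k - c 0 k) k * (c i.succ k - c 0 k)|) :
    t ^ m ≤ m.factorial * |(mtx c).det| := by
  classical
  set A : Matrix (Fin m) (Fin m) ℝ := fun i k => al i (fun j k => c j.succ k - c 0 k) k with hA
  have hmul : ∀ i j, (A * mtx c) i j =
      ∑ k, al i (fun j k => c j.succ k - c 0 k) k * (c j.succ k - c 0 k) := fun i j => rfl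
  have htri : (A * mtx c).BlockTriangular id := by
    intro i j hij
    rw [hmul]
    exact al_orth i (fun j k => c j.succ k - c 0 k) hij
  have h1 := Matrix.det_of_isUpperTriangular htri
  have h2 : |(A * mtx c).det| = |A.det| * |(mtx c).det| := by
    rw [Matrix.det_mul, abs_mul]
  have h3 : |A.det| ≤ m.factorial := by
    have h4 := Matrix.det_le (A := A) (abv := AbsoluteValue.abs) (x := (1 : ℝ))
      (fun i k => al_abs i _ k)
    rw [Fintype.card_fin, nsmul_eq_mul, one_pow, mul_one] at h4
    exact h4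
  have h4 : t ^ m ≤ |(A * mtx c).det| := by
    rw [h1, Finset.abs_prod]
    have h5 : ∏ _i : Fin m, t ≤ ∏ i, |(A * mtx c) i i| :=
      Finset.prod_le_prod (fun _ _ => ht) fun i _ => by
        rw [hmul]
        exact h i
    rw [Finset.prod_const, card_univ, Fintype.card_fin] at h5
    exact h5
  rw [h2] at h4
  exact h4.trans (mul_le_mul_of_nonneg_right h3 (abs_nonneg _))

end

end Pool.KSM
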