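import Pool.Agent.H60.KSM.Defs

/-!
# Pairs of times on two lines, any dimension
-/

set_option autoImplicit false

namespace Pool.KSM

open Finset Real
open Pool.Agent.H49.Ent Pool.Agent.H32.Dense Pool.STK Pool.KAF Pool.OC Pool.OC.RS Pool.KAL Pool.KX
open Pool.KS2 (rr tl EE EE_swap EE_mono EE_add EE_sub EE_const EE_left EE_le_add EE_congr EE_switch
  ii ii_pos ii_neg ii_nonneg ii_le_one crs cond_eqv)

section

variable {Ω S T U β γ τ : Type} [Fintype Ω] {m : ℕ}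

/-- The value of `avg` does not change much under a short displacement. -/
theorem avg_near {M : ℕ} (hM : 0 < M) (E : Set (Fin m → ℤ)) (y y' : Fin m → ℤ) {R : ℝ}
    (h : ∀ k, |((y' k - y k : ℤ) : ℝ)| ≤ R) :
    |TI.avg m M E y' - TI.avg m M E y| ≤ m * R / M := by
  have h1 := TI.avg_shift hM E y (y' - y) R (fun k => h k)
  rw [add_sub_cancel] at h1
  exact_mod_cast h1

theorem avg_diff_le {M : ℕ} (hM : 0 < M) (E E' : Set (Fin m → ℤ)) (y y' : Fin m → ℤ) :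
    |TI.avg m M E y - TI.avg m M E' y'| ≤ 1 := by
  have a1 := TI.avg_nonneg (N := M) E y
  have a2 := TI.avg_le_one hM E y
  have a3 := TI.avg_nonneg (N := M) E' y'
  have a4 := TI.avg_le_one hM E' y'
  rw [abs_le]
  constructor <;> linarith

/-- The pairs which are not in a set. -/
theorem EE_bad {p : Ω → ℝ} (hp : IsLaw p) (b : Ω → β) (G : Set Ω) :
    EE p b (fun ω v => ii (¬ (ω ∈ G ∧ v ∈ G))) ≤ 2 * Pr p Gᶜ := by
  classical
  have h1 := EE_le_add hp.nonneg b (h := fun ω v => ii (¬ (ω ∈ G ∧ v ∈ G)))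
    (h' := fun ω _ => ii (ω ∉ G)) (k := fun _ v => ii (v ∉ G)) (fun ω v _ _ _ => by
      show ii (¬ (ω ∈ G ∧ v ∈ G)) ≤ ii (ω ∉ G) + ii (v ∉ G)
      by_cases c1 : ω ∈ G
      · by_cases c2 : v ∈ G
        · rw [ii_neg (fun h => h ⟨c1, c2⟩)]
          exact add_nonneg (ii_nonneg _) (ii_nonneg _)
        · rw [ii_pos c2]
          have := ii_le_one (¬ (ω ∈ G ∧ v ∈ G))
          have := ii_nonneg (ω ∉ G)
          linarith
      · rw [ii_pos c1]
        have := ii_le_one (¬ (ω ∈ G ∧ v ∈ G))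
        have := ii_nonneg (v ∉ G)
        linarith)
  have h2 : EE p b (fun ω _ => ii (ω ∉ G)) = Pr p Gᶜ := by
    rw [EE_left hp, Pool.KAF.Pr_eq]
    refine Finset.sum_congr rfl fun ω _ => ?_
    by_cases c1 : ω ∈ Gᶜ
    · rw [if_pos c1, ii_pos (show ω ∉ G from c1), mul_one]
    · rw [if_neg c1, ii_neg (show ¬ ω ∉ G from c1), mul_zero]
  have h3 : EE p b (fun _ v => ii (v ∉ G)) = Pr p Gᶜ := by
    rw [EE_swap, ← h2]
  linarith

/-- One line. -/
theorem blk_one {W Λ : Type} {p : Ω → ℝ} (hp : IsLaw p) (w : Ω → W) (t : Ω → τ) (C : Ω → γ)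
    (Y : Ω → Fin m → ℤ) (L : Ω → Λ) {M : ℕ} (hM : 0 < M) {R cr a₀ : ℝ} (ha₀ : 0 < a₀) (hR : 0 ≤ R)
    (x : τ → τ → Fin m → ℤ) (G : Set Ω)
    (h1 : ∀ ω ω', 0 < p ω → 0 < p ω' → ω ∈ G → ω' ∈ G → L ω = L ω' → w ω = w ω' →
      ∀ k, |((Y ω' k - (Y ω k + x (t ω) (t ω') k) : ℤ) : ℝ)| ≤ R)
    (hc : EE p (fun ω => (L ω, w ω)) (fun ω v => ii (C ω ≠ C v)) ≤ cr)
    (F : τ → τ → γ → Set (Fin m → ℤ)) :
    |EE p w (fun ω v => TI.avg m M (F (t ω) (t v) (C ω)) (Y ω + x (t ω) (t v))) -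
      EE p w (fun ω v => TI.avg m M (F (t v) (t ω) (C ω)) (Y ω))| ≤
      2 * (a₀ + mi p t L w / a₀) + cr + m * R / M + 2 * Pr p Gᶜ := by
  classical
  have hp0 := hp.nonneg
  set b : Ω → Λ × W := fun ω => (L ω, w ω) with hb
  -- three averages over the pairs with the same line
  set hA : Ω → Ω → ℝ := fun ω v => TI.avg m M (F (t ω) (t v) (C ω)) (Y ω + x (t ω) (t v)) with hhA
  set hB : Ω → Ω → ℝ := fun ω v => TI.avg m M (F (t ω) (t v) (C ω)) (Y v) with hhB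
  set hC : Ω → Ω → ℝ := fun ω v => TI.avg m M (F (t ω) (t v) (C v)) (Y v) with hhC
  set hD : Ω → Ω → ℝ := fun ω v => TI.avg m M (F (t v) (t ω) (C ω)) (Y ω) with hhD
  have s1 : |EE p w hA - EE p b hA| ≤ a₀ + mi p t L w / a₀ :=
    EE_switch hp t L w ha₀ (fun ω s => TI.avg m M (F (t ω) s (C ω)) (Y ω + x (t ω) s))
      (fun _ _ => TI.avg_nonneg _ _) (fun _ _ => TI.avg_le_one hM _ _)
  have s4 : |EE p w hD - EE p b hD| ≤ a₀ + mi p t L w / a₀ :=
    EE_switch hp t L w ha₀ (fun ω s => TI.avg m M (F s (t ω) (C ω)) (Y ω))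
      (fun _ _ => TI.avg_nonneg _ _) (fun _ _ => TI.avg_le_one hM _ _)
  have hRM : 0 ≤ m * R / M := by positivity
  have hbad := EE_bad hp b G
  have s2 : |EE p b hA - EE p b hB| ≤ m * R / M + 2 * Pr p Gᶜ := by
    have k : ∀ ω v, 0 < p ω → 0 < p v → b ω = b v →
        |hA ω v - hB ω v| ≤ m * R / M + ii (¬ (ω ∈ G ∧ v ∈ G)) := by
      intro ω v hω hv hbv
      have hbv' := Prod.ext_iff.mp hbv
      by_cases hG : ω ∈ G ∧ v ∈ G
      · have e1 := avg_near hM (F (t ω) (t v) (C ω)) _ _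
          (h1 ω v hω hv hG.1 hG.2 hbv'.1 hbv'.2)
        rw [abs_sub_comm]
        have := ii_nonneg (¬ (ω ∈ G ∧ v ∈ G))
        refine e1.trans (by linarith)
      · rw [ii_pos hG]
        refine (avg_diff_le hM _ _ _ _).trans (by linarith)
    have k1 := EE_le_add hp0 b (h := hA) (h' := hB)
      (k := fun ω v => m * R / M + ii (¬ (ω ∈ G ∧ v ∈ G)))
      (fun ω v a1 a2 a3 => by
        have := (abs_le.mp (k ω v a1 a2 a3)).2
        linarith)
    have k2 := EE_le_add hp0 b (h := hB) (h' := hA)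
      (k := fun ω v => m * R / M + ii (¬ (ω ∈ G ∧ v ∈ G)))
      (fun ω v a1 a2 a3 => by
        have := (abs_le.mp (k ω v a1 a2 a3)).1
        linarith)
    have k3 := EE_add p b (fun _ _ => (m * R / M : ℝ)) (fun ω v => ii (¬ (ω ∈ G ∧ v ∈ G)))
    rw [EE_const hp] at k3
    rw [abs_le]
    constructor <;> linarith
  have s3 : |EE p b hB - EE p b hC| ≤ cr := by
    have k : ∀ ω v, |hB ω v - hC ω v| ≤ ii (C ω ≠ C v) := by
      intro ω v
      by_cases hcc : C ω = C v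
      · rw [ii_neg (fun h => h hcc)]
        simp only [hhB, hhC, hcc, sub_self, abs_zero, le_refl]
      · rw [ii_pos hcc]
        exact avg_diff_le hM _ _ _ _
    have k1 := EE_le_add hp0 b (h := hB) (h' := hC) (k := fun ω v => ii (C ω ≠ C v))
      (fun ω v _ _ _ => by
        have := (abs_le.mp (k ω v)).2
        linarith)
    have k2 := EE_le_add hp0 b (h := hC) (h' := hB) (k := fun ω v => ii (C ω ≠ C v))
      (fun ω v _ _ _ => by
        have := (abs_le.mp (k ω v)).1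
        linarith)
    rw [abs_le]
    constructor <;> linarith
  have s5 : EE p b hC = EE p b hD := EE_swap p b hC
  have t1 := abs_le.mp s1
  have t2 := abs_le.mp s2
  have t3 := abs_le.mp s3
  have t4 := abs_le.mp s4
  rw [abs_le]
  constructor <;> linarith

theorem avg_compl {M : ℕ} (hM : 0 < M) (E : Set (Fin m → ℤ)) (y : Fin m → ℤ) :
    TI.avg m M Eᶜ y = 1 - TI.avg m M E y := by
  classical
  have h := Finset.card_filter_add_card_filter_not (s := (univ : Finset (Fin m → Fin M)))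
    (fun τ => (fun i => y i + ((τ i : ℕ) : ℤ)) ∈ E)
  rw [card_univ, Fintype.card_fun, Fintype.card_fin, Fintype.card_fin] at h
  have h' : ((univ.filter fun τ : Fin m → Fin M => (fun i => y i + ((τ i : ℕ) : ℤ)) ∈ E).card : ℝ) +
      ((univ.filter fun τ : Fin m → Fin M => ¬ (fun i => y i + ((τ i : ℕ) : ℤ)) ∈ E).card : ℝ) =
      (M : ℝ) ^ m := by exact_mod_cast h
  have hM0 : (0 : ℝ) < (M : ℝ) ^ m := by positivity
  have e1 : TI.avg m M E y =
      ((univ.filter fun τ : Fin m → Fin M => (fun i => y i + ((τ i : ℕ) : ℤ)) ∈ E).card : ℝ) /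
        (M : ℝ) ^ m := by
    unfold TI.avg
    refine congrArg (fun n : ℕ => (n : ℝ) / (M : ℝ) ^ m) (congrArg Finset.card ?_)
    ext τ
    simp only [Finset.mem_filter]
  have e2 : TI.avg m M Eᶜ y =
      ((univ.filter fun τ : Fin m → Fin M => ¬ (fun i => y i + ((τ i : ℕ) : ℤ)) ∈ E).card : ℝ) /
        (M : ℝ) ^ m := by
    unfold TI.avg
    refine congrArg (fun n : ℕ => (n : ℝ) / (M : ℝ) ^ m) (congrArg Finset.card ?_)
    ext τ
    simp only [Finset.mem_filter, Set.mem_compl_iff]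
  rw [e1, e2, eq_sub_iff_add_eq, ← add_div, div_eq_one_iff_eq hM0.ne', ← h', add_comm]

/-- A law which is not invariant under a translation. -/
theorem not_tiv {M : ℕ} (hM : 0 < M) {q : Ω → ℝ} {Y : Ω → Fin m → ℤ} {x : Fin m → ℤ} {e : ℝ}
    (h : ¬ TIV (smp m M q) (smX (N := M) Y) (fun _ => ()) x e) :
    ∃ E : Set (Fin m → ℤ), e < ∑ ω, q ω * TI.avg m M E (Y ω) -
      ∑ ω, q ω * TI.avg m M E (Y ω + x) := by
  classical
  unfold TIV at h
  push Not at h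
  obtain ⟨E', hE'⟩ := h
  set E : Set (Fin m → ℤ) := {y | (y, ()) ∈ E'} with hE
  have e1 : Pr (smp m M q) {w | (smX (N := M) Y w, ()) ∈ E'} =
      ∑ ω, q ω * TI.avg m M E (Y ω) := TI.Pr_smp q Y (fun _ => E)
  have e2 : Pr (smp m M q) {w | (smX (N := M) Y w + x, ()) ∈ E'} =
      ∑ ω, q ω * TI.avg m M E (Y ω + x) := by
    rw [← TI.Pr_smp q (fun ω => Y ω + x) (fun _ => E)]
    refine TI.Pr_congr _ fun w => ?_
    have e3 : smX (N := M) Y w + x = smX (N := M) (fun ω => Y ω + x) w := by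
      funext i
      simp only [smX, Pi.add_apply]
      ring
    show (smX (N := M) Y w + x, ()) ∈ E' ↔ (smX (N := M) (fun ω => Y ω + x) w, ()) ∈ E'
    rw [e3]
  rw [e1, e2] at hE'
  rcases lt_abs.mp hE' with h1 | h1
  · exact ⟨E, h1⟩
  · refine ⟨Eᶜ, ?_⟩
    simp only [avg_compl hM, mul_sub, mul_one, Finset.sum_sub_distrib]
    linarith

/-- The samples at which the law of the block is not invariant under the displacement, whatever
the second time. -/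
def bad {γ : Type} (p : Ω → ℝ) (t : Ω → τ) (C : Ω → γ) (Y : Ω → Fin m → ℤ) (M : ℕ)
    (x : τ → τ → Fin m → ℤ) (lv : τ → τ → Prop) (e : ℝ) : Set Ω :=
  {ω | ∀ s, lv (t ω) s →
    ¬ TIV (smp m M (cond p (fun v => (t v, C v)) (t ω, C ω))) (smX (N := M) Y) (fun _ => ())
      (x (t ω) s) e}

open Classical in
/-- **Two lines.** -/
theorem blk_two {W Λ Λ' : Type} {p : Ω → ℝ} (hp : IsLaw p) (w : Ω → W) (t : Ω → τ) (C : Ω → γ)
    (Y : Ω → Fin m → ℤ) (L₁ : Ω → Λ) (L₂ : Ω → Λ') {M : ℕ} (hM : 0 < M) {R cr a₀ i₀ e : ℝ}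
    (ha₀ : 0 < a₀) (hR : 0 ≤ R) (he : 0 < e) (x : τ → τ → Fin m → ℤ) (G : Set Ω)
    (lv : τ → τ → Prop) (hwt : Det p t w)
    (h1 : ∀ ω ω', 0 < p ω → 0 < p ω' → ω ∈ G → ω' ∈ G → L₁ ω = L₁ ω' → w ω = w ω' →
      ∀ k, |((Y ω' k - Y ω k : ℤ) : ℝ)| ≤ R)
    (h2 : ∀ ω ω', 0 < p ω → 0 < p ω' → ω ∈ G → ω' ∈ G → L₂ ω = L₂ ω' → w ω = w ω' →
      ∀ k, |((Y ω' k - (Y ω k + x (t ω) (t ω') k) : ℤ) : ℝ)| ≤ R)
    (hc1 : EE p (fun ω => (L₁ ω, w ω)) (fun ω v => ii (C ω ≠ C v)) ≤ cr)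
    (hc2 : EE p (fun ω => (L₂ ω, w ω)) (fun ω v => ii (C ω ≠ C v)) ≤ cr)
    (hi1 : mi p t L₁ w ≤ i₀) (hi2 : mi p t L₂ w ≤ i₀) :
    e * EE p w (fun ω v => ii (ω ∈ bad p t C Y M x lv e ∧ lv (t ω) (t v))) ≤
      2 * (2 * (a₀ + i₀ / a₀) + cr + m * R / M + 2 * Pr p Gᶜ) := by
  have hp0 := hp.nonneg
  set V : Ω → τ × γ := fun v => (t v, C v) with hV
  set B : Set Ω := bad p t C Y M x lv e with hB
  -- the events
  have hex : ∀ (t₁ s : τ) (c : γ), ((∃ ω, 0 < p ω ∧ t ω = t₁ ∧ C ω = c ∧ ω ∈ B) ∧ lv t₁ s) →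
      ∃ E : Set (Fin m → ℤ), e < ∑ ω, cond p V (t₁, c) ω * TI.avg m M E (Y ω) -
        ∑ ω, cond p V (t₁, c) ω * TI.avg m M E (Y ω + x t₁ s) := by
    rintro t₁ s c ⟨⟨ω, _, rfl, rfl, hω⟩, hlv⟩
    exact not_tiv hM (hω s hlv)
  choose! E hE using hex
  set F : τ → τ → γ → Set (Fin m → ℤ) := fun t₁ s c =>
    if (∃ ω, 0 < p ω ∧ t ω = t₁ ∧ C ω = c ∧ ω ∈ B) ∧ lv t₁ s then E t₁ s c else ∅ with hF
  -- the upper bound
  have u1 := blk_one hp w t C Y L₁ hM ha₀ hR (fun _ _ => 0) G (fun ω ω' a1 a2 a3 a3' a4 a5 k => by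
    have := h1 ω ω' a1 a2 a3 a3' a4 a5 k
    simpa using this) hc1 F
  have u2 := blk_one hp w t C Y L₂ hM ha₀ hR x G h2 hc2 F
  have e0 : ∀ y : Fin m → ℤ, y + 0 = y := fun y => add_zero y
  simp only [e0] at u1
  have m1 : a₀ + mi p t L₁ w / a₀ ≤ a₀ + i₀ / a₀ := by gcongr
  have m2 : a₀ + mi p t L₂ w / a₀ ≤ a₀ + i₀ / a₀ := by gcongr
  have upp : EE p w (fun ω v => TI.avg m M (F (t ω) (t v) (C ω)) (Y ω)) -
      EE p w (fun ω v => TI.avg m M (F (t ω) (t v) (C ω)) (Y ω + x (t ω) (t v))) ≤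
      2 * (2 * (a₀ + i₀ / a₀) + cr + m * R / M + 2 * Pr p Gᶜ) := by
    have k1 := (abs_le.mp u1).2
    have k2 := (abs_le.mp u2).1
    linarith
  refine le_trans ?_ upp
  -- the lower bound
  rw [← EE_sub]
  unfold EE
  rw [Finset.mul_sum]
  set f : Ω → ℝ := fun ω => ∑ v, cond p w (w ω) v *
    (TI.avg m M (F (t ω) (t v) (C ω)) (Y ω) -
      TI.avg m M (F (t ω) (t v) (C ω)) (Y ω + x (t ω) (t v))) with hf
  show _ ≤ ∑ ω, p ω * f ω
  rw [← tower hp0 V f]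
  refine Finset.sum_le_sum fun ω _ => ?_
  rcases (hp0 ω).eq_or_lt with hω | hω
  · rw [← hω]
    simp
  have e1 : e * (p ω * ∑ v, cond p w (w ω) v *
      ii (ω ∈ B ∧ lv (t ω) (t v))) = p ω * ∑ v, cond p w (w ω) v *
        (e * ii (ω ∈ B ∧ lv (t ω) (t v))) := by
    rw [Finset.mul_sum, Finset.mul_sum, Finset.mul_sum]
    exact Finset.sum_congr rfl fun v _ => by ring
  rw [e1]
  refine mul_le_mul_of_nonneg_left ?_ hω.le
  have e2 : ∑ u, cond p V (V ω) u * f u = ∑ v, cond p w (w ω) v *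
      (∑ u, cond p V (V ω) u * TI.avg m M (F (t ω) (t v) (C ω)) (Y u) -
        ∑ u, cond p V (V ω) u * TI.avg m M (F (t ω) (t v) (C ω)) (Y u + x (t ω) (t v))) := by
    have e3 : ∀ u, cond p V (V ω) u * f u = ∑ v, cond p w (w ω) v *
        (cond p V (V ω) u * TI.avg m M (F (t ω) (t v) (C ω)) (Y u) -
        cond p V (V ω) u * TI.avg m M (F (t ω) (t v) (C ω)) (Y u + x (t ω) (t v))) := by
      intro u
      rcases (cond_nonneg hp0 V (V ω) u).eq_or_lt with hu | hu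
      · rw [← hu]
        simp
      · obtain ⟨k1, k2⟩ := (cond_pos_iff hp0 V (V ω) u).1 hu
        have k3 : t u = t ω := (Prod.ext_iff.mp k2).1
        have k4 : C u = C ω := (Prod.ext_iff.mp k2).2
        have k5 : w u = w ω := hwt u ω k1 hω k3
        simp only [hf, k3, k4, k5]
        rw [Finset.mul_sum]
        exact Finset.sum_congr rfl fun v _ => by ring
    rw [Finset.sum_congr rfl fun u _ => e3 u, Finset.sum_comm]
    refine Finset.sum_congr rfl fun v _ => ?_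
    rw [← Finset.mul_sum, Finset.sum_sub_distrib]
  rw [e2]
  refine Finset.sum_le_sum fun v _ => mul_le_mul_of_nonneg_left ?_ (cond_nonneg hp0 _ _ _)
  by_cases hcnd : (∃ ω', 0 < p ω' ∧ t ω' = t ω ∧ C ω' = C ω ∧ ω' ∈ B) ∧ lv (t ω) (t v)
  · have k := hE (t ω) (t v) (C ω) hcnd
    have eF : F (t ω) (t v) (C ω) = E (t ω) (t v) (C ω) := by
      simp only [hF, if_pos hcnd]
    rw [eF]
    have k' : e < ∑ u, cond p V (V ω) u * TI.avg m M (E (t ω) (t v) (C ω)) (Y u) -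
        ∑ u, cond p V (V ω) u * TI.avg m M (E (t ω) (t v) (C ω)) (Y u + x (t ω) (t v)) := k
    have k2 := mul_le_mul_of_nonneg_left (ii_le_one (ω ∈ B ∧ lv (t ω) (t v))) he.le
    linarith
  · have eF : F (t ω) (t v) (C ω) = ∅ := by
      simp only [hF, if_neg hcnd]
    have eA : ∀ y, TI.avg m M (∅ : Set (Fin m → ℤ)) y = 0 := by
      intro y
      unfold TI.avg
      simp
    rw [eF]
    simp only [eA, mul_zero, Finset.sum_const_zero, sub_self]
    rw [ii_neg (fun h => hcnd ⟨⟨ω, hω, rfl, rfl, h.1⟩, h.2⟩), mul_zero]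

end

end Pool.KSM
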