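import Pool.Agent.H60.KSM.Lev
import Pool.Agent.H66.KS2.Shift

/-!
# The mean over the shifts of the grid

The cells at the two times of a pair are rarely different.
-/

set_option autoImplicit false

namespace Pool.KSM

open Finset Real
open Pool.Agent.H49.Ent Pool.Agent.H32.Dense Pool.STK Pool.KAF Pool.OC Pool.OC.RS Pool.KAL Pool.KX
open Pool.KS2 (rr tl EE EE_swap EE_mono EE_add EE_const EE_left EE_le_add
  ii ii_pos ii_neg ii_nonneg ii_le_one near_bdry tl_near)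

section

variable {Ω W ι : Type} [Fintype Ω] {m : ℕ}

theorem EE_sum (p : Ω → ℝ) (b : Ω → W) (s : Finset ι) (h : ι → Ω → Ω → ℝ) :
    ∑ u ∈ s, EE p b (h u) = EE p b (fun ω v => ∑ u ∈ s, h u ω v) := by
  unfold EE
  rw [Finset.sum_comm]
  refine Finset.sum_congr rfl fun ω _ => ?_
  rw [← Finset.mul_sum, Finset.sum_comm]
  congr 1
  refine Finset.sum_congr rfl fun v _ => ?_
  rw [← Finset.mul_sum]

theorem EE_mul (p : Ω → ℝ) (b : Ω → W) (r : ℝ) (h : Ω → Ω → ℝ) :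
    EE p b (fun ω v => r * h ω v) = r * EE p b h := by
  unfold EE
  rw [Finset.mul_sum]
  refine Finset.sum_congr rfl fun ω _ => ?_
  rw [mul_left_comm]
  congr 1
  rw [Finset.mul_sum]
  refine Finset.sum_congr rfl fun v _ => ?_
  ring

/-- Different cells. -/
theorem cross {P : Ω → ℝ} (hP : IsLaw P) (b : Ω → W) (N : Ω → Fin m → ℤ) (G : Set Ω)
    {X Ξ Lc : ℕ} (hΞ : Ξ ≤ X)
    (h : ∀ ω v, 0 < P ω → 0 < P v → ω ∈ G → v ∈ G → b ω = b v → ∀ j, |N v j - N ω j| ≤ (Lc : ℤ)) :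
    ∑ u ∈ range (2 ^ X), EE P b (fun ω v => ii ((fun j => (N ω j + (u : ℤ)) / ((2 ^ Ξ : ℕ) : ℤ)) ≠
      fun j => (N v j + (u : ℤ)) / ((2 ^ Ξ : ℕ) : ℤ))) ≤
      2 ^ X * (m * (2 * Lc / 2 ^ Ξ) + 2 * Pr P Gᶜ) := by
  classical
  rw [EE_sum]
  have hp0 := hP.nonneg
  have c0 : (0 : ℝ) ≤ 2 ^ X * (m * (2 * Lc / 2 ^ Ξ)) := by positivity
  have key : ∀ ω v, 0 < P ω → 0 < P v → b ω = b v → ∑ u ∈ range (2 ^ X),
      ii ((fun j => (N ω j + (u : ℤ)) / ((2 ^ Ξ : ℕ) : ℤ)) ≠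
      fun j => (N v j + (u : ℤ)) / ((2 ^ Ξ : ℕ) : ℤ)) ≤
      2 ^ X * (m * (2 * Lc / 2 ^ Ξ)) + 2 ^ X * ii (¬ (ω ∈ G ∧ v ∈ G)) := by
    intro ω v hω hv hb
    by_cases hG : ω ∈ G ∧ v ∈ G
    · rw [ii_neg (fun c => c hG), mul_zero, add_zero]
      have h1 : ∀ u : ℕ, ii ((fun j => (N ω j + (u : ℤ)) / ((2 ^ Ξ : ℕ) : ℤ)) ≠
          fun j => (N v j + (u : ℤ)) / ((2 ^ Ξ : ℕ) : ℤ)) ≤
          ∑ j : Fin m, (if (N ω j + u) % ((2 ^ Ξ : ℕ) : ℤ) < Lc ∨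
            ((2 ^ Ξ : ℕ) : ℤ) - Lc ≤ (N ω j + u) % ((2 ^ Ξ : ℕ) : ℤ) then (1 : ℝ) else 0) := by
        intro u
        by_cases hne : (fun j => (N ω j + (u : ℤ)) / ((2 ^ Ξ : ℕ) : ℤ)) ≠
          fun j => (N v j + (u : ℤ)) / ((2 ^ Ξ : ℕ) : ℤ)
        · rw [ii_pos hne]
          obtain ⟨j, hj⟩ := Function.ne_iff.mp hne
          have h2 := near_bdry (n := N ω j + u) (n' := N v j + u) (D := 2 ^ Ξ) (L := Lc)
            (by positivity) (by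
              have e1 : N v j + (u : ℤ) - (N ω j + u) = N v j - N ω j := by ring
              rw [e1]
              exact h ω v hω hv hG.1 hG.2 hb j) hj
          refine le_trans ?_ (Finset.single_le_sum (f := fun j : Fin m =>
            (if (N ω j + u) % ((2 ^ Ξ : ℕ) : ℤ) < Lc ∨
            ((2 ^ Ξ : ℕ) : ℤ) - Lc ≤ (N ω j + u) % ((2 ^ Ξ : ℕ) : ℤ) then (1 : ℝ) else 0))
            (fun i _ => by
              split_ifs <;> norm_num) (Finset.mem_univ j))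
          rw [if_pos h2]
        · rw [ii_neg hne]
          exact Finset.sum_nonneg fun j _ => by split_ifs <;> norm_num
      refine (Finset.sum_le_sum fun u _ => h1 u).trans ?_
      rw [Finset.sum_comm]
      refine (Finset.sum_le_card_nsmul univ _ _ fun j _ => near_count X Ξ Lc hΞ (N ω j)).trans
        (le_of_eq ?_)
      rw [card_univ, Fintype.card_fin, nsmul_eq_mul]
      ring
    · rw [ii_pos hG, mul_one]
      have h1 : ∑ u ∈ range (2 ^ X), ii ((fun j => (N ω j + (u : ℤ)) / ((2 ^ Ξ : ℕ) : ℤ)) ≠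
          fun j => (N v j + (u : ℤ)) / ((2 ^ Ξ : ℕ) : ℤ)) ≤ (range (2 ^ X)).card • (1 : ℝ) :=
        Finset.sum_le_card_nsmul _ _ _ fun u _ => ii_le_one _
      rw [card_range, nsmul_eq_mul, mul_one] at h1
      push_cast at h1 ⊢
      linarith
  have h1 := EE_le_add hp0 b (h := fun ω v => ∑ u ∈ range (2 ^ X),
      ii ((fun j => (N ω j + (u : ℤ)) / ((2 ^ Ξ : ℕ) : ℤ)) ≠
      fun j => (N v j + (u : ℤ)) / ((2 ^ Ξ : ℕ) : ℤ)))
    (h' := fun _ _ => 2 ^ X * (m * (2 * Lc / 2 ^ Ξ)))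
    (k := fun ω v => 2 ^ X * ii (¬ (ω ∈ G ∧ v ∈ G))) key
  rw [EE_const hP, EE_mul] at h1
  have h2 := EE_bad hP b G
  have h3 : (2 : ℝ) ^ X * EE P b (fun ω v => ii (¬ (ω ∈ G ∧ v ∈ G))) ≤ 2 ^ X * (2 * Pr P Gᶜ) :=
    mul_le_mul_of_nonneg_left h2 (by positivity)
  rw [mul_add]
  linarith

/-- Different cells of the rows `ℓ - 6 K`. -/
theorem cross_row {Λ Γ : Type} {P : Ω → ℝ} (hP : IsLaw P) (L : Ω → Λ) (a : Ω → Γ) (th : Ω → ℝ)
    (N : Ω → Fin m → ℤ) (G : Set Ω) {X K ℓ s : ℕ} (hK : 1 ≤ K) (h6 : 6 * K ≤ ℓ)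
    (h7 : ℓ + 7 * K ≤ X) (β : Fin m → ℝ) (hβ : ∀ j, |β j| ≤ 1)
    (h : ∀ ω ω', 0 < P ω → 0 < P ω' → ω ∈ G → ω' ∈ G → L ω = L ω' → a ω = a ω' → ∀ j,
      |((N ω' j : ℝ) - N ω j) - 2 ^ X * ((th ω' - th ω) * β j)| ≤
        4 + 2 ^ X * |th ω' - th ω| / 2 ^ s) :
    ∑ u ∈ range (2 ^ X), EE P (fun ω => (L ω, (tl th ℓ ω, a ω)))
      (fun ω v => ii (rw X N u (ℓ - 6 * K) ω ≠ rw X N u (ℓ - 6 * K) v)) ≤
      2 ^ X * (m * (8 / 2 ^ (6 * K)) + 2 * Pr P Gᶜ) := by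
  obtain ⟨Ξ, hΞ⟩ : ∃ Ξ, Ξ = X - (ℓ - 6 * K) := ⟨_, rfl⟩
  have hratio : (2 : ℝ) * ((2 ^ (X - ℓ + 2) : ℕ) : ℝ) / 2 ^ Ξ = 8 / 2 ^ (6 * K) := by
    have e1 : Ξ = (X - ℓ) + 6 * K := by omega
    rw [e1, pow_add (2 : ℝ) (X - ℓ) (6 * K)]
    push_cast
    rw [pow_add]
    field_simp
    ring
  have key := cross hP (fun ω => (L ω, (tl th ℓ ω, a ω))) N G (X := X) (Ξ := Ξ)
    (Lc := 2 ^ (X - ℓ + 2)) (by omega) (by
      intro ω v hω hv hωG hvG hb j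
      have hL : L ω = L v := (Prod.ext_iff.mp hb).1
      have htl : tl th ℓ ω = tl th ℓ v := (Prod.ext_iff.mp (Prod.ext_iff.mp hb).2).1
      have hav : a ω = a v := (Prod.ext_iff.mp (Prod.ext_iff.mp hb).2).2
      have h1 := h ω v hω hv hωG hvG hL hav j
      have h2 := tl_near (th := th) htl
      have hX : (0 : ℝ) < 2 ^ X := by positivity
      have h4 : (2 : ℝ) ^ X * |th v - th ω| ≤ 2 ^ (X - ℓ) := by
        have e1 : (2 : ℝ) ^ X = 2 ^ (X - ℓ) * 2 ^ ℓ := by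
          rw [← pow_add]
          congr 1
          omega
        rw [e1, mul_assoc]
        have h5 : (2 : ℝ) ^ ℓ * |th v - th ω| ≤ 1 := by
          calc (2 : ℝ) ^ ℓ * |th v - th ω| ≤ 2 ^ ℓ * (1 / 2 ^ ℓ) :=
                mul_le_mul_of_nonneg_left h2 (by positivity)
            _ = 1 := by field_simp
        calc (2 : ℝ) ^ (X - ℓ) * (2 ^ ℓ * |th v - th ω|) ≤ 2 ^ (X - ℓ) * 1 :=
              mul_le_mul_of_nonneg_left h5 (by positivity)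
          _ = 2 ^ (X - ℓ) := mul_one _
      have h5 : |(2 : ℝ) ^ X * ((th v - th ω) * β j)| ≤ 2 ^ (X - ℓ) := by
        rw [abs_mul, abs_mul, abs_of_pos hX, ← mul_assoc]
        calc (2 : ℝ) ^ X * |th v - th ω| * |β j| ≤
              2 ^ X * |th v - th ω| * 1 :=
              mul_le_mul_of_nonneg_left (hβ j) (by positivity)
          _ ≤ 2 ^ (X - ℓ) := by rw [mul_one]; exact h4
      have h6' : (2 : ℝ) ^ X * |th v - th ω| / 2 ^ s ≤ 2 ^ (X - ℓ) := by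
        rw [div_le_iff₀ (by positivity)]
        have h8 : (1 : ℝ) ≤ 2 ^ s := one_le_pow₀ (by norm_num)
        nlinarith [show (0 : ℝ) < 2 ^ (X - ℓ) by positivity]
      have h9 : (4 : ℝ) ≤ 2 * 2 ^ (X - ℓ) := by
        have h10 : (2 : ℝ) ^ 1 ≤ 2 ^ (X - ℓ) :=
          pow_le_pow_right₀ (by norm_num) (by omega)
        linarith
      have h10 : |(N v j : ℝ) - N ω j| ≤ 4 * 2 ^ (X - ℓ) := by
        have h11 := abs_sub_abs_le_abs_sub ((N v j : ℝ) - N ω j)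
          (2 ^ X * ((th v - th ω) * β j))
        linarith
      have h11 : ((|N v j - N ω j| : ℤ) : ℝ) ≤ ((2 ^ (X - ℓ + 2) : ℕ) : ℝ) := by
        push_cast
        rw [pow_add]
        linarith
      exact_mod_cast h11)
  rw [hratio] at key
  subst hΞ
  exact key

end

end Pool.KSM
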