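import Pool.Agent.H60.KS2.Lev

/-!
# Full rows, gaps in the times, any dimension: data and statements

`OD`: two random lines through the same point at the same time, in the contexts `a`; the first one
does not move, the second one moves with the velocity `e_k`. The one-direction theorem: the rows of
the coordinate `k` are full, given the rows of the other coordinates and the time.

`KD`: a random line with a random time in a context `b`; `W` is the exact point and time, `o` the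
velocity, `N` the position (units `2 ^ (-X)`). If the velocities of the lines through a point are
not near a hyperplane, the position is full given the time.
-/

set_option autoImplicit false

namespace Pool.KSM

open Finset Real
open Pool.Agent.H49.Ent Pool.Agent.H32.Dense Pool.STK Pool.KAF Pool.OC Pool.OC.RS Pool.KAL Pool.KX
open Pool.KS2 (rr tl)

/-- The data of one direction. -/
structure OD (m : ℕ) where
  Om : Type
  Lam : Type
  Lam' : Type
  Tau : Type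
  Bet : Type
  Gam : Type
  [fin : Fintype Om]
  P : Om → ℝ
  L : Om → Lam
  L' : Om → Lam'
  T : Om → Tau
  b : Om → Bet
  a : Om → Gam
  th : Om → ℝ
  N : Om → Fin m → ℤ
  k : Fin m
  X : ℕ
  G : Set Om

attribute [instance] OD.fin

namespace OD

variable {m : ℕ} (d : OD m)

/-- The first `i` digits of the time. -/
noncomputable def Ti (i : ℕ) (ω : d.Om) : ℤ := ⌊(2 : ℝ) ^ i * d.th ω⌋

/-- The probability that a second time of the window `i` is near the time of the sample. -/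
noncomputable def dead (k' i : ℕ) (ω : d.Om) : ℝ :=
  Pr (cond d.P (fun v => (d.L v, (d.b v, d.Ti i v))) (d.L ω, (d.b ω, d.Ti i ω)))
    {v | |d.th v - d.th ω| < (2 : ℝ) ^ (-((i : ℤ) + k'))}

/-- The basic assumptions. The lines are only known for pairs of samples in `G`. -/
structure OK (s : ℕ) : Prop where
  law : IsLaw d.P
  hab : Det d.P d.a d.b
  hth : Det d.P (fun ω => (d.T ω, d.b ω)) d.th
  h0 : ∀ ω ω', 0 < d.P ω → 0 < d.P ω' → ω ∈ d.G → ω' ∈ d.G → d.L ω = d.L ω' → d.a ω = d.a ω' →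
    ∀ j, |(d.N ω' j : ℝ) - d.N ω j| ≤ 4 + 2 ^ d.X * |d.th ω' - d.th ω| / 2 ^ s
  hv : ∀ ω ω', 0 < d.P ω → 0 < d.P ω' → ω ∈ d.G → ω' ∈ d.G → d.L' ω = d.L' ω' → d.a ω = d.a ω' →
    ∀ j, |((d.N ω' j : ℝ) - d.N ω j) -
      2 ^ d.X * ((d.th ω' - d.th ω) * (Pi.single d.k 1 : Fin m → ℝ) j)| ≤
      4 + 2 ^ d.X * |d.th ω' - d.th ω| / 2 ^ s

end OD

/-- The rows `ℓ` of the shifted position. -/
def rw {Ω : Type} {m : ℕ} (X : ℕ) (N : Ω → Fin m → ℤ) (u : ℤ) (ℓ : ℕ) (ω : Ω) (j : Fin m) : ℤ :=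
  rr X ℓ (fun ω => N ω j + u) ω

/-- The condition of a row of the coordinate `k`: the coarser row, the rows of the other
coordinates, the context. -/
def ctx {Ω Θ : Type} {m : ℕ} (X : ℕ) (N : Ω → Fin m → ℤ) (k : Fin m) (K : ℕ) (A : Ω → Θ) (u : ℤ)
    (ℓ : ℕ) (ω : Ω) : (ℤ × ({j : Fin m // j ≠ k} → ℤ)) × Θ :=
  ((rw X N u ℓ ω k, fun j => rw X N u (ℓ + K) ω j), A ω)

/-- The sum of the entropies of the rows of the coordinate `k`, over all shifts and all levels. -/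
noncomputable def rowSum {Ω Θ : Type} [Fintype Ω] {m : ℕ} (P : Ω → ℝ) (X : ℕ) (N : Ω → Fin m → ℤ)
    (k : Fin m) (K : ℕ) (A : Ω → Θ) : ℝ :=
  ∑ u ∈ Finset.range (2 ^ X), ∑ ℓ ∈ Finset.range (X + 1 - K),
    CH P (fun ω => rw X N u (ℓ + K) ω k) (ctx X N k K A u ℓ)

/-- **The one-direction theorem.** -/
def ODTStmt : Prop :=
  ∀ (m k' : ℕ) (c ε : ℝ), 0 < c → 0 < ε → ∃ (δ : ℝ) (s X₀ K : ℕ), 0 < δ ∧ 1 ≤ K ∧ ∀ d : OD m,
    d.OK s → X₀ ≤ d.X → Pr d.P d.Gᶜ ≤ δ → mi d.P d.L d.T d.a ≤ δ * d.X →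
    mi d.P d.L' d.T d.a ≤ δ * d.X →
    mi d.P d.T d.a (fun ω => (d.L ω, d.b ω)) ≤ δ * d.X → ∀ D : ℕ → Set d.Om,
    (∀ i ω, 0 < d.P ω → ω ∉ D i → d.dead k' i ω ≤ 1 - c) →
    2 ^ d.X * (K * ((1 - ε) * d.X * Real.log 2 -
      Real.log 2 * ∑ i ∈ Finset.range d.X, Pr d.P (D i))) ≤
      rowSum d.P d.X d.N d.k K (fun ω => (d.T ω, d.a ω))

/-- The sum over the directions. -/
def SumStmt : Prop :=
  ∀ (Ω Θ : Type) [Fintype Ω] (m X K : ℕ) (P : Ω → ℝ) (N : Ω → Fin m → ℤ) (A : Ω → Θ)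
    (β : Fin m → ℝ), IsLaw P → 1 ≤ K → (∀ k, 2 ^ X * (K * β k) ≤ rowSum P X N k K A) →
    ∑ k, β k ≤ CH P N A

/-! ### The theorem for samples of the lines through a point -/

/-- The data of the theorem. -/
structure KD (m : ℕ) where
  Om : Type
  Lam : Type
  Tau : Type
  Bet : Type
  Xi : Type
  [fin : Fintype Om]
  P : Om → ℝ
  L : Om → Lam
  T : Om → Tau
  b : Om → Bet
  W : Om → Xi
  th : Om → ℝ
  o : Om → Fin m → ℝ
  N : Om → Fin m → ℤ
  X : ℕ

attribute [instance] KD.fin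

namespace KD

variable {m : ℕ} (d : KD m)

/-- The first `i` digits of the time. -/
noncomputable def Ti (i : ℕ) (ω : d.Om) : ℤ := ⌊(2 : ℝ) ^ i * d.th ω⌋

/-- The probability that a second time of the window `i` is near the time of the sample. -/
noncomputable def dead (k' i : ℕ) (ω : d.Om) : ℝ :=
  Pr (cond d.P (fun v => (d.L v, (d.b v, d.Ti i v))) (d.L ω, (d.b ω, d.Ti i ω)))
    {v | |d.th v - d.th ω| < (2 : ℝ) ^ (-((i : ℤ) + k'))}

/-- The basic assumptions. -/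
structure OK (A B : ℕ) : Prop where
  law : IsLaw d.P
  hth : Det d.P (fun ω => (d.T ω, d.b ω)) d.th
  ho : Det d.P (fun ω => (d.L ω, d.b ω)) d.o
  hB : ∀ ω, 0 < d.P ω → ∀ j, |d.o ω j| ≤ 2 ^ B
  hW : Det d.P d.W (fun ω => (d.T ω, (d.b ω, d.N ω)))
  hN : ∀ ω ω', 0 < d.P ω → 0 < d.P ω' → d.L ω = d.L ω' → d.b ω = d.b ω' → ∀ j,
    |((d.N ω' j : ℝ) - d.N ω j) - 2 ^ d.X * ((d.th ω' - d.th ω) * d.o ω j)| ≤ 2 ^ A

/-- The samples `ω` such that, given the exact point and time of `ω`, the velocity is near a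
hyperplane with probability larger than `δ`. -/
def flat (g : ℕ) (δ : ℝ) : Set d.Om :=
  {ω | ∃ (α : Fin m → ℝ) (γ : ℝ), ∑ j, α j ^ 2 = 1 ∧
    δ < Pr (cond d.P d.W (d.W ω)) {v | |∑ j, α j * d.o v j - γ| ≤ 1 / 2 ^ g}}

end KD

/-- **K_SATm.** -/
def KSatMStmt : Prop :=
  ∀ (m A B k' : ℕ) (c ε : ℝ), 0 < c → 0 < ε → ∃ (δ : ℝ) (X₀ : ℕ), 0 < δ ∧ ∀ (d : KD m) (g : ℕ),
    d.OK A B → X₀ ≤ d.X → (g : ℝ) ≤ δ * d.X → mi d.P d.T d.L d.b ≤ δ * d.X →
    Pr d.P (d.flat g δ) ≤ δ → ∀ D : ℕ → Set d.Om,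
    (∀ i ω, 0 < d.P ω → ω ∉ D i → d.dead k' i ω ≤ 1 - c) →
    (m - ε) * d.X * Real.log 2 - m * Real.log 2 * ∑ i ∈ Finset.range d.X, Pr d.P (D i) ≤
      CH d.P d.N (fun ω => (d.T ω, d.b ω))

end Pool.KSM
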