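import Pool.Agent.H60.KSM.Iid
import Pool.Agent.H60.KSM.Alg
import Pool.Agent.H82.KS2.Ext

/-!
# Extension: `m + 1` samples, independent given the exact point and time

In the basis of the differences of the velocities, in the frame which moves with the first
velocity, the lines move with the velocities `0`, `e_j`. The cells of the velocities go into the
context.
-/

set_option autoImplicit false

namespace Pool.KSM

open Finset Real
open Pool.Agent.H49.Ent Pool.Agent.H32.Dense Pool.STK Pool.KAF Pool.OC Pool.OC.RS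
open Pool.KS2 (floor_diff)

section ext

variable {m : ℕ} (d : KD m)

/-- The loss of digits. -/
def Lb (m B g : ℕ) : ℕ := (g + 1) * m + (B + 2) * m + 2 * (m * m)

/-- The cells of the velocities. -/
noncomputable def cel (G : ℕ) (w : Fin (m + 1) → d.Om) : Fin (m + 1) → Fin m → ℤ :=
  fun j k => ⌊(2 : ℝ) ^ G * d.o (w j) k⌋

/-- The corner of a cell. -/
noncomputable def crn (G : ℕ) (c : Fin (m + 1) → Fin m → ℤ) : Fin (m + 1) → Fin m → ℝ :=
  fun j k => (c j k : ℝ) / 2 ^ G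

/-- The position in the moving frame. -/
noncomputable def mvp (G : ℕ) (w : Fin (m + 1) → d.Om) : Fin m → ℝ :=
  fun k => (d.N (w 0) k : ℝ) - 2 ^ d.X * (d.th (w 0) * crn G (cel d G w) 0 k)

/-- The new position. -/
noncomputable def posM (G A' : ℕ) (w : Fin (m + 1) → d.Om) (k : Fin m) : ℤ :=
  ⌊co (crn G (cel d G w)) (mvp d G w) k / 2 ^ A'⌋

/-- The samples with velocities in general position. -/
def good (G g : ℕ) : Set (Fin (m + 1) → d.Om) :=
  {w | 1 / 2 ^ ((g + 1) * m) ≤ m.factorial * |(mtx (crn G (cel d G w))).det|}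

/-- The data of one direction. -/
noncomputable def extM (G A' g : ℕ) (k : Fin m) : OD m where
  Om := Fin (m + 1) → d.Om
  Lam := d.Lam
  Lam' := d.Lam
  Tau := d.Tau
  Bet := d.Bet
  Gam := (Fin (m + 1) → Fin m → ℤ) × d.Bet
  P := iid d.P d.W m
  L := fun w => d.L (w 0)
  L' := fun w => d.L (w k.succ)
  T := fun w => d.T (w 0)
  b := fun w => d.b (w 0)
  a := fun w => (cel d G w, d.b (w 0))
  th := fun w => d.th (w 0)
  N := posM d G A'
  k := k
  X := d.X - A'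
  G := good d G g

variable {d}

theorem crn_near (G : ℕ) (w : Fin (m + 1) → d.Om) (j : Fin (m + 1)) (k : Fin m) :
    0 ≤ d.o (w j) k - crn G (cel d G w) j k ∧
      d.o (w j) k - crn G (cel d G w) j k ≤ 1 / 2 ^ G := by
  have h2 : (0 : ℝ) < 2 ^ G := by positivity
  have h1 := Int.floor_le ((2 : ℝ) ^ G * d.o (w j) k)
  have h3 := Int.lt_floor_add_one ((2 : ℝ) ^ G * d.o (w j) k)
  have e1 : crn G (cel d G w) j k = (⌊(2 : ℝ) ^ G * d.o (w j) k⌋ : ℝ) / 2 ^ G := rfl
  rw [e1]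
  constructor
  · rw [sub_nonneg, div_le_iff₀ h2]
    linarith
  · rw [sub_le_iff_le_add, ← add_div, le_div_iff₀ h2]
    linarith

/-- The size of the corners. -/
theorem crn_u {A B : ℕ} (hd : d.OK A B) (G : ℕ) {w : Fin (m + 1) → d.Om}
    (hw : 0 < iid d.P d.W m w) (k j : Fin m) : |mtx (crn G (cel d G w)) k j| ≤ 2 ^ (B + 2) := by
  have hp := hd.law.nonneg
  have h1 := crn_near G w j.succ k
  have h2 := crn_near G w 0 k
  have h3 := abs_le.mp (hd.hB _ (iid_pos hp hw j.succ).1 k)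
  have h4 := abs_le.mp (hd.hB _ (iid_pos hp hw 0).1 k)
  have h5 : (1 : ℝ) / 2 ^ G ≤ 1 := by
    rw [div_le_one (by positivity)]
    exact one_le_pow₀ (by norm_num)
  have h6 : (1 : ℝ) ≤ 2 ^ B := one_le_pow₀ (by norm_num)
  have h7 : (2 : ℝ) ^ (B + 2) = 4 * 2 ^ B := by
    rw [pow_add]
    ring
  unfold mtx
  rw [h7, abs_le]
  constructor <;> linarith [h1.1, h1.2, h2.1, h2.2, h3.1, h3.2, h4.1, h4.2]

theorem samN {A B : ℕ} (hd : d.OK A B) {w : Fin (m + 1) → d.Om}
    (hw : 0 < iid d.P d.W m w) (j : Fin (m + 1)) :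
    d.T (w j) = d.T (w 0) ∧ d.b (w j) = d.b (w 0) ∧ d.N (w j) = d.N (w 0) ∧
      d.th (w j) = d.th (w 0) := by
  have hp := hd.law.nonneg
  have h1 := iid_pos hp hw j
  have h2 := iid_pos hp hw 0
  have h3 := hd.hW _ _ h1.1 h2.1 h1.2
  simp only [Prod.mk.injEq] at h3
  exact ⟨h3.1, h3.2.1, h3.2.2, hd.hth _ _ h1.1 h2.1 (Prod.ext h3.1 h3.2.1)⟩

/-- The constants. -/
theorem ext_num (m A B s g : ℕ) {P t X' : ℝ} (ht : 0 ≤ t) (hX0 : 0 ≤ X')
    (hX' : X' * 2 ^ (A + Lb m B g) = P) :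
    m.factorial * (2 ^ (B + 2)) ^ m * (2 ^ A + P * t / 2 ^ (Lb m B g + s + m + 1)) /
      (1 / 2 ^ ((g + 1) * m) / m.factorial) / 2 ^ (A + Lb m B g) ≤ 1 + X' * t / 2 ^ s := by
  have f0 : (0 : ℝ) < m.factorial := by exact_mod_cast m.factorial_pos
  have f1 := fact_le m
  have hsq : (m.factorial : ℝ) * m.factorial ≤ 2 ^ (2 * (m * m)) := by
    have := mul_le_mul f1 f1 f0.le (by positivity)
    rw [← pow_add] at this
    refine this.trans (le_of_eq ?_)
    congr 1
    ring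
  obtain ⟨E, hE⟩ : ∃ E : ℝ, E = 2 ^ A + P * t / 2 ^ (Lb m B g + s + m + 1) := ⟨_, rfl⟩
  have hP0 : 0 ≤ P := by rw [← hX']; positivity
  have hE0 : 0 ≤ E := by rw [hE]; positivity
  rw [← hE]
  have e1 : (m.factorial : ℝ) * (2 ^ (B + 2)) ^ m * E / (1 / 2 ^ ((g + 1) * m) / m.factorial) =
      (m.factorial * m.factorial) * (2 ^ ((B + 2) * m) * 2 ^ ((g + 1) * m)) * E := by
    rw [← pow_mul]
    field_simp
  have e2 : (m.factorial : ℝ) * m.factorial * (2 ^ ((B + 2) * m) * 2 ^ ((g + 1) * m)) * E ≤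
      2 ^ Lb m B g * E := by
    refine mul_le_mul_of_nonneg_right ?_ hE0
    have e3 : (2 : ℝ) ^ Lb m B g =
        2 ^ (2 * (m * m)) * (2 ^ ((B + 2) * m) * 2 ^ ((g + 1) * m)) := by
      unfold Lb
      rw [← pow_add, ← pow_add]
      congr 1
      ring
    rw [e3]
    exact mul_le_mul_of_nonneg_right hsq (by positivity)
  rw [e1]
  have e4 : 2 ^ Lb m B g * E / 2 ^ (A + Lb m B g) = 1 + X' * t / 2 ^ (s + m + 1) := by
    rw [hE, ← hX', pow_add (2 : ℝ) A (Lb m B g),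
      show Lb m B g + s + m + 1 = Lb m B g + (s + m + 1) by ring,
      pow_add (2 : ℝ) (Lb m B g) (s + m + 1)]
    have a1 : (0 : ℝ) < 2 ^ A := by positivity
    have a2 : (0 : ℝ) < 2 ^ Lb m B g := by positivity
    have a3 : (0 : ℝ) < 2 ^ (s + m + 1) := by positivity
    field_simp
  have e5 : X' * t / 2 ^ (s + m + 1) ≤ X' * t / 2 ^ s := by
    refine div_le_div_of_nonneg_left (by positivity) (by positivity) ?_
    exact pow_le_pow_right₀ (by norm_num) (by omega)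
  calc (m.factorial : ℝ) * m.factorial * (2 ^ ((B + 2) * m) * 2 ^ ((g + 1) * m)) * E /
        2 ^ (A + Lb m B g) ≤ 2 ^ Lb m B g * E / 2 ^ (A + Lb m B g) :=
        div_le_div_of_nonneg_right e2 (by positivity)
    _ ≤ 1 + X' * t / 2 ^ s := by rw [e4]; linarith

theorem det_ne {c : Fin (m + 1) → Fin m → ℝ} {r : ℝ} (hr : 0 < r)
    (h : r ≤ m.factorial * |(mtx c).det|) : (mtx c).det ≠ 0 := by
  intro h0
  rw [h0, abs_zero, mul_zero] at h
  linarith

/-- Motion of the new position along a line. -/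
theorem posM_move {A B s g : ℕ} (hd : d.OK A B) (hX : A + Lb m B g ≤ d.X)
    {w w' : Fin (m + 1) → d.Om} (hw : 0 < iid d.P d.W m w) (hw' : 0 < iid d.P d.W m w')
    (hG : w ∈ good d (Lb m B g + s + m + 1) g)
    (hc : cel d (Lb m B g + s + m + 1) w = cel d (Lb m B g + s + m + 1) w')
    (hb : d.b (w 0) = d.b (w' 0)) (j : Fin (m + 1)) (hL : d.L (w j) = d.L (w' j)) (V : Fin m → ℝ)
    (hV : ∀ k, co (crn (Lb m B g + s + m + 1) (cel d (Lb m B g + s + m + 1) w))
      (fun i => crn (Lb m B g + s + m + 1) (cel d (Lb m B g + s + m + 1) w) j i -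
        crn (Lb m B g + s + m + 1) (cel d (Lb m B g + s + m + 1) w) 0 i) k = V k) (k : Fin m) :
    |((posM d (Lb m B g + s + m + 1) (A + Lb m B g) w' k : ℝ) -
        posM d (Lb m B g + s + m + 1) (A + Lb m B g) w k) -
      2 ^ (d.X - (A + Lb m B g)) * ((d.th (w' 0) - d.th (w 0)) * V k)| ≤
      4 + 2 ^ (d.X - (A + Lb m B g)) * |d.th (w' 0) - d.th (w 0)| / 2 ^ s := by
  have hp := hd.law.nonneg
  have f0 : (0 : ℝ) < m.factorial := by exact_mod_cast m.factorial_pos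
  have hnum := ext_num m A B s g (P := 2 ^ d.X) (t := |d.th (w' 0) - d.th (w 0)|)
    (X' := 2 ^ (d.X - (A + Lb m B g))) (abs_nonneg _) (by positivity)
    (by rw [← pow_add]; congr 1; omega)
  obtain ⟨G, hGd⟩ : ∃ G, G = Lb m B g + s + m + 1 := ⟨_, rfl⟩
  obtain ⟨A', hA'⟩ : ∃ A', A' = A + Lb m B g := ⟨_, rfl⟩
  rw [← hGd] at hG hc hnum hV ⊢
  rw [← hA'] at hX hnum ⊢
  obtain ⟨c, hcd⟩ : ∃ c, c = crn G (cel d G w) := ⟨_, rfl⟩
  have hcd' : crn G (cel d G w') = c := by rw [hcd, hc]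
  have hGc : 1 / 2 ^ ((g + 1) * m) / (m.factorial : ℝ) ≤ |(mtx c).det| := by
    rw [div_le_iff₀ f0, mul_comm |(mtx c).det|, hcd]
    exact hG
  have e1 : posM d G A' w k = ⌊co c (mvp d G w) k / 2 ^ A'⌋ := by
    unfold posM
    rw [← hcd]
  have e2 : posM d G A' w' k = ⌊co c (mvp d G w') k / 2 ^ A'⌋ := by
    unfold posM
    rw [hcd']
  -- the error of the motion
  obtain ⟨D, hD⟩ : ∃ D, D = d.th (w' 0) - d.th (w 0) := ⟨_, rfl⟩
  rw [← hD] at hnum ⊢
  obtain ⟨er, her⟩ : ∃ er : Fin m → ℝ, er = fun i => (mvp d G w' i - mvp d G w i) -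
    2 ^ d.X * D * (c j i - c 0 i) := ⟨_, rfl⟩
  have s1 := samN hd hw j
  have s2 := samN hd hw' j
  have hE : ∀ i, |er i| ≤ 2 ^ A + 2 ^ d.X * |D| / 2 ^ G := by
    intro i
    have h1 := hd.hN _ _ (iid_pos hp hw j).1 (iid_pos hp hw' j).1 hL
      (by rw [s1.2.1, s2.2.1]; exact hb) i
    rw [s1.2.2.1, s2.2.2.1, s1.2.2.2, s2.2.2.2, ← hD] at h1
    have h2 := crn_near G w j i
    rw [← hcd] at h2
    have h3 : |2 ^ d.X * D * (d.o (w j) i - c j i)| ≤ 2 ^ d.X * |D| / 2 ^ G := by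
      rw [abs_mul, abs_mul, abs_of_pos (by positivity : (0 : ℝ) < 2 ^ d.X), abs_of_nonneg h2.1,
        div_eq_mul_one_div (2 ^ d.X * |D|)]
      exact mul_le_mul_of_nonneg_left h2.2 (by positivity)
    have e3 : er i = (((d.N (w' 0) i : ℝ) - d.N (w 0) i) - 2 ^ d.X * (D * d.o (w j) i)) +
        2 ^ d.X * D * (d.o (w j) i - c j i) := by
      rw [her]
      show ((d.N (w' 0) i : ℝ) - 2 ^ d.X * (d.th (w' 0) * crn G (cel d G w') 0 i)) -
        ((d.N (w 0) i : ℝ) - 2 ^ d.X * (d.th (w 0) * crn G (cel d G w) 0 i)) -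
        2 ^ d.X * D * (c j i - c 0 i) = _
      rw [hcd', ← hcd, hD]
      ring
    rw [e3]
    exact (abs_add_le _ _).trans (add_le_add h1 h3)
  have e4 : co c (mvp d G w') k - co c (mvp d G w) k = 2 ^ d.X * D * V k + co c er k := by
    have hV' : V k = co c (fun i => c j i - c 0 i) k := by
      rw [hcd]
      exact (hV k).symm
    rw [co_sub, hV', ← co_mul, ← co_add]
    congr 1
    funext i
    rw [her]
    ring
  have h5 := co_abs (c := c) (U := 2 ^ (B + 2)) (by positivity) hGc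
    (one_le_pow₀ (by norm_num)) (fun k j => by rw [hcd]; exact crn_u hd G hw k j)
    (by positivity : (0 : ℝ) < 2 ^ A + 2 ^ d.X * |D| / 2 ^ G) hE k
  have h6 := floor_diff (co c (mvp d G w) k / 2 ^ A') (co c (mvp d G w') k / 2 ^ A')
  rw [e1, e2]
  have h2A : (0 : ℝ) < 2 ^ A' := by positivity
  have e5 : co c (mvp d G w') k / 2 ^ A' - co c (mvp d G w) k / 2 ^ A' =
      2 ^ (d.X - A') * (D * V k) + co c er k / 2 ^ A' := by
    rw [← sub_div, e4, add_div]
    congr 1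
    rw [div_eq_iff h2A.ne']
    have : (2 : ℝ) ^ d.X = 2 ^ (d.X - A') * 2 ^ A' := by
      rw [← pow_add]
      congr 1
      omega
    rw [this]
    ring
  rw [e5] at h6
  have h7 : |co c er k / 2 ^ A'| ≤ 1 + 2 ^ (d.X - A') * |D| / 2 ^ s := by
    rw [abs_div, abs_of_pos h2A]
    refine le_trans ?_ hnum
    exact div_le_div_of_nonneg_right h5 h2A.le
  have e6 : ((⌊co c (mvp d G w') k / 2 ^ A'⌋ : ℝ) - ⌊co c (mvp d G w) k / 2 ^ A'⌋) -
      2 ^ (d.X - A') * (D * V k) =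
      (((⌊co c (mvp d G w') k / 2 ^ A'⌋ : ℝ) - ⌊co c (mvp d G w) k / 2 ^ A'⌋) -
      (2 ^ (d.X - A') * (D * V k) + co c er k / 2 ^ A')) + co c er k / 2 ^ A' := by ring
  rw [e6]
  refine (abs_add_le _ _).trans ?_
  linarith

/-! ### The bad samples -/

theorem Pr_first (hp : ∀ ω, 0 ≤ d.P ω) (F : Set d.Om) :
    Pr (iid d.P d.W m) {w | w 0 ∈ F} = Pr d.P F :=
  (iid_zero hp).law (fun ω => ω ∈ F) True

theorem not_flat {g : ℕ} {δ : ℝ} {ω : d.Om} (h : ω ∉ d.flat g δ) {α : Fin m → ℝ} {γ : ℝ}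
    (hα : ∑ j, α j ^ 2 = 1) :
    Pr (cond d.P d.W (d.W ω)) {v | |∑ j, α j * d.o v j - γ| ≤ 1 / 2 ^ g} ≤ δ := by
  by_contra hcon
  exact h ⟨α, γ, hα, not_le.mp hcon⟩

/-- The normal number `i` of the sample. -/
noncomputable def nrm (d : KD m) (G : ℕ) (i : Fin m) (w : Fin (m + 1) → d.Om) : Fin m → ℝ :=
  al i (fun j k => crn G (cel d G w) j.succ k - crn G (cel d G w) 0 k)

/-- The velocity number `i + 1` is near the hyperplane. -/
def evM (d : KD m) (G g : ℕ) (δ : ℝ) (i : Fin m) : Set (Fin (m + 1) → d.Om) :=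
  {w | w 0 ∉ d.flat g δ ∧ |∑ k, nrm d G i w k * (d.o (w i.succ) k - d.o (w 0) k)| ≤ 1 / 2 ^ g}

theorem nrm_update (G : ℕ) (i : Fin m) (w : Fin (m + 1) → d.Om) (v : d.Om) :
    nrm d G i (Function.update w i.succ v) = nrm d G i w := by
  classical
  refine al_congr i fun j hj => ?_
  have h1 : ∀ l : Fin (m + 1), l ≠ i.succ → ∀ k,
      crn G (cel d G (Function.update w i.succ v)) l k = crn G (cel d G w) l k := by
    intro l hl k
    show ((⌊(2 : ℝ) ^ G * d.o (Function.update w i.succ v l) k⌋ : ℤ) : ℝ) / 2 ^ G = _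
    rw [Function.update_of_ne hl]
    rfl
  funext k
  rw [h1 j.succ (fun e => hj.ne (Fin.succ_injective _ e)) k, h1 0 (Fin.succ_ne_zero i).symm k]

theorem evM_le {A B : ℕ} (hd : d.OK A B) {G g : ℕ} {δ : ℝ} (hδ : 0 ≤ δ) (i : Fin m) :
    Pr (iid d.P d.W m) (evM d G g δ i) ≤ δ := by
  classical
  have hp := hd.law.nonneg
  refine iid_ev hd.law i _ fun w _ => ?_
  have h0 : ∀ v, Function.update w i.succ v 0 = w 0 := fun v =>
    Function.update_of_ne (Fin.succ_ne_zero i).symm v w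
  by_cases h : w 0 ∈ d.flat g δ
  · have e : Pr (cond d.P d.W (d.W (w 0))) {v | Function.update w i.succ v ∈ evM d G g δ i} = 0 := by
      refine Pool.KS2.Pr_empty' _ fun v hv => ?_
      have := hv.1
      rw [h0] at this
      exact this h
    rw [e]
    exact hδ
  · refine le_trans ?_ (not_flat h (α := nrm d G i w) (γ := ∑ k, nrm d G i w k * d.o (w 0) k)
      (al_unit i _))
    refine Pr_mono (cond_nonneg hp _ _) fun v _ hv => ?_
    have h1 := hv.2
    rw [nrm_update, h0, Function.update_self] at h1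
    show |∑ j, nrm d G i w j * d.o v j - ∑ k, nrm d G i w k * d.o (w 0) k| ≤ 1 / 2 ^ g
    rw [← Finset.sum_sub_distrib]
    simp only [← mul_sub]
    exact h1

theorem Pr_union {Ω : Type} [Fintype Ω] {n : ℕ} {p : Ω → ℝ} (hp : ∀ ω, 0 ≤ p ω) {A B : Set Ω}
    {E : Fin n → Set Ω} (h : ∀ ω, 0 < p ω → ω ∈ A → ω ∈ B ∨ ∃ i, ω ∈ E i) :
    Pr p A ≤ Pr p B + ∑ i, Pr p (E i) := by
  classical
  simp only [Pool.KAF.Pr_eq]
  rw [Finset.sum_comm, ← Finset.sum_add_distrib]
  refine Finset.sum_le_sum fun ω _ => ?_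
  have n1 : 0 ≤ (if ω ∈ B then p ω else 0) := by
    split_ifs
    · exact hp ω
    · exact le_rfl
  have n2 : ∀ i ∈ (univ : Finset (Fin n)), 0 ≤ (if ω ∈ E i then p ω else 0) := fun i _ => by
    split_ifs
    · exact hp ω
    · exact le_rfl
  rcases (hp ω).eq_or_lt with h0 | h0
  · rw [← h0]
    simp
  by_cases hA : ω ∈ A
  · rw [if_pos hA]
    rcases h ω h0 hA with hB | ⟨i, hi⟩
    · rw [if_pos hB]
      have := Finset.sum_nonneg n2
      linarith
    · have h1 := Finset.single_le_sum n2 (Finset.mem_univ i)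
      rw [if_pos hi] at h1
      linarith
  · rw [if_neg hA]
    have := Finset.sum_nonneg n2
    linarith

/-- Off the bad events the velocities are in general position. -/
theorem goodM {A B : ℕ} (_hd : d.OK A B) {G g : ℕ} {δ : ℝ} (hG : g + m + 1 ≤ G)
    {w : Fin (m + 1) → d.Om} (h0 : w 0 ∉ d.flat g δ) (h : ∀ i, w ∉ evM d G g δ i) :
    w ∈ good d G g := by
  have key : ∀ i : Fin m, (1 : ℝ) / 2 ^ (g + 1) ≤
      |∑ k, al i (fun j k => crn G (cel d G w) j.succ k - crn G (cel d G w) 0 k) k *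
        (crn G (cel d G w) i.succ k - crn G (cel d G w) 0 k)| := by
    intro i
    have h1 : 1 / 2 ^ g < |∑ k, nrm d G i w k * (d.o (w i.succ) k - d.o (w 0) k)| := by
      by_contra hcon
      exact h i ⟨h0, not_lt.mp hcon⟩
    have h2 : |∑ k, nrm d G i w k * (d.o (w i.succ) k - d.o (w 0) k) -
        ∑ k, nrm d G i w k * (crn G (cel d G w) i.succ k - crn G (cel d G w) 0 k)| ≤
        m * (1 / 2 ^ G) := by
      rw [← Finset.sum_sub_distrib]
      refine (Finset.abs_sum_le_sum_abs _ _).trans ?_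
      refine (Finset.sum_le_card_nsmul univ _ (1 / 2 ^ G) fun k _ => ?_).trans (le_of_eq ?_)
      · rw [← mul_sub, abs_mul]
        have n1 := crn_near G w i.succ k
        have n2 := crn_near G w 0 k
        have n3 : |d.o (w i.succ) k - d.o (w 0) k -
            (crn G (cel d G w) i.succ k - crn G (cel d G w) 0 k)| ≤ 1 / 2 ^ G := by
          rw [abs_le]
          constructor <;> linarith [n1.1, n1.2, n2.1, n2.2]
        calc |nrm d G i w k| * _ ≤ 1 * (1 / 2 ^ G) :=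
              mul_le_mul (al_abs i _ k) n3 (abs_nonneg _) zero_le_one
          _ = 1 / 2 ^ G := one_mul _
      · rw [card_univ, Fintype.card_fin, nsmul_eq_mul]
    have h3 : (m : ℝ) * (1 / 2 ^ G) ≤ 1 / 2 ^ (g + 1) := by
      have e1 : (m : ℝ) ≤ 2 ^ m := by
        exact_mod_cast (Nat.lt_two_pow_self (n := m)).le
      have e2 : (2 : ℝ) ^ m * 2 ^ (g + 1) ≤ 2 ^ G := by
        rw [← pow_add]
        exact pow_le_pow_right₀ (by norm_num) (by omega)
      rw [mul_one_div, div_le_div_iff₀ (by positivity) (by positivity), one_mul]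
      exact (mul_le_mul_of_nonneg_right e1 (by positivity)).trans e2
    have h4 : (1 : ℝ) / 2 ^ g = 1 / 2 ^ (g + 1) + 1 / 2 ^ (g + 1) := by
      rw [pow_succ]
      field_simp
      norm_num
    have h5 := abs_sub_abs_le_abs_sub
      (∑ k, nrm d G i w k * (d.o (w i.succ) k - d.o (w 0) k))
      (∑ k, nrm d G i w k * (crn G (cel d G w) i.succ k - crn G (cel d G w) 0 k))
    show 1 / 2 ^ (g + 1) ≤
      |∑ k, nrm d G i w k * (crn G (cel d G w) i.succ k - crn G (cel d G w) 0 k)|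
    linarith
  have h6 := det_low (c := crn G (cel d G w)) (t := 1 / 2 ^ (g + 1)) (by positivity) key
  show 1 / 2 ^ ((g + 1) * m) ≤ m.factorial * |(mtx (crn G (cel d G w))).det|
  refine le_trans (le_of_eq ?_) h6
  rw [div_pow, one_pow, ← pow_mul]

theorem badM_le {A B : ℕ} (hd : d.OK A B) {G g : ℕ} {δ : ℝ} (hG : g + m + 1 ≤ G) (hδ : 0 ≤ δ)
    (hfl : Pr d.P (d.flat g δ) ≤ δ) : Pr (iid d.P d.W m) (good d G g)ᶜ ≤ (m + 1) * δ := by
  classical
  have hp := hd.law.nonneg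
  have h1 := Pr_union (p := iid d.P d.W m) (iid_nonneg hp) (A := (good d G g)ᶜ)
    (B := {w | w 0 ∈ d.flat g δ}) (E := evM d G g δ) (by
      intro w _ h
      by_contra hcon
      have hcon' := not_or.mp hcon
      exact h (goodM hd hG hcon'.1 (fun i hi => hcon'.2 ⟨i, hi⟩)))
  rw [Pr_first hp] at h1
  have h2 : ∑ i : Fin m, Pr (iid d.P d.W m) (evM d G g δ i) ≤ m * δ := by
    refine (Finset.sum_le_card_nsmul univ _ δ fun i _ => evM_le hd hδ i).trans (le_of_eq ?_)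
    rw [card_univ, Fintype.card_fin, nsmul_eq_mul]
  linarith

end ext

end Pool.KSM
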