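import Pool.Agent.H60.KSM.Tot

/-!
# The one-direction theorem: proof
-/

set_option autoImplicit false

namespace Pool.KSM

open Finset Real
open Pool.Agent.H49.Ent Pool.Agent.H32.Dense Pool.STK Pool.KAF Pool.OC Pool.OC.RS Pool.KAL Pool.KX
open Pool.KS2 (rr tl EE ii ii_nonneg rr_up tsum tl_down budget dsum)

/-- The data with the positions set to zero off the good set. -/
noncomputable def OD.zero {m : ℕ} (d : OD m) : OD m :=
  { d with N := fun ω => open Classical in if ω ∈ d.G then d.N ω else 0 }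

theorem OD.OK.zero {m s : ℕ} {d : OD m} (h : d.OK s) : d.zero.OK s := by
  classical
  have e : ∀ ω ∈ d.G, d.zero.N ω = d.N ω := fun ω hω => if_pos hω
  refine ⟨h.law, h.hab, h.hth, ?_, ?_⟩
  · intro ω ω' a1 a2 a3 a4 a5 a6 j
    rw [e ω a3, e ω' a4]
    exact h.h0 ω ω' a1 a2 a3 a4 a5 a6 j
  · intro ω ω' a1 a2 a3 a4 a5 a6 j
    rw [e ω a3, e ω' a4]
    exact h.hv ω ω' a1 a2 a3 a4 a5 a6 j

theorem rowSum_zero {m : ℕ} (d : OD m) (hP : IsLaw d.P) {K : ℕ} (hK : 1 ≤ K) (hX : K ≤ d.X) :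
    rowSum d.P d.X d.zero.N d.k K (fun ω => (d.T ω, d.a ω)) ≤
      rowSum d.P d.X d.N d.k K (fun ω => (d.T ω, d.a ω)) + 2 ^ d.X * (d.X * Real.log 3) := by
  classical
  have e : ∀ ω ∈ d.G, d.zero.N ω = d.N ω := fun ω hω => if_pos hω
  have e0 : ∀ ω, ω ∉ d.G → d.zero.N ω = 0 := fun ω hω => if_neg hω
  unfold rowSum
  have h1 : ∀ u ∈ range (2 ^ d.X), ∑ ℓ ∈ range (d.X + 1 - K),
      CH d.P (fun ω => rw d.X d.zero.N u (ℓ + K) ω d.k)
        (ctx d.X d.zero.N d.k K (fun ω => (d.T ω, d.a ω)) u ℓ) ≤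
      ∑ ℓ ∈ range (d.X + 1 - K), CH d.P (fun ω => rw d.X d.N u (ℓ + K) ω d.k)
        (ctx d.X d.N d.k K (fun ω => (d.T ω, d.a ω)) u ℓ) + d.X * Real.log 3 := by
    intro u _
    refine (Finset.sum_le_sum fun ℓ _ => zero_off hP d.X d.N d.zero.N d.G d.k K
      (fun ω => (d.T ω, d.a ω)) u ℓ e e0).trans ?_
    rw [Finset.sum_add_distrib, Finset.sum_const, card_range, nsmul_eq_mul]
    have h2 : (((d.X + 1 - K : ℕ)) : ℝ) ≤ d.X := by
      have : d.X + 1 - K ≤ d.X := by omega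
      exact_mod_cast this
    have h3 : (((d.X + 1 - K : ℕ)) : ℝ) * Real.log 3 ≤ d.X * Real.log 3 :=
      mul_le_mul_of_nonneg_right h2 (by positivity)
    linarith
  refine (Finset.sum_le_sum h1).trans (le_of_eq ?_)
  rw [Finset.sum_add_distrib, Finset.sum_const, card_range, nsmul_eq_mul]
  push_cast
  ring

/-- **The one-direction theorem.** -/
theorem odt_thm : ODTStmt := by
  intro m k' c ε hc hε
  obtain ⟨C₀, hC₀d⟩ : ∃ C₀ : ℝ, C₀ = 5 + (2 + m) * Real.log 3 := ⟨_, rfl⟩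
  have hful : FulAt m C₀ := by
    rw [hC₀d]
    exact ful_thm m
  have hl2 : 0 < Real.log 2 := Real.log_pos (by norm_num)
  have hl3 : 0 < Real.log 3 := Real.log_pos (by norm_num)
  have hC₀ : 0 ≤ C₀ := by rw [hC₀d]; positivity
  obtain ⟨R, hR⟩ : ∃ R : ℝ, R = (m + 1) * Real.log 3 := ⟨_, rfl⟩
  have hR0 : 0 ≤ R := by rw [hR]; positivity
  have hm0 : (0 : ℝ) ≤ m := Nat.cast_nonneg m
  -- the length of a block
  obtain ⟨K, hK1, hKk, hKC, hKC2, hK3, hK4⟩ : ∃ K : ℕ, 1 ≤ K ∧ k' ≤ 6 * K ∧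
      C₀ ≤ K * Real.log 2 ∧ C₀ ≤ ε / 16 * Real.log 2 * K ∧
      R + Real.log 3 ≤ ε / 8 * Real.log 2 * K ∧
      2 * (24 * m / 2 ^ (6 * K)) * (9 * 4 ^ (K + k')) / c ≤ ε / 8 := by
    obtain ⟨n1, hn1⟩ := exists_nat_gt (C₀ / Real.log 2)
    obtain ⟨n2, hn2⟩ := exists_nat_gt (C₀ / (ε / 16 * Real.log 2))
    obtain ⟨n3, hn3⟩ := exists_nat_gt ((R + Real.log 3) / (ε / 8 * Real.log 2))
    obtain ⟨n4, hn4⟩ := exists_nat_gt (432 * m * 4 ^ k' * 8 / (c * ε))
    refine ⟨1 + k' + n1 + n2 + n3 + n4, by omega, by omega, ?_, ?_, ?_, ?_⟩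
    · rw [div_lt_iff₀ hl2] at hn1
      push_cast
      have : 0 ≤ Real.log 2 * (1 + k' + n2 + n3 + n4) := by positivity
      linarith
    · rw [div_lt_iff₀ (by positivity)] at hn2
      push_cast
      have : 0 ≤ ε / 16 * Real.log 2 * (1 + k' + n1 + n3 + n4) := by positivity
      linarith
    · rw [div_lt_iff₀ (by positivity)] at hn3
      push_cast
      have : 0 ≤ ε / 8 * Real.log 2 * (1 + k' + n1 + n2 + n4) := by positivity
      linarith
    · obtain ⟨K, hK⟩ : ∃ K : ℕ, K = 1 + k' + n1 + n2 + n3 + n4 := ⟨_, rfl⟩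
      rw [← hK]
      have e1 : (2 : ℝ) * (24 * m / 2 ^ (6 * K)) * (9 * 4 ^ (K + k')) / c =
          432 * m * 4 ^ k' / (c * 16 ^ K) := by
        have x1 : (2 : ℝ) ^ (6 * K) = 16 ^ K * 4 ^ K := by
          rw [show (16 : ℝ) = 2 ^ 4 by norm_num, show (4 : ℝ) = 2 ^ 2 by norm_num, ← pow_mul,
            ← pow_mul, ← pow_add]
          congr 1
          ring
        rw [x1, pow_add]
        field_simp
        ring
      rw [e1, div_le_iff₀ (by positivity)]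
      rw [div_lt_iff₀ (by positivity)] at hn4
      have e2 : (n4 : ℝ) ≤ 16 ^ K := by
        have x1 : n4 < 16 ^ n4 := Nat.lt_pow_self (by norm_num)
        have x2 : 16 ^ n4 ≤ 16 ^ K := Nat.pow_le_pow_right (by norm_num) (by omega)
        exact_mod_cast (x1.le.trans x2)
      have e3 : (n4 : ℝ) * (c * ε) ≤ 16 ^ K * (c * ε) := by gcongr
      nlinarith
  obtain ⟨M, hM⟩ : ∃ M : ℝ, M = 9 * 4 ^ (K + k') := ⟨_, rfl⟩
  have hM0 : 0 < M := by rw [hM]; positivity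
  rw [← hM] at hK4
  -- the threshold
  obtain ⟨a₀, ha⟩ : ∃ a₀ : ℝ, a₀ = ε * c / (8 * (4 * M + 2)) := ⟨_, rfl⟩
  have ha₀ : 0 < a₀ := by rw [ha]; positivity
  have hKr : (0 : ℝ) < K := by exact_mod_cast hK1
  obtain ⟨δ, hδ⟩ : ∃ δ : ℝ, δ = min (ε * c * a₀ / (16 * (56 * M + 21) * K))
    (min (ε * c / (192 * M)) (ε / 16 * Real.log 2)) := ⟨_, rfl⟩
  have hδ0 : 0 < δ := by
    rw [hδ]
    exact lt_min (by positivity) (lt_min (by positivity) (by positivity))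
  have hδ1 : δ ≤ ε * c * a₀ / (16 * (56 * M + 21) * K) := by rw [hδ]; exact min_le_left _ _
  have hδ2 : δ ≤ ε * c / (192 * M) := by
    rw [hδ]; exact (min_le_right _ _).trans (min_le_left _ _)
  have hδ3 : δ ≤ ε / 16 * Real.log 2 := by
    rw [hδ]; exact (min_le_right _ _).trans (min_le_right _ _)
  obtain ⟨X₁, hX₁⟩ := exists_nat_gt ((15 * K * Real.log 2 + R) / (ε / 8 * Real.log 2))
  refine ⟨δ, 6 * K, X₁ + 15 * K, K, hδ0, hK1, ?_⟩
  intro d h hX hG hT hT' hTb D hD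
  have hz : ∀ ω, ω ∉ d.zero.G → d.zero.N ω = 0 := fun ω hω => if_neg hω
  have tot := OD.OK.total hful h.zero hz hK1 (le_refl (6 * K)) hKk hKC ha₀ hc
    (show 15 * K ≤ d.zero.X by
      show 15 * K ≤ d.X
      omega) hT hT' hTb D hD
  have tr := rowSum_zero d h.law hK1 (show K ≤ d.X by omega)
  have tot' : 2 ^ d.X * ((d.X - 15 * K - ∑ i ∈ range d.X, Pr d.P (D i) -
      d.X * ((2 * (2 * (a₀ + 14 * K * δ / a₀) + 24 * m / 2 ^ (6 * K) + 6 * Pr d.P d.Gᶜ) *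
        (9 * 4 ^ (K + k')) + (a₀ + 14 * K * δ / a₀) + (a₀ + 7 * K * δ / a₀)) / c)) *
        (K * Real.log 2 - C₀) - (K * (δ * d.X) + (d.X + K) * ((m + 1) * Real.log 3))) ≤
      rowSum d.P d.X d.zero.N d.k K (fun ω => (d.T ω, d.a ω)) := tot
  rw [← hM, ← hR] at tot'
  obtain ⟨g, hg⟩ : ∃ g, g = Pr d.P d.Gᶜ := ⟨_, rfl⟩
  rw [← hg] at tot' hG
  obtain ⟨SD, hSD⟩ : ∃ SD, SD = ∑ i ∈ range d.X, Pr d.P (D i) := ⟨_, rfl⟩
  rw [← hSD] at tot' ⊢
  have hp0 := h.law.nonneg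
  have g0 : 0 ≤ g := by rw [hg]; exact law_nonneg hp0 _ _
  have s0 : 0 ≤ SD := by
    rw [hSD]
    exact Finset.sum_nonneg fun _ _ => law_nonneg hp0 _ _
  have hXr : (X₁ : ℝ) ≤ d.X := by
    have : X₁ ≤ d.X := by omega
    exact_mod_cast this
  have hX0 : (0 : ℝ) ≤ d.X := Nat.cast_nonneg _
  -- the error
  obtain ⟨Er, hEr⟩ : ∃ Er : ℝ, Er = (2 * (2 * (a₀ + 14 * K * δ / a₀) + 24 * m / 2 ^ (6 * K) +
    6 * g) * M + (a₀ + 14 * K * δ / a₀) + (a₀ + 7 * K * δ / a₀)) / c := ⟨_, rfl⟩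
  rw [← hEr] at tot'
  have hE1 : Er ≤ 3 * (ε / 8) := by
    have e1 : Er = 2 * (24 * m / 2 ^ (6 * K)) * M / c + (4 * M + 2) * a₀ / c +
        (56 * M + 21) * K * δ / (a₀ * c) + 12 * M * g / c := by
      rw [hEr]
      field_simp
      ring
    have e2 : (4 * M + 2) * a₀ / c = ε / 8 := by
      rw [ha]
      field_simp
    have e3 : (56 * M + 21) * K * δ / (a₀ * c) ≤ ε / 16 := by
      have x1 : (56 * M + 21) * K * δ / (a₀ * c) ≤ (56 * M + 21) * K *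
          (ε * c * a₀ / (16 * (56 * M + 21) * K)) / (a₀ * c) := by gcongr
      have x2 : (56 * M + 21) * K * (ε * c * a₀ / (16 * (56 * M + 21) * K)) / (a₀ * c) =
          ε / 16 := by
        field_simp
      linarith
    have e4 : 12 * M * g / c ≤ ε / 16 := by
      have x1 : 12 * M * g / c ≤ 12 * M * (ε * c / (192 * M)) / c := by
        gcongr
        exact hG.trans hδ2
      have x2 : 12 * M * (ε * c / (192 * M)) / c = ε / 16 := by
        field_simp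
        ring
      linarith
    linarith
  have hE0 : 0 ≤ Er := by rw [hEr]; positivity
  -- the final count
  have hX₁' : 15 * K * Real.log 2 + R ≤ ε / 8 * Real.log 2 * d.X := by
    rw [div_lt_iff₀ (by positivity)] at hX₁
    have : (X₁ : ℝ) * (ε / 8 * Real.log 2) ≤ d.X * (ε / 8 * Real.log 2) := by gcongr
    linarith
  have key : K * ((1 - ε) * d.X * Real.log 2 - Real.log 2 * SD) ≤
      (d.X - 15 * K - SD - d.X * Er) * (K * Real.log 2 - C₀) -
        (K * (δ * d.X) + (d.X + K) * R) - d.X * Real.log 3 := by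
    have x1 : d.X - 15 * K - SD - d.X * Er ≤ d.X := by
      have y2 : 0 ≤ d.X * Er := by positivity
      have : (0 : ℝ) ≤ 15 * K := by positivity
      linarith
    have x2 : C₀ * (d.X - 15 * K - SD - d.X * Er) ≤ C₀ * d.X := by gcongr
    have x3 : C₀ * d.X ≤ ε / 16 * Real.log 2 * K * d.X := by gcongr
    have x4 : (R + Real.log 3) * d.X ≤ ε / 8 * Real.log 2 * K * d.X := by gcongr
    have x5 : K * (δ * d.X) ≤ K * (ε / 16 * Real.log 2 * d.X) := by gcongr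
    have x6 : K * (15 * K * Real.log 2 + R) ≤ K * (ε / 8 * Real.log 2 * d.X) := by gcongr
    have x7 : K * Real.log 2 * (d.X * Er) ≤ K * Real.log 2 * (d.X * (3 * (ε / 8))) := by gcongr
    have x8 : 0 ≤ ε * (K * Real.log 2 * d.X) := by positivity
    linarith
  have h2X : (0 : ℝ) < 2 ^ d.X := by positivity
  have key' := mul_le_mul_of_nonneg_left key h2X.le
  have e9 : (2 : ℝ) ^ d.X * ((d.X - 15 * K - SD - d.X * Er) * (K * Real.log 2 - C₀) -
        (K * (δ * d.X) + (d.X + K) * R) - d.X * Real.log 3) =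
      2 ^ d.X * ((d.X - 15 * K - SD - d.X * Er) * (K * Real.log 2 - C₀) -
        (K * (δ * d.X) + (d.X + K) * R)) - 2 ^ d.X * (d.X * Real.log 3) := by ring
  rw [e9] at key'
  linarith

end Pool.KSM
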