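import Pool.Agent.H60.KSM.Ext
import Pool.Agent.H60.KSM.OdtThm
import Pool.Agent.H60.KSM.SumThm

/-!
# K_SATm
-/

set_option autoImplicit false

namespace Pool.KSM

open Finset Real
open Pool.Agent.H49.Ent Pool.Agent.H32.Dense Pool.STK Pool.KAF Pool.OC Pool.OC.RS

section fin

variable {m : ℕ} {d : KD m}

/-- The entropy of the cells. -/
theorem cel_card {A B : ℕ} (hd : d.OK A B) (G : ℕ) {Y : Type} (y : (Fin (m + 1) → d.Om) → Y) :
    CH (iid d.P d.W m) (cel d G) y ≤ (m * (m + 1) * (G + B + 2) : ℕ) * Real.log 2 := by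
  classical
  have hp := hd.law.nonneg
  have hQ : IsLaw (iid d.P d.W m) := iid_law hd.law
  refine (ch_le_H hQ _ _).trans ?_
  obtain ⟨I, hI⟩ : ∃ I : Finset ℤ, I = Finset.Icc (-(2 ^ (G + B) : ℤ)) (2 ^ (G + B)) := ⟨_, rfl⟩
  have hIc : I.card ≤ 2 ^ (G + B + 2) := by
    rw [hI, Int.card_Icc]
    have h1 : (2 ^ (G + B) + 1 - -(2 ^ (G + B)) : ℤ).toNat = 2 ^ (G + B + 1) + 1 := by
      have h2 : (2 ^ (G + B) + 1 - -(2 ^ (G + B)) : ℤ) = ((2 ^ (G + B + 1) + 1 : ℕ) : ℤ) := by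
        push_cast
        rw [pow_succ]
        ring
      rw [h2, Int.toNat_natCast]
    rw [h1, pow_succ 2 (G + B + 1)]
    have : 1 ≤ 2 ^ (G + B + 1) := Nat.one_le_two_pow
    omega
  have h3 := H_le_log_card hQ.nonneg hQ.sum_one (cel d G)
    (Fintype.piFinset fun _ : Fin (m + 1) => Fintype.piFinset fun _ : Fin m => I) (by
      intro w hw
      rw [Fintype.mem_piFinset]
      intro j
      rw [Fintype.mem_piFinset]
      intro k
      have h4 := abs_le.mp (hd.hB _ (iid_pos hp hw j).1 k)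
      have h2G : (0 : ℝ) < 2 ^ G := by positivity
      rw [hI, Finset.mem_Icc]
      show -(2 ^ (G + B) : ℤ) ≤ ⌊(2 : ℝ) ^ G * d.o (w j) k⌋ ∧
        ⌊(2 : ℝ) ^ G * d.o (w j) k⌋ ≤ 2 ^ (G + B)
      have e1 : (2 : ℝ) ^ (G + B) = 2 ^ G * 2 ^ B := pow_add _ _ _
      constructor
      · rw [Int.le_floor]
        push_cast
        rw [e1, ← mul_neg]
        exact mul_le_mul_of_nonneg_left h4.1 h2G.le
      · have h5 : (2 : ℝ) ^ G * d.o (w j) k ≤ ((2 ^ (G + B) : ℤ) : ℝ) := by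
          push_cast
          rw [e1]
          exact mul_le_mul_of_nonneg_left h4.2 h2G.le
        exact Int.floor_le_iff.mpr (by linarith only [h5]))
  refine h3.trans ?_
  rw [Fintype.card_piFinset_const, Fintype.card_piFinset_const]
  have h6 : (((I.card ^ m) ^ (m + 1) : ℕ) : ℝ) ≤ 2 ^ (m * (m + 1) * (G + B + 2)) := by
    have h7 : (I.card ^ m) ^ (m + 1) ≤ ((2 ^ (G + B + 2)) ^ m) ^ (m + 1) :=
      Nat.pow_le_pow_left (Nat.pow_le_pow_left hIc m) (m + 1)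
    have h8 : ((2 ^ (G + B + 2)) ^ m) ^ (m + 1) = 2 ^ (m * (m + 1) * (G + B + 2)) := by
      rw [← pow_mul, ← pow_mul]
      congr 1
      ring
    rw [h8] at h7
    exact_mod_cast h7
  have hIpos : 0 < I.card := by
    rw [Finset.card_pos, hI]
    exact ⟨0, Finset.mem_Icc.mpr ⟨by simp, by positivity⟩⟩
  have h9 : (0 : ℝ) < (((I.card ^ m) ^ (m + 1) : ℕ) : ℝ) := by
    exact_mod_cast pow_pos (pow_pos hIpos m) (m + 1)
  have h10 := Real.log_le_log h9 h6
  rw [Real.log_pow] at h10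
  exact h10

theorem extM_ok {A B s g : ℕ} (hd : d.OK A B) (hX : A + Lb m B g ≤ d.X) (k : Fin m) :
    (extM d (Lb m B g + s + m + 1) (A + Lb m B g) g k).OK s := by
  classical
  have hp := hd.law.nonneg
  refine ⟨iid_law hd.law, fun ω ω' _ _ h => (Prod.ext_iff.mp h).2, ?_, ?_, ?_⟩
  · intro ω ω' h1 h2 h
    exact hd.hth _ _ (iid_pos hp h1 0).1 (iid_pos hp h2 0).1 h
  · intro ω ω' h1 h2 h3 _ h4 h5 j
    have h6 := posM_move hd hX h1 h2 h3 (Prod.ext_iff.mp h5).1 (Prod.ext_iff.mp h5).2 0 h4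
      (fun _ => 0) (fun k => co_base _ k) j
    rw [mul_zero, mul_zero, sub_zero] at h6
    exact h6
  · intro ω ω' h1 h2 h3 _ h4 h5 j
    exact posM_move hd hX h1 h2 h3 (Prod.ext_iff.mp h5).1 (Prod.ext_iff.mp h5).2 k.succ h4
      (Pi.single k 1 : Fin m → ℝ) (fun j => co_vel _ (det_ne (by positivity) h3) k j) j

theorem extM_CH {A B : ℕ} (hd : d.OK A B) (G A' : ℕ) :
    CH (iid d.P d.W m) (posM d G A') (fun w => (d.T (w 0), (cel d G w, d.b (w 0)))) ≤
      CH d.P d.N (fun ω => (d.T ω, d.b ω)) := by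
  have hp := hd.law.nonneg
  have hQ0 : ∀ w, 0 ≤ iid d.P d.W m w := iid_nonneg hp
  have h1 : Det (iid d.P d.W m) (fun w => (d.N (w 0), (d.T (w 0), (cel d G w, d.b (w 0)))))
      (posM d G A') := by
    intro w w' hw hw' h
    simp only [Prod.mk.injEq] at h
    obtain ⟨n0, t0, c0, b0⟩ := h
    have hth := hd.hth _ _ (iid_pos hp hw 0).1 (iid_pos hp hw' 0).1 (Prod.ext t0 b0)
    have hm : mvp d G w = mvp d G w' := by
      funext k
      unfold mvp
      rw [c0, hth, n0]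
    funext k
    unfold posM
    rw [c0, hm]
  refine (CH_mono_left hQ0 h1).trans ?_
  refine (CH_mono_cond hQ0 (W := fun w => (d.T (w 0), d.b (w 0))) fun w w' _ _ h => ?_).trans ?_
  · simp only [Prod.mk.injEq] at h ⊢
    exact ⟨h.1, h.2.2⟩
  · exact ((iid_zero hp).CH d.N (fun ω => (d.T ω, d.b ω))).le

theorem extM_mi {A B : ℕ} (hd : d.OK A B) (G : ℕ) (j : Fin (m + 1)) :
    mi (iid d.P d.W m) (fun w => d.L (w j)) (fun w => d.T (w 0))
      (fun w => (cel d G w, d.b (w 0))) ≤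
      mi d.P d.T d.L d.b + (m * (m + 1) * (G + B + 2) : ℕ) * Real.log 2 := by
  have hp := hd.law.nonneg
  have hQ0 : ∀ w, 0 ≤ iid d.P d.W m w := iid_nonneg hp
  refine (mi_ctx hQ0 _ _ _ _).trans (add_le_add (le_of_eq ?_) (cel_card hd G _))
  have h1 := marg_mi (iid_marg (n := m) (W := d.W) hp j) d.L d.T d.b
  have h2 : mi d.P d.L d.T d.b = mi d.P d.T d.L d.b := RS.mi_comm hp _ _ _
  rw [← h2]
  refine Eq.trans ?_ h1
  have e1 : ∀ w, 0 < iid d.P d.W m w → d.T (w 0) = d.T (w j) ∧ d.b (w 0) = d.b (w j) :=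
    fun w hw => ⟨(samN hd hw j).1.symm, (samN hd hw j).2.1.symm⟩
  show CH _ _ _ + CH _ _ _ - CH _ _ _ = CH _ _ _ + CH _ _ _ - CH _ _ _
  have k1 : CH (iid d.P d.W m) (fun w => d.L (w j)) (fun w => d.b (w 0)) =
      CH (iid d.P d.W m) (fun w => d.L (w j)) (fun w => d.b (w j)) :=
    CH_congr hQ0 (fun _ _ _ _ h => (Prod.ext_iff.mp h).1) (fun _ _ _ _ h => (Prod.ext_iff.mp h).1)
      (fun w w' a a' h => by rw [← (e1 w a).2, ← (e1 w' a').2]; exact h)
      (fun w w' a a' h => by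
        show d.b (w 0) = d.b (w' 0)
        rw [(e1 w a).2, (e1 w' a').2]; exact h)
  have k2 : CH (iid d.P d.W m) (fun w => d.T (w 0)) (fun w => d.b (w 0)) =
      CH (iid d.P d.W m) (fun w => d.T (w j)) (fun w => d.b (w j)) :=
    CH_congr hQ0 (fun w w' a a' h => by
        show d.T (w j) = d.T (w' j)
        rw [← (e1 w a).1, ← (e1 w' a').1]; exact (Prod.ext_iff.mp h).1)
      (fun w w' a a' h => by
        show d.T (w 0) = d.T (w' 0)
        rw [(e1 w a).1, (e1 w' a').1]; exact (Prod.ext_iff.mp h).1)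
      (fun w w' a a' h => by rw [← (e1 w a).2, ← (e1 w' a').2]; exact h)
      (fun w w' a a' h => by
        show d.b (w 0) = d.b (w' 0)
        rw [(e1 w a).2, (e1 w' a').2]; exact h)
  have k3 : CH (iid d.P d.W m) (fun w => (d.L (w j), d.T (w 0))) (fun w => d.b (w 0)) =
      CH (iid d.P d.W m) (fun w => (d.L (w j), d.T (w j))) (fun w => d.b (w j)) :=
    CH_congr hQ0 (fun w w' a a' h => by
        have h' := Prod.ext_iff.mp (Prod.ext_iff.mp h).1
        refine Prod.ext h'.1 ?_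
        show d.T (w j) = d.T (w' j)
        rw [← (e1 w a).1, ← (e1 w' a').1]; exact h'.2)
      (fun w w' a a' h => by
        have h' := Prod.ext_iff.mp (Prod.ext_iff.mp h).1
        refine Prod.ext h'.1 ?_
        show d.T (w 0) = d.T (w' 0)
        rw [(e1 w a).1, (e1 w' a').1]; exact h'.2)
      (fun w w' a a' h => by rw [← (e1 w a).2, ← (e1 w' a').2]; exact h)
      (fun w w' a a' h => by
        show d.b (w 0) = d.b (w' 0)
        rw [(e1 w a).2, (e1 w' a').2]; exact h)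
  rw [k1, k2, k3]

theorem extM_mi' {A B : ℕ} (hd : d.OK A B) (G : ℕ) :
    mi (iid d.P d.W m) (fun w => d.T (w 0)) (fun w => (cel d G w, d.b (w 0)))
      (fun w => (d.L (w 0), d.b (w 0))) ≤ (m * (m + 1) * (G + B + 2) : ℕ) * Real.log 2 := by
  have hQ : IsLaw (iid d.P d.W m) := iid_law hd.law
  rw [RS.mi_comm hQ.nonneg]
  refine (mi_le_ch hQ _ _ _).trans ?_
  refine (CH_mono_left hQ.nonneg (X' := cel d G) fun w w' _ _ h => ?_).trans (cel_card hd G _)
  have h' := Prod.ext_iff.mp h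
  exact Prod.ext h'.1 (Prod.ext_iff.mp h'.2).2

/-- The dead windows of the extension. -/
theorem extM_dead {A B : ℕ} (hd : d.OK A B) (G A' g k' i : ℕ) (k : Fin m)
    (w : Fin (m + 1) → d.Om) :
    (extM d G A' g k).dead k' i w = d.dead k' i (w 0) := by
  have hp := hd.law.nonneg
  exact Pr_cond_marg (Q := iid d.P d.W m) (P := d.P) (f := fun w => w 0) (iid_zero hp)
    (iid_nonneg hp) (fun w => (d.L (w 0), (d.b (w 0), d.Ti i (w 0))))
    (fun ω => (d.L ω, (d.b ω, d.Ti i ω))) (ω := w) (fun v _ => Iff.rfl)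
    {v | |d.th v - d.th (w 0)| < (2 : ℝ) ^ (-((i : ℤ) + k'))}

end fin

/-- **K_SATm.** -/
theorem ksatm : KSatMStmt := by
  intro m A B k' c ε hc hε
  have hm0 : (0 : ℝ) ≤ m := Nat.cast_nonneg m
  obtain ⟨δ₁, s, X₁, K, hδ₁, hK, hodt⟩ := odt_thm m k' c (ε / (2 * (m + 1))) hc (by positivity)
  -- the constants: `G + B + 2 = m g + C₂`, `A' = m g + C₃`
  obtain ⟨C₂, hC₂⟩ : ∃ C₂ : ℕ, C₂ = m + (B + 2) * m + 2 * (m * m) + s + m + 1 + B + 2 := ⟨_, rfl⟩
  obtain ⟨C₃, hC₃⟩ : ∃ C₃ : ℕ, C₃ = A + (m + (B + 2) * m + 2 * (m * m)) := ⟨_, rfl⟩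
  obtain ⟨Q, hQ⟩ : ∃ Q : ℕ, Q = m * (m + 1) := ⟨_, rfl⟩
  obtain ⟨δ, hδd⟩ : ∃ δ : ℝ, δ = min (1 / (4 * ((m : ℝ) + 1)))
    (min (δ₁ / (8 * ((Q : ℝ) * m + 1) + 8 * ((m : ℝ) + 1)))
      (ε / (4 * ((m : ℝ) + 1) * ((m : ℝ) + 1)))) := ⟨_, rfl⟩
  have hδ : 0 < δ := by
    rw [hδd]
    exact lt_min (by positivity) (lt_min (by positivity) (by positivity))
  have hδ4 : δ ≤ 1 / (4 * (m + 1)) := by rw [hδd]; exact min_le_left _ _
  have hδ1 : δ ≤ δ₁ / (8 * (Q * m + 1) + 8 * (m + 1)) := by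
    rw [hδd]; exact (min_le_right _ _).trans (min_le_left _ _)
  have hδ2 : δ ≤ ε / (4 * (m + 1) * (m + 1)) := by
    rw [hδd]; exact (min_le_right _ _).trans (min_le_right _ _)
  obtain ⟨X₂, hX₂⟩ := exists_nat_ge (8 * (Q * C₂ : ℝ) / δ₁)
  obtain ⟨X₃, hX₃⟩ := exists_nat_ge (4 * (m * C₃ : ℝ) / ε)
  refine ⟨δ, 2 * C₃ + 2 * X₁ + X₂ + X₃, hδ, fun d g hd hX hg hmi hfl D hD => ?_⟩
  have hl2 : 0 < Real.log 2 := Real.log_pos (by norm_num)
  have hl21 : Real.log 2 ≤ 1 := by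
    have := Real.log_two_lt_d9
    linarith only [hl2, this]
  have hX0 : (0 : ℝ) ≤ d.X := Nat.cast_nonneg _
  have hg0 : (0 : ℝ) ≤ g := Nat.cast_nonneg _
  have hQ0 : (0 : ℝ) ≤ Q := Nat.cast_nonneg _
  have hXR : 2 * (C₃ : ℝ) + 2 * X₁ + X₂ + X₃ ≤ d.X := by exact_mod_cast hX
  have h1R : (0 : ℝ) ≤ X₁ := Nat.cast_nonneg _
  have h2R : (0 : ℝ) ≤ X₂ := Nat.cast_nonneg _
  have h3R : (0 : ℝ) ≤ X₃ := Nat.cast_nonneg _
  have hC3R : (0 : ℝ) ≤ C₃ := Nat.cast_nonneg _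
  have hC2R : (0 : ℝ) ≤ C₂ := Nat.cast_nonneg _
  have hp := hd.law.nonneg
  -- the loss of digits
  have hA' : A + Lb m B g = m * g + C₃ := by
    rw [hC₃]
    unfold Lb
    ring
  have hG : Lb m B g + s + m + 1 + B + 2 = m * g + C₂ := by
    rw [hC₂]
    unfold Lb
    ring
  have hmgX : (m : ℝ) * g ≤ 1 / 4 * d.X := by
    have e1 : (m : ℝ) * g ≤ m * (δ * d.X) := mul_le_mul_of_nonneg_left hg hm0
    have e2 : (m : ℝ) * (δ * d.X) ≤ m * (1 / (4 * (m + 1)) * d.X) := by gcongr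
    have e3 : (m : ℝ) * (1 / (4 * (m + 1)) * d.X) ≤ 1 / 4 * d.X := by
      have e4 : (m : ℝ) * (1 / (4 * (m + 1)) * d.X) = m / (m + 1) * (1 / 4 * d.X) := by
        field_simp
      rw [e4]
      have e5 : (m : ℝ) / (m + 1) ≤ 1 := by
        rw [div_le_one (by positivity)]
        linarith only
      calc (m : ℝ) / (m + 1) * (1 / 4 * d.X) ≤ 1 * (1 / 4 * d.X) :=
            mul_le_mul_of_nonneg_right e5 (by positivity)
        _ = 1 / 4 * d.X := one_mul _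
    linarith only [e1, e2, e3]
  have hAX : A + Lb m B g ≤ d.X := by
    rw [hA']
    have : (m : ℝ) * g + C₃ ≤ d.X := by linarith only [hXR, hmgX]
    exact_mod_cast this
  have hXe : ((d.X - (A + Lb m B g) : ℕ) : ℝ) = d.X - (m * g + C₃) := by
    rw [Nat.cast_sub hAX, hA']
    push_cast
    ring
  have hbig : (d.X : ℝ) ≤ 4 * ((d.X - (A + Lb m B g) : ℕ) : ℝ) := by
    rw [hXe]
    linarith only [hXR, hmgX]
  have hX₁ : X₁ ≤ d.X - (A + Lb m B g) := by
    have : (X₁ : ℝ) ≤ ((d.X - (A + Lb m B g) : ℕ) : ℝ) := by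
      rw [hXe]
      linarith only [hXR, hmgX]
    exact_mod_cast this
  -- the budget
  have hcost : ((m * (m + 1) * (Lb m B g + s + m + 1 + B + 2) : ℕ) : ℝ) * Real.log 2 ≤
      Q * m * (δ * d.X) + δ₁ / 8 * d.X := by
    rw [hG, ← hQ]
    push_cast
    have e1 : (Q : ℝ) * (m * g + C₂) * Real.log 2 ≤ Q * (m * g + C₂) * 1 := by gcongr
    have e2 : (Q : ℝ) * C₂ ≤ δ₁ / 8 * d.X := by
      rw [div_le_iff₀ hδ₁] at hX₂
      have : (X₂ : ℝ) * δ₁ ≤ d.X * δ₁ := mul_le_mul_of_nonneg_right (by linarith only [hXR]) hδ₁.le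
      linarith only [hX₂, this]
    have e3 : (Q : ℝ) * m * g ≤ Q * m * (δ * d.X) := by gcongr
    linarith only [e1, e2, e3]
  have hsmall : (8 * (Q * m + 1) + 8 * (m + 1)) * δ ≤ δ₁ := by
    rw [le_div_iff₀ (by positivity)] at hδ1
    linarith only [hδ1]
  have hbud : Q * m * (δ * d.X) + δ₁ / 8 * d.X + δ * d.X ≤
      δ₁ * ((d.X - (A + Lb m B g) : ℕ) : ℝ) := by
    have e1 : (8 * (Q * m + 1) * δ) * d.X ≤ δ₁ * d.X := by
      have : 8 * (Q * m + 1) * δ ≤ δ₁ := by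
        have : 0 ≤ 8 * ((m : ℝ) + 1) * δ := by positivity
        linarith only [hsmall, this]
      exact mul_le_mul_of_nonneg_right this hX0
    have e2 : δ₁ * (1 / 4 * d.X) ≤ δ₁ * ((d.X - (A + Lb m B g) : ℕ) : ℝ) :=
      mul_le_mul_of_nonneg_left (by linarith only [hXR, hmgX, hXe]) hδ₁.le
    linarith only [e1, e2]
  -- one direction
  have dir : ∀ k : Fin m, 2 ^ (d.X - (A + Lb m B g)) * (K * ((1 - ε / (2 * (m + 1))) *
      ((d.X - (A + Lb m B g) : ℕ) : ℝ) * Real.log 2 - Real.log 2 *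
      ∑ i ∈ Finset.range (d.X - (A + Lb m B g)), Pr d.P (D i))) ≤
      rowSum (iid d.P d.W m) (d.X - (A + Lb m B g)) (posM d (Lb m B g + s + m + 1)
        (A + Lb m B g)) k K
        (fun w => (d.T (w 0), (cel d (Lb m B g + s + m + 1) w, d.b (w 0)))) := by
    intro k
    have m1 := extM_mi hd (Lb m B g + s + m + 1) 0
    have m2 := extM_mi hd (Lb m B g + s + m + 1) k.succ
    have m3 := extM_mi' hd (Lb m B g + s + m + 1)
    have hδX : 0 ≤ δ * d.X := by positivity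
    have hb1 : mi d.P d.T d.L d.b + ((m * (m + 1) * (Lb m B g + s + m + 1 + B + 2) : ℕ) : ℝ) *
        Real.log 2 ≤ δ₁ * ((d.X - (A + Lb m B g) : ℕ) : ℝ) := by linarith only [hmi, hcost, hbud]
    have hb2 : ((m * (m + 1) * (Lb m B g + s + m + 1 + B + 2) : ℕ) : ℝ) *
        Real.log 2 ≤ δ₁ * ((d.X - (A + Lb m B g) : ℕ) : ℝ) := by linarith only [hδX, hcost, hbud]
    have key := hodt (extM d (Lb m B g + s + m + 1) (A + Lb m B g) g k) (extM_ok hd hAX k) hX₁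
      (by
        have h1 := badM_le hd (G := Lb m B g + s + m + 1) (by
          unfold Lb
          have h4 : 0 < m := Fin.pos k
          have h5 : g + 1 ≤ (g + 1) * m := Nat.le_mul_of_pos_right _ h4
          omega) hδ.le hfl
        refine h1.trans ?_
        have : 0 ≤ (8 * (Q * (m : ℝ) + 1)) * δ := by positivity
        have : 0 ≤ ((m : ℝ) + 1) * δ := by positivity
        linarith)
      (m1.trans hb1) (m2.trans hb1) (m3.trans hb2)
      (fun i => {w | w 0 ∈ D i}) (fun i w hw hn =>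
        (extM_dead hd _ _ g k' i k w).le.trans (hD i (w 0) (iid_pos hp hw 0).1 hn))
    have e1 : ∀ i, Pr (iid d.P d.W m) {w | w 0 ∈ D i} = Pr d.P (D i) := fun i =>
      Pr_first hp (D i)
    have key' : 2 ^ (d.X - (A + Lb m B g)) * (K * ((1 - ε / (2 * (m + 1))) *
      ((d.X - (A + Lb m B g) : ℕ) : ℝ) * Real.log 2 - Real.log 2 *
      ∑ i ∈ Finset.range (d.X - (A + Lb m B g)), Pr (iid d.P d.W m) {w | w 0 ∈ D i})) ≤
      rowSum (iid d.P d.W m) (d.X - (A + Lb m B g)) (posM d (Lb m B g + s + m + 1)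
        (A + Lb m B g)) k K
        (fun w => (d.T (w 0), (cel d (Lb m B g + s + m + 1) w, d.b (w 0)))) := key
    rw [Finset.sum_congr rfl fun i _ => e1 i] at key'
    exact key'
  have tot := sum_thm (Fin (m + 1) → d.Om) _ m (d.X - (A + Lb m B g)) K (iid d.P d.W m)
    (posM d (Lb m B g + s + m + 1) (A + Lb m B g)) _ (fun _ => (1 - ε / (2 * (m + 1))) *
      ((d.X - (A + Lb m B g) : ℕ) : ℝ) * Real.log 2 - Real.log 2 *
      ∑ i ∈ Finset.range (d.X - (A + Lb m B g)), Pr d.P (D i)) (iid_law hd.law) hK dir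
  have hfin := tot.trans (extM_CH hd (Lb m B g + s + m + 1) (A + Lb m B g))
  rw [Finset.sum_const, card_univ, Fintype.card_fin, nsmul_eq_mul] at hfin
  refine le_trans ?_ hfin
  have hsum : ∑ i ∈ Finset.range (d.X - (A + Lb m B g)), Pr d.P (D i) ≤
      ∑ i ∈ Finset.range d.X, Pr d.P (D i) := by
    refine Finset.sum_le_sum_of_subset_of_nonneg (fun i hi => ?_) fun i _ _ => law_nonneg hp _ _
    rw [Finset.mem_range] at hi ⊢
    omega
  obtain ⟨S', hS'⟩ : ∃ S', S' = ∑ i ∈ Finset.range (d.X - (A + Lb m B g)), Pr d.P (D i) := ⟨_, rfl⟩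
  obtain ⟨S, hS⟩ : ∃ S, S = ∑ i ∈ Finset.range d.X, Pr d.P (D i) := ⟨_, rfl⟩
  rw [← hS, ← hS'] at hsum
  rw [← hS, ← hS', hXe]
  -- the count
  have f1 : (m : ℝ) * (m * g + C₃) ≤ ε / 2 * d.X := by
    have e1 : (m : ℝ) * (m * g) ≤ (m + 1) * (m + 1) * (δ * d.X) := by
      have e2 : (m : ℝ) * (m * g) ≤ m * (m * (δ * d.X)) := by gcongr
      have e3 : (m : ℝ) * (m * (δ * d.X)) ≤ (m + 1) * ((m + 1) * (δ * d.X)) := by
        gcongr <;> linarith only
      linarith only [e2, e3]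
    have e2 : ((m : ℝ) + 1) * (m + 1) * (δ * d.X) ≤ ε / 4 * d.X := by
      have e3 : ((m : ℝ) + 1) * (m + 1) * (δ * d.X) ≤
          (m + 1) * (m + 1) * (ε / (4 * (m + 1) * (m + 1)) * d.X) := by gcongr
      refine e3.trans (le_of_eq ?_)
      field_simp
    have e3 : (m : ℝ) * C₃ ≤ ε / 4 * d.X := by
      rw [div_le_iff₀ hε] at hX₃
      have : (X₃ : ℝ) * ε ≤ d.X * ε := mul_le_mul_of_nonneg_right (by linarith only [hXR]) hε.le
      linarith only [hX₃, this]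
    linarith only [e1, e2, e3]
  have f2 : (m : ℝ) * (ε / (2 * (m + 1)) * (d.X - (m * g + C₃))) ≤ ε / 2 * d.X := by
    have e1 : (m : ℝ) * (ε / (2 * (m + 1)) * (d.X - (m * g + C₃))) ≤
        m * (ε / (2 * (m + 1)) * d.X) := by
      gcongr
      have : 0 ≤ (m : ℝ) * g + C₃ := by positivity
      linarith only [this]
    have e2 : (m : ℝ) * (ε / (2 * (m + 1)) * d.X) ≤ ε / 2 * d.X := by
      have e4 : (m : ℝ) * (ε / (2 * (m + 1)) * d.X) = m / (m + 1) * (ε / 2 * d.X) := by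
        field_simp
      rw [e4]
      have e5 : (m : ℝ) / (m + 1) ≤ 1 := by
        rw [div_le_one (by positivity)]
        linarith only
      calc (m : ℝ) / (m + 1) * (ε / 2 * d.X) ≤ 1 * (ε / 2 * d.X) :=
            mul_le_mul_of_nonneg_right e5 (by positivity)
        _ = ε / 2 * d.X := one_mul _
    linarith only [e1, e2]
  have f3 : (m - ε) * d.X ≤ m * ((1 - ε / (2 * (m + 1))) * (d.X - (m * g + C₃))) := by
    linarith only [f1, f2]
  have f4 := mul_le_mul_of_nonneg_right f3 hl2.le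
  have f5 : (m : ℝ) * (Real.log 2 * S') ≤ m * (Real.log 2 * S) := by gcongr
  linarith only [f4, f5]

end Pool.KSM
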