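import Pool.Agent.H60.KSM.Cross
import Pool.Agent.H60.KS2.Core

/-!
# The sum over the levels, one direction
-/

set_option autoImplicit false

namespace Pool.KSM

open Finset Real
open Pool.Agent.H49.Ent Pool.Agent.H32.Dense Pool.STK Pool.KAF Pool.OC Pool.OC.RS Pool.KAL Pool.KX
open Pool.KS2 (rr tl EE ii ii_nonneg div_diff tl_near rr_up CH_mean drop1 chain tsum tl_down budget dsum)
open Pool.KS2.CD (EE_nonneg)

/-! ### The full time in the condition -/

section gen

variable {Ω S T U Λ Γ : Type} [Fintype Ω]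

/-- The chain of the rows, with the first row. -/
theorem chain0 {p : Ω → ℝ} (hp : ∀ ω, 0 ≤ p ω) (Y : ℕ → Ω → S) (t : ℕ → Ω → T) (L : Ω → Λ)
    {R : ℝ} (n : ℕ) (hY : ∀ j < n, Det p (Y (j + 1)) (Y j))
    (hL : ∀ j < n, CH p (Y j) (fun ω => (L ω, t j ω)) ≤ R) :
    CH p (Y 0) (t 0) + ∑ j ∈ range n, CH p (Y (j + 1)) (fun ω => (Y j ω, t (j + 1) ω)) ≤
      CH p (Y n) (t n) + ∑ j ∈ range n, mi p (t (j + 1)) L (t j) + n * R := by
  induction n with
  | zero => simp
  | succ n ih =>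
    have ih' := ih (fun j hj => hY j (by omega)) (fun j hj => hL j (by omega))
    rw [sum_range_succ, sum_range_succ]
    have h1 := drop1 hp (Y n) (t n) (t (n + 1)) L (hL n (by omega))
    have h2 : CH p (Y n) (t (n + 1)) + CH p (Y (n + 1)) (fun ω => (Y n ω, t (n + 1) ω)) ≤
        CH p (Y (n + 1)) (t (n + 1)) := by
      rw [← CH_chain hp (Y (n + 1)) (Y n) (t (n + 1))]
      exact CH_mono_left hp (fun ω ω' a b h => Prod.ext (Prod.ext_iff.mp h).1
        (hY n (by omega) ω ω' a b (Prod.ext_iff.mp h).1))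
    push_cast
    linarith

/-- The chain rule for a tower. -/
theorem tower_CH {p : Ω → ℝ} (hp : ∀ ω, 0 ≤ p ω) (Y : ℕ → Ω → S) (A : Ω → U) (n : ℕ)
    (hY : ∀ j < n, Det p (Y (j + 1)) (Y j)) :
    CH p (Y n) A = CH p (Y 0) A + ∑ j ∈ range n, CH p (Y (j + 1)) (fun ω => (Y j ω, A ω)) := by
  induction n with
  | zero => simp
  | succ n ih =>
    have ih' := ih (fun j hj => hY j (by omega))
    rw [sum_range_succ, ← add_assoc, ← ih']
    rw [← CH_chain hp (Y (n + 1)) (Y n) A]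
    exact CH_congr hp
      (fun ω ω' a b h => Prod.ext (Prod.ext_iff.mp h).1
        (hY n (by omega) ω ω' a b (Prod.ext_iff.mp h).1))
      (fun ω ω' _ _ h => (Prod.ext_iff.mp (Prod.ext_iff.mp h).1).1)
      (fun _ _ _ _ h => h) (fun _ _ _ _ h => h)

/-- **The full time.** The loss in the rows of one coordinate. -/
theorem fullT {Ω₁ : Type} {p : Ω → ℝ} (hp : ∀ ω, 0 ≤ p ω) (Y : ℕ → Ω → S) (A : ℕ → Ω → Ω₁)
    (B : ℕ → Ω → Γ) (t : ℕ → Ω → T) (Tf : Ω → U) (L : Ω → Λ) {R : ℝ} (n : ℕ)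
    (hY : ∀ j < n, Det p (Y (j + 1)) (Y j))
    (hA : ∀ j < n, Det p (Y (j + 1)) (A j))
    (hB : ∀ j < n, Det p (Y (j + 1)) (B j)) (hBY : ∀ j < n, Det p (B j) (Y j))
    (hAB : ∀ j < n, Det p (fun ω => (A j ω, B j ω)) (Y (j + 1)))
    (hT : ∀ j ≤ n, Det p Tf (t j))
    (hL : ∀ j ≤ n, CH p (Y j) (fun ω => (L ω, t j ω)) ≤ R) :
    ∑ j ∈ range n, CH p (A j) (fun ω => (B j ω, t (j + 1) ω)) ≤
      ∑ j ∈ range n, CH p (A j) (fun ω => (B j ω, Tf ω)) +
        (∑ j ∈ range n, mi p (t (j + 1)) L (t j) + mi p Tf L (t n)) + (n + 1) * R := by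
  have h1 := chain0 hp Y t L n hY (fun j hj => hL j hj.le)
  have h2 := drop1 hp (Y n) (t n) Tf L (hL n le_rfl)
  have h3 := tower_CH hp Y Tf n hY
  have h4 : CH p (Y 0) Tf ≤ CH p (Y 0) (t 0) := CH_mono_cond hp (hT 0 (Nat.zero_le _))
  have key : ∀ j ∈ range n, CH p (A j) (fun ω => (B j ω, t (j + 1) ω)) -
      CH p (A j) (fun ω => (B j ω, Tf ω)) ≤ CH p (Y (j + 1)) (fun ω => (Y j ω, t (j + 1) ω)) -
      CH p (Y (j + 1)) (fun ω => (Y j ω, Tf ω)) := by
    intro j hj
    have hj' := Finset.mem_range.mp hj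
    have e : ∀ {V : Type} (τ : Ω → V), CH p (Y (j + 1)) (fun ω => (Y j ω, τ ω)) =
        CH p (B j) (fun ω => (Y j ω, τ ω)) + CH p (A j) (fun ω => (B j ω, τ ω)) := by
      intro V τ
      have c1 := CH_chain hp (A j) (B j) (fun ω => (Y j ω, τ ω))
      have c2 : CH p (Y (j + 1)) (fun ω => (Y j ω, τ ω)) =
          CH p (fun ω => (A j ω, B j ω)) (fun ω => (Y j ω, τ ω)) :=
        CH_congr hp (fun ω ω' a b h => Prod.ext (hA j hj' ω ω' a b (Prod.ext_iff.mp h).1)
            (hB j hj' ω ω' a b (Prod.ext_iff.mp h).1))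
          (fun ω ω' a b h => hAB j hj' ω ω' a b (Prod.ext_iff.mp h).1)
          (fun _ _ _ _ h => h) (fun _ _ _ _ h => h)
      have c3 : CH p (A j) (fun ω => (B j ω, (Y j ω, τ ω))) =
          CH p (A j) (fun ω => (B j ω, τ ω)) :=
        CH_congr hp (fun _ _ _ _ h => (Prod.ext_iff.mp h).1)
          (fun _ _ _ _ h => (Prod.ext_iff.mp h).1)
          (fun ω ω' _ _ h => Prod.ext (Prod.ext_iff.mp h).1
            (Prod.ext_iff.mp (Prod.ext_iff.mp h).2).2)
          (fun ω ω' a b h => Prod.ext (Prod.ext_iff.mp h).1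
            (Prod.ext (hBY j hj' ω ω' a b (Prod.ext_iff.mp h).1) (Prod.ext_iff.mp h).2))
      rw [c2, c1, c3]
    have e1 := e (t (j + 1))
    have e2 := e Tf
    have e3 : CH p (B j) (fun ω => (Y j ω, Tf ω)) ≤ CH p (B j) (fun ω => (Y j ω, t (j + 1) ω)) :=
      CH_mono_cond hp (fun ω ω' a b h => Prod.ext (Prod.ext_iff.mp h).1
        (hT (j + 1) (by omega) ω ω' a b (Prod.ext_iff.mp h).2))
    linarith
  have h5 := Finset.sum_le_sum key
  rw [Finset.sum_sub_distrib, Finset.sum_sub_distrib] at h5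
  linarith

end gen

/-! ### Positions which vanish off the good set -/

theorem rw_up {Ω : Type} {m X : ℕ} (N : Ω → Fin m → ℤ) (u : ℤ) {ℓ K : ℕ} (h : ℓ + K ≤ X) (ω : Ω)
    (j : Fin m) : rw X N u (ℓ + K) ω j / ((2 ^ K : ℕ) : ℤ) = rw X N u ℓ ω j :=
  rr_up h (fun ω => N ω j + u) ω

/-- The rows are known from the line and the time. -/
theorem rowL {Ω Λ Γ : Type} [Fintype Ω] {m : ℕ} {P : Ω → ℝ} (hP : IsLaw P) (L : Ω → Λ) (a : Ω → Γ)
    (th : Ω → ℝ) (N : Ω → Fin m → ℤ) (G : Set Ω) {X K ℓ s : ℕ} (hK : 1 ≤ K)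
    (hℓ2 : ℓ + 7 * K ≤ X)
    (h : ∀ ω ω', 0 < P ω → 0 < P ω' → ω ∈ G → ω' ∈ G → L ω = L ω' → a ω = a ω' → ∀ j,
      |(N ω' j : ℝ) - N ω j| ≤ 4 + 2 ^ X * |th ω' - th ω| / 2 ^ s)
    (hG : ∀ ω, ω ∉ G → N ω = 0) (u : ℤ) :
    CH P (rw X N u ℓ) (fun ω => (L ω, (tl th (ℓ + 7 * K) ω, a ω))) ≤ (m + 1) * Real.log 3 := by
  classical
  have hp0 := hP.nonneg
  have key : ∀ k, CH P (fun ω => rw X N u ℓ ω k)
      (fun ω => (decide (ω ∈ G), (L ω, (tl th (ℓ + 7 * K) ω, a ω)))) ≤ Real.log 3 := by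
    intro k
    have h1 := CH_le_int hp0 hP.sum_one (fun ω => rw X N u ℓ ω k)
      (fun ω => (decide (ω ∈ G), (L ω, (tl th (ℓ + 7 * K) ω, a ω)))) (fun _ => 1) (by
        intro ω ω' a1 a2 e
        have e' := Prod.ext_iff.mp (Prod.ext_iff.mp e).2
        have e0 : decide (ω ∈ G) = decide (ω' ∈ G) := (Prod.ext_iff.mp e).1
        have e1 : L ω = L ω' := e'.1
        have e2 := Prod.ext_iff.mp e'.2
        have e3 : tl th (ℓ + 7 * K) ω = tl th (ℓ + 7 * K) ω' := e2.1
        have e4 : a ω = a ω' := e2.2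
        by_cases hω : ω ∈ G
        · have hω' : ω' ∈ G := by
            by_contra hc
            rw [decide_eq_true hω, decide_eq_false hc] at e0
            exact absurd e0 (by simp)
          have g1 := h ω' ω a2 a1 hω' hω e1.symm e4.symm k
          have g2 := tl_near (th := th) e3.symm
          have hDp : 0 < 2 ^ (X - ℓ) := by positivity
          have hDr : (0 : ℝ) < ((2 ^ (X - ℓ) : ℕ) : ℝ) := by exact_mod_cast hDp
          have g3 := div_diff (N ω' k + u) (N ω k + u) hDp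
          have x1 : (2 : ℝ) ^ X * |th ω - th ω'| / 2 ^ s ≤ ((2 ^ (X - ℓ) : ℕ) : ℝ) / 128 := by
            have y0 : (2 : ℝ) ^ X * |th ω - th ω'| / 2 ^ s ≤ 2 ^ X * |th ω - th ω'| :=
              div_le_self (by positivity) (one_le_pow₀ (by norm_num))
            have y1 : (2 : ℝ) ^ X * |th ω - th ω'| ≤ 2 ^ X * (1 / 2 ^ (ℓ + 7 * K)) := by
              gcongr
            have y2 : (2 : ℝ) ^ X * (1 / 2 ^ (ℓ + 7 * K)) = 2 ^ (X - (ℓ + 7 * K)) := by
              rw [mul_one_div, div_eq_iff (by positivity), ← pow_add]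
              congr 1
              omega
            have y3 : (2 : ℝ) ^ (X - (ℓ + 7 * K)) * 128 ≤ ((2 ^ (X - ℓ) : ℕ) : ℝ) := by
              push_cast
              rw [show (128 : ℝ) = 2 ^ 7 by norm_num, ← pow_add]
              exact pow_le_pow_right₀ (by norm_num) (by omega)
            linarith
          have x2 : (4 : ℝ) ≤ ((2 ^ (X - ℓ) : ℕ) : ℝ) / 32 := by
            have : (2 : ℝ) ^ 7 ≤ ((2 ^ (X - ℓ) : ℕ) : ℝ) := by
              push_cast
              exact pow_le_pow_right₀ (by norm_num) (by omega)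
            linarith
          have x3 : |(((N ω k + u : ℤ) : ℝ) - ((N ω' k + u : ℤ) : ℝ)) /
              ((2 ^ (X - ℓ) : ℕ) : ℝ)| ≤ 1 / 16 := by
            rw [abs_div, abs_of_pos hDr, div_le_iff₀ hDr]
            push_cast at g1 ⊢
            push_cast at x1 x2
            rw [add_sub_add_right_eq_sub]
            linarith
          have x4 : |(((N ω k + u) / ((2 ^ (X - ℓ) : ℕ) : ℤ) -
              (N ω' k + u) / ((2 ^ (X - ℓ) : ℕ) : ℤ) : ℤ) : ℝ)| < 2 := by
            rw [abs_lt] at g3 ⊢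
            rw [abs_le] at x3
            push_cast at g3 x3 ⊢
            constructor <;> linarith [g3.1, g3.2, x3.1, x3.2]
          have x5 : |(N ω k + u) / ((2 ^ (X - ℓ) : ℕ) : ℤ) -
              (N ω' k + u) / ((2 ^ (X - ℓ) : ℕ) : ℤ)| < 2 := by exact_mod_cast x4
          have x6 : |(N ω k + u) / ((2 ^ (X - ℓ) : ℕ) : ℤ) -
              (N ω' k + u) / ((2 ^ (X - ℓ) : ℕ) : ℤ)| ≤ 1 := by omega
          show |(((N ω k + u) / ((2 ^ (X - ℓ) : ℕ) : ℤ) -
              (N ω' k + u) / ((2 ^ (X - ℓ) : ℕ) : ℤ) : ℤ) : ℝ)| ≤ 1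
          exact_mod_cast x6
        · have hω' : ω' ∉ G := by
            intro hc
            rw [decide_eq_false hω, decide_eq_true hc] at e0
            exact absurd e0 (by simp)
          show |((rr X ℓ (fun ω => N ω k + u) ω - rr X ℓ (fun ω => N ω k + u) ω' : ℤ) : ℝ)| ≤ 1
          have e5 : rr X ℓ (fun ω => N ω k + u) ω = rr X ℓ (fun ω => N ω k + u) ω' := by
            show (N ω k + u) / _ = (N ω' k + u) / _
            rw [hG ω hω, hG ω' hω']
          rw [e5, sub_self]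
          norm_num)
    rw [Ex_const hP.sum_one] at h1
    norm_num at h1
    exact h1
  have h2 := CH_pi hp0 (rw X N u ℓ)
    (fun ω => (decide (ω ∈ G), (L ω, (tl th (ℓ + 7 * K) ω, a ω))))
  have h3 := CH_le_add hp0 (rw X N u ℓ) (fun ω => decide (ω ∈ G))
    (fun ω => (L ω, (tl th (ℓ + 7 * K) ω, a ω)))
  have h4 : CH P (fun ω => decide (ω ∈ G)) (fun ω => (L ω, (tl th (ℓ + 7 * K) ω, a ω))) ≤
      Real.log 3 := by
    have h5 := CH_le_card hp0 hP.sum_one (fun ω => decide (ω ∈ G))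
      (fun ω => (L ω, (tl th (ℓ + 7 * K) ω, a ω))) (fun _ => (univ : Finset Bool))
      (fun ω _ => Finset.mem_univ _)
    refine h5.trans ?_
    rw [Ex_const hP.sum_one, card_univ, Fintype.card_bool]
    exact Real.log_le_log (by norm_num) (by norm_num)
  have h6 : ∑ i, CH P (fun ω => rw X N u ℓ ω i)
      (fun ω => (decide (ω ∈ G), (L ω, (tl th (ℓ + 7 * K) ω, a ω)))) ≤ m * Real.log 3 := by
    refine (Finset.sum_le_card_nsmul univ _ _ fun j _ => key j).trans (le_of_eq ?_)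
    rw [card_univ, Fintype.card_fin, nsmul_eq_mul]
  linarith

/-- Positions set to zero off the good set: the loss of one level. -/
theorem zero_off {Ω Θ : Type} [Fintype Ω] {m : ℕ} {P : Ω → ℝ} (hP : IsLaw P) (X : ℕ)
    (N N' : Ω → Fin m → ℤ) (G : Set Ω) (k : Fin m) (K : ℕ) (A : Ω → Θ) (u : ℤ) (ℓ : ℕ)
    (h1 : ∀ ω ∈ G, N' ω = N ω) (h0 : ∀ ω, ω ∉ G → N' ω = 0) :
    CH P (fun ω => rw X N' u (ℓ + K) ω k) (ctx X N' k K A u ℓ) ≤
      CH P (fun ω => rw X N u (ℓ + K) ω k) (ctx X N k K A u ℓ) + Real.log 3 := by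
  classical
  have hp0 := hP.nonneg
  have h3 := CH_le_add hp0 (fun ω => rw X N' u (ℓ + K) ω k) (fun ω => decide (ω ∈ G))
    (ctx X N' k K A u ℓ)
  have h4 : CH P (fun ω => decide (ω ∈ G)) (ctx X N' k K A u ℓ) ≤ Real.log 3 := by
    have h5 := CH_le_card hp0 hP.sum_one (fun ω => decide (ω ∈ G))
      (ctx X N' k K A u ℓ) (fun _ => (univ : Finset Bool)) (fun ω _ => Finset.mem_univ _)
    refine h5.trans ?_
    rw [Ex_const hP.sum_one, card_univ, Fintype.card_bool]
    exact Real.log_le_log (by norm_num) (by norm_num)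
  have e1 : CH P (fun ω => rw X N' u (ℓ + K) ω k)
      (fun ω => (decide (ω ∈ G), ctx X N' k K A u ℓ ω)) =
      CH P (fun ω => rw X N' u (ℓ + K) ω k)
      (fun ω => (ctx X N' k K A u ℓ ω, decide (ω ∈ G))) :=
    CH_congr hp0 (fun _ _ _ _ h => (Prod.ext_iff.mp h).1) (fun _ _ _ _ h => (Prod.ext_iff.mp h).1)
      (fun _ _ _ _ h => Prod.ext (Prod.ext_iff.mp h).2 (Prod.ext_iff.mp h).1)
      (fun _ _ _ _ h => Prod.ext (Prod.ext_iff.mp h).2 (Prod.ext_iff.mp h).1)
  have e2 : CH P (fun ω => rw X N u (ℓ + K) ω k)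
      (fun ω => (ctx X N k K A u ℓ ω, decide (ω ∈ G))) ≤
      CH P (fun ω => rw X N u (ℓ + K) ω k) (ctx X N k K A u ℓ) :=
    CH_mono_cond hp0 (fun _ _ _ _ h => (Prod.ext_iff.mp h).1)
  have e3 : CH P (fun ω => rw X N' u (ℓ + K) ω k)
      (fun ω => (ctx X N' k K A u ℓ ω, decide (ω ∈ G))) ≤
      CH P (fun ω => rw X N u (ℓ + K) ω k)
      (fun ω => (ctx X N k K A u ℓ ω, decide (ω ∈ G))) := by
    rw [CH_mean hp0, CH_mean hp0]
    refine Finset.sum_le_sum fun ω _ => ?_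
    rcases (hp0 ω).eq_or_lt with h5 | h5
    · rw [← h5, zero_mul, zero_mul]
    refine mul_le_mul_of_nonneg_left ?_ h5.le
    have hq := isLaw_cond hP (fun ω => decide (ω ∈ G)) h5
    have hs : ∀ v, 0 < cond P (fun ω => decide (ω ∈ G)) (decide (ω ∈ G)) v →
        decide (v ∈ G) = decide (ω ∈ G) := fun v hv =>
      ((cond_pos_iff hp0 (fun ω => decide (ω ∈ G)) (decide (ω ∈ G)) v).1 hv).2
    by_cases hω : ω ∈ G
    · have hv : ∀ v, 0 < cond P (fun ω => decide (ω ∈ G)) (decide (ω ∈ G)) v → N' v = N v := by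
        intro v hv
        have := hs v hv
        rw [decide_eq_true hω] at this
        exact h1 v (of_decide_eq_true this)
      have hr : ∀ v, 0 < cond P (fun ω => decide (ω ∈ G)) (decide (ω ∈ G)) v → ∀ r j,
          rw X N' u r v j = rw X N u r v j := by
        intro v hv' r j
        show (N' v j + u) / _ = (N v j + u) / _
        rw [hv v hv']
      have hc : ∀ v, 0 < cond P (fun ω => decide (ω ∈ G)) (decide (ω ∈ G)) v →
          ctx X N' k K A u ℓ v = ctx X N k K A u ℓ v := by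
        intro v hv'
        unfold ctx
        rw [hr v hv']
        congr 2
        funext j
        exact hr v hv' _ _
      refine le_of_eq (CH_congr hq.nonneg ?_ ?_ ?_ ?_)
      · intro v v' a a' h
        have := (Prod.ext_iff.mp h).1
        show rw X N u (ℓ + K) v k = rw X N u (ℓ + K) v' k
        rw [← hr v a, ← hr v' a']
        exact this
      · intro v v' a a' h
        have := (Prod.ext_iff.mp h).1
        show rw X N' u (ℓ + K) v k = rw X N' u (ℓ + K) v' k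
        rw [hr v a, hr v' a']
        exact this
      · intro v v' a a' h
        rw [← hc v a, ← hc v' a']
        exact h
      · intro v v' a a' h
        rw [hc v a, hc v' a']
        exact h
    · refine le_trans (le_of_eq (CH_eq_zero hq.nonneg ?_)) (CH_nonneg hq.nonneg _ _)
      intro v v' a a' _
      have n1 : ∀ v, 0 < cond P (fun ω => decide (ω ∈ G)) (decide (ω ∈ G)) v → N' v = 0 := by
        intro v hv
        have := hs v hv
        rw [decide_eq_false hω] at this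
        exact h0 v (of_decide_eq_false this)
      show (N' v k + u) / _ = (N' v' k + u) / _
      rw [n1 v a, n1 v' a']
  linarith

end Pool.KSM
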