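import Pool.Agent.H60.KSM.Odt

/-!
# The one-direction theorem: the sum over levels and shifts
-/

set_option autoImplicit false

namespace Pool.KSM

open Finset Real
open Pool.Agent.H49.Ent Pool.Agent.H32.Dense Pool.STK Pool.KAF Pool.OC Pool.OC.RS Pool.KAL Pool.KX
open Pool.KS2 (rr tl EE ii ii_nonneg rr_up tsum tl_down budget dsum)
open Pool.KS2.CD (EE_nonneg)

namespace OD

variable {m : ℕ} {d : OD m}

/-- The error is affine in the crossings. -/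
theorem er_eq (K k' : ℕ) {a₀ c : ℝ} (ha₀ : 0 < a₀) (hc : 0 < c) (x : ℝ) (ℓ : ℕ) :
    d.er K k' a₀ c x ℓ = ((2 * (2 * a₀ + m * 8 / 2 ^ (6 * K) + 2 * Pr d.P d.Gᶜ) *
      (9 * 4 ^ (K + k')) + 2 * a₀) / c) + (4 * (9 * 4 ^ (K + k')) + 1) / (a₀ * c) * d.i0 K ℓ +
      2 * (9 * 4 ^ (K + k')) / c * x + 1 / (a₀ * c) * d.i1 K ℓ := by
  unfold er
  field_simp
  ring

/-- The mean of the error over the shifts. -/
theorem OK.er_mean {s : ℕ} (h : d.OK s) {K k' ℓ : ℕ} (hK : 1 ≤ K) (h6 : 6 * K ≤ ℓ)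
    (h7 : ℓ + 7 * K ≤ d.X) {a₀ c : ℝ} (ha₀ : 0 < a₀) (hc : 0 < c) :
    ∑ u ∈ range (2 ^ d.X), d.er K k' a₀ c (d.cr K u ℓ) ℓ ≤
      2 ^ d.X * d.er K k' a₀ c (16 * m / 2 ^ (6 * K) + 4 * Pr d.P d.Gᶜ) ℓ := by
  have h1 := h.crs hK h6 h7
  rw [Finset.sum_congr rfl fun (u : ℕ) _ => er_eq (d := d) K k' ha₀ hc (d.cr K (u : ℤ) ℓ) ℓ,
    er_eq (d := d) K k' ha₀ hc]
  rw [Finset.sum_add_distrib, Finset.sum_add_distrib, Finset.sum_const, card_range,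
    ← Finset.mul_sum, Finset.sum_const, card_range, nsmul_eq_mul, nsmul_eq_mul]
  have h2 : 2 * (9 * 4 ^ (K + k')) / c * ∑ u ∈ range (2 ^ d.X), d.cr K u ℓ ≤
      2 * (9 * 4 ^ (K + k')) / c *
        (2 ^ d.X * (16 * m / 2 ^ (6 * K) + 4 * Pr d.P d.Gᶜ)) := by gcongr
  push_cast
  refine (add_le_add (add_le_add le_rfl h2) le_rfl).trans (le_of_eq ?_)
  ring

/-- The sum of the errors. -/
theorem OK.errs {s : ℕ} (h : d.OK s) {K : ℕ} (hK : 1 ≤ K) (k' : ℕ) {a₀ c δ : ℝ}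
    (ha₀ : 0 < a₀) (hc : 0 < c) {n : ℕ} (hn : n * K + 14 * K ≤ d.X)
    (hT : mi d.P d.L d.T d.a ≤ δ * d.X) (hT' : mi d.P d.L' d.T d.a ≤ δ * d.X)
    (hTb : mi d.P d.T d.a (fun ω => (d.L ω, d.b ω)) ≤ δ * d.X) :
    ∑ i ∈ range (n * K), d.er K k' a₀ c (16 * m / 2 ^ (6 * K) + 4 * Pr d.P d.Gᶜ) (7 * K + i) ≤
      d.X * ((2 * (2 * (a₀ + 14 * K * δ / a₀) + 24 * m / 2 ^ (6 * K) + 6 * Pr d.P d.Gᶜ) *
        (9 * 4 ^ (K + k')) + (a₀ + 14 * K * δ / a₀) + (a₀ + 7 * K * δ / a₀)) / c) := by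
  have hp0 := h.law.nonneg
  -- sums over the levels
  have win : ∀ g : ℕ → ℝ, (∀ ℓ, 0 ≤ g ℓ) → ∑ i ∈ range (n * K), g (7 * K + i) ≤
      ∑ ℓ ∈ Finset.range d.X, g ℓ := by
    intro g hg
    have e1 : ∑ i ∈ range (n * K), g (7 * K + i) =
        ∑ ℓ ∈ (range (n * K)).image (fun i => 7 * K + i), g ℓ := by
      rw [Finset.sum_image]
      intro a _ b _ hab
      exact Nat.add_left_cancel hab
    rw [e1]
    refine Finset.sum_le_sum_of_subset_of_nonneg ?_ fun ℓ _ _ => hg ℓ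
    intro ℓ hℓ
    obtain ⟨i, hi, rfl⟩ := Finset.mem_image.mp hℓ
    have hi' := Finset.mem_range.mp hi
    exact Finset.mem_range.mpr (by omega)
  have i0n : ∀ ℓ, 0 ≤ d.i0 K ℓ := fun ℓ => add_nonneg (mi_nonneg hp0 _ _ _) (mi_nonneg hp0 _ _ _)
  have i1n : ∀ ℓ, 0 ≤ d.i1 K ℓ := fun ℓ => mi_nonneg hp0 _ _ _
  have hQ : 0 < 7 * K := by omega
  have hdet : ∀ r, Det d.P (fun ω => (d.T ω, d.a ω)) (tl d.th r) := fun r ω ω' x y hh =>
    h.hthr r ω ω' x y (Prod.ext (Prod.ext_iff.mp hh).1 (h.hab ω ω' x y (Prod.ext_iff.mp hh).2))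
  have b0 : ∑ i ∈ range (n * K), d.i0 K (7 * K + i) ≤ 14 * K * (δ * d.X) := by
    refine (win _ i0n).trans ?_
    have e1 : ∑ ℓ ∈ range d.X, d.i0 K ℓ =
        ∑ ℓ ∈ range d.X, mi d.P (tl d.th (ℓ + 7 * K)) d.L (fun ω => (tl d.th ℓ ω, d.a ω)) +
        ∑ ℓ ∈ range d.X, mi d.P (tl d.th (ℓ + 7 * K)) d.L' (fun ω => (tl d.th ℓ ω, d.a ω)) := by
      rw [← Finset.sum_add_distrib]
      rfl
    have e2 := budget hp0 d.th d.L d.a d.T hdet (B := δ * d.X)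
      (by rwa [mi_comm hp0] at hT) hQ d.X
    have e3 := budget hp0 d.th d.L' d.a d.T hdet (B := δ * d.X)
      (by rwa [mi_comm hp0] at hT') hQ d.X
    rw [e1]
    refine (add_le_add e2 e3).trans (le_of_eq ?_)
    push_cast
    ring
  have b1 : ∑ i ∈ range (n * K), d.i1 K (7 * K + i) ≤ 7 * K * (δ * d.X) := by
    refine (win _ i1n).trans ?_
    have e2 := budget hp0 d.th d.a (fun ω => (d.L ω, d.b ω)) d.T
      (fun r ω ω' x y hh => h.hthr r ω ω' x y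
        (Prod.ext (Prod.ext_iff.mp hh).1 (Prod.ext_iff.mp (Prod.ext_iff.mp hh).2).2)) hTb hQ d.X
    refine e2.trans (le_of_eq ?_)
    push_cast
    ring
  have hnX : ((n * K : ℕ) : ℝ) ≤ d.X := by
    have : n * K ≤ d.X := by omega
    exact_mod_cast this
  obtain ⟨M, hM⟩ : ∃ M : ℝ, M = 9 * 4 ^ (K + k') := ⟨_, rfl⟩
  have hM0 : 0 < M := by rw [hM]; positivity
  have g0 : 0 ≤ Pr d.P d.Gᶜ := law_nonneg hp0 _ _
  obtain ⟨g, hg⟩ : ∃ g, g = Pr d.P d.Gᶜ := ⟨_, rfl⟩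
  rw [Finset.sum_congr rfl fun i _ => er_eq K k' ha₀ hc _ (7 * K + i)]
  rw [← hg] at g0 ⊢
  rw [← hM]
  rw [Finset.sum_add_distrib, Finset.sum_add_distrib, Finset.sum_add_distrib, ← Finset.mul_sum,
    Finset.sum_const, Finset.card_range, nsmul_eq_mul, Finset.sum_const,
    Finset.card_range, nsmul_eq_mul, ← Finset.mul_sum]
  have c0 : ((n * K : ℕ) : ℝ) * ((2 * (2 * a₀ + m * 8 / 2 ^ (6 * K) + 2 * g) * M + 2 * a₀) / c) ≤
      d.X * ((2 * (2 * a₀ + m * 8 / 2 ^ (6 * K) + 2 * g) * M + 2 * a₀) / c) := by gcongr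
  have c1 : (4 * M + 1) / (a₀ * c) * ∑ i ∈ range (n * K), d.i0 K (7 * K + i) ≤
      (4 * M + 1) / (a₀ * c) * (14 * K * (δ * d.X)) := by gcongr
  have c2 : ((n * K : ℕ) : ℝ) * (2 * M / c * (16 * m / 2 ^ (6 * K) + 4 * g)) ≤
      d.X * (2 * M / c * (16 * m / 2 ^ (6 * K) + 4 * g)) := by gcongr
  have c3 : 1 / (a₀ * c) * ∑ i ∈ range (n * K), d.i1 K (7 * K + i) ≤
      1 / (a₀ * c) * (7 * K * (δ * d.X)) := by gcongr
  have e2 : d.X * ((2 * (2 * (a₀ + 14 * K * δ / a₀) + 24 * m / 2 ^ (6 * K) + 6 * g) * M +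
        (a₀ + 14 * K * δ / a₀) + (a₀ + 7 * K * δ / a₀)) / c) =
      d.X * ((2 * (2 * a₀ + m * 8 / 2 ^ (6 * K) + 2 * g) * M + 2 * a₀) / c) +
      (4 * M + 1) / (a₀ * c) * (14 * K * (δ * d.X)) +
      d.X * (2 * M / c * (16 * m / 2 ^ (6 * K) + 4 * g)) +
      1 / (a₀ * c) * (7 * K * (δ * d.X)) := by
    field_simp
    ring
  rw [e2]
  linarith

/-- **The sum over levels and shifts.** -/
theorem OK.total {C₀ : ℝ} (hful : FulAt m C₀) {s : ℕ} (h : d.OK s)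
    (hz : ∀ ω, ω ∉ d.G → d.N ω = 0) {K k' : ℕ} (hK : 1 ≤ K)
    (hs : 6 * K ≤ s) (hk : k' ≤ 6 * K) (hKC : C₀ ≤ K * Real.log 2) {a₀ c δ : ℝ}
    (ha₀ : 0 < a₀) (hc : 0 < c) (hX : 15 * K ≤ d.X)
    (hT : mi d.P d.L d.T d.a ≤ δ * d.X) (hT' : mi d.P d.L' d.T d.a ≤ δ * d.X)
    (hTb : mi d.P d.T d.a (fun ω => (d.L ω, d.b ω)) ≤ δ * d.X) (D : ℕ → Set d.Om)
    (hD : ∀ i ω, 0 < d.P ω → ω ∉ D i → d.dead k' i ω ≤ 1 - c) :
    2 ^ d.X * ((d.X - 15 * K - ∑ i ∈ range d.X, Pr d.P (D i) -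
      d.X * ((2 * (2 * (a₀ + 14 * K * δ / a₀) + 24 * m / 2 ^ (6 * K) + 6 * Pr d.P d.Gᶜ) *
        (9 * 4 ^ (K + k')) + (a₀ + 14 * K * δ / a₀) + (a₀ + 7 * K * δ / a₀)) / c)) *
        (K * Real.log 2 - C₀) - (K * (δ * d.X) + (d.X + K) * ((m + 1) * Real.log 3))) ≤
      rowSum d.P d.X d.N d.k K (fun ω => (d.T ω, d.a ω)) := by
  have hp0 := h.law.nonneg
  have hΛ : 0 ≤ K * Real.log 2 - C₀ := by linarith
  obtain ⟨Λ, hΛd⟩ : ∃ Λ, Λ = K * Real.log 2 - C₀ := ⟨_, rfl⟩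
  rw [← hΛd] at hΛ ⊢
  obtain ⟨n, hn⟩ : ∃ n, n = (d.X - 14 * K) / K := ⟨_, rfl⟩
  have hn1 : n * K ≤ d.X - 14 * K := by rw [hn]; exact Nat.div_mul_le_self _ _
  have hn2 : d.X - 14 * K < n * K + K := by
    have := Nat.lt_div_mul_add (a := d.X - 14 * K) (b := K) (by omega)
    rw [← hn] at this
    exact this
  have hn3 : n * K + 14 * K ≤ d.X := by omega
  obtain ⟨x, hx⟩ : ∃ x, x = 16 * (m : ℝ) / 2 ^ (6 * K) + 4 * Pr d.P d.Gᶜ := ⟨_, rfl⟩
  obtain ⟨LV, hLV⟩ : ∃ LV : ℕ → ℕ → ℝ, ∀ u i, LV u i =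
      CH d.P (fun ω => rw d.X d.N u (6 * K + i + K) ω d.k)
        (ctx d.X d.N d.k K (d.tim K (6 * K + i + K)) u (6 * K + i)) := ⟨_, fun _ _ => rfl⟩
  obtain ⟨FV, hFV⟩ : ∃ FV : ℕ → ℕ → ℝ, ∀ u i, FV u i =
      CH d.P (fun ω => rw d.X d.N u (i + K) ω d.k)
        (ctx d.X d.N d.k K (fun ω => (d.T ω, d.a ω)) u i) := ⟨_, fun _ _ => rfl⟩
  have F0 : ∀ u i, 0 ≤ FV u i := fun u i => by
    rw [hFV]
    exact CH_nonneg hp0 _ _
  -- one shift
  have one : ∀ u ∈ range (2 ^ d.X), (∑ i ∈ range (n * K), (1 - Pr d.P (D (7 * K + i)) -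
      d.er K k' a₀ c (d.cr K u (7 * K + i)) (7 * K + i))) * Λ ≤
      ∑ ℓ ∈ range (d.X + 1 - K), FV u ℓ + (K * (δ * d.X) + (d.X + K) * ((m + 1) * Real.log 3)) := by
    intro u _
    have s1 : (∑ i ∈ range (n * K), (1 - Pr d.P (D (7 * K + i)) -
        d.er K k' a₀ c (d.cr K u (7 * K + i)) (7 * K + i))) * Λ ≤
        ∑ i ∈ range (n * K), LV u i := by
      rw [Finset.sum_mul]
      refine Finset.sum_le_sum fun i hi => ?_
      have hi' := Finset.mem_range.mp hi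
      have e := OK.lev hful h (u : ℤ) (K := K) (k' := k') (ℓ := 6 * K + i) hs hk (by omega)
        (by omega) hKC ha₀ hc (D (7 * K + i)) (by
          have e0 : 6 * K + i + K = 7 * K + i := by ring
          rw [e0]
          exact hD (7 * K + i))
      rw [hLV, hΛd]
      have e0 : 6 * K + i + K = 7 * K + i := by ring
      rw [e0] at e ⊢
      exact e
    have s2 : ∑ i ∈ range (n * K), LV u i ≤
        ∑ i ∈ range (n * K), FV u (6 * K + i) +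
          K * (δ * d.X + (n + 1) * ((m + 1) * Real.log 3)) := by
      rw [← dsum (fun i => LV u i) K n, ← dsum (fun i => FV u (6 * K + i)) K n]
      have t : ∀ r ∈ range K, ∑ j ∈ range n, LV u (r + j * K) ≤
          ∑ j ∈ range n, FV u (6 * K + (r + j * K)) +
            (δ * d.X + (n + 1) * ((m + 1) * Real.log 3)) := by
        intro r hr
        have := OK.full h hz (u : ℤ) hK (Finset.mem_range.mp hr) hn3 hT
        simp only [hLV, hFV]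
        exact this
      refine (Finset.sum_le_sum t).trans (le_of_eq ?_)
      rw [Finset.sum_add_distrib, Finset.sum_const, card_range, nsmul_eq_mul]
    have s3 : ∑ i ∈ range (n * K), FV u (6 * K + i) ≤ ∑ ℓ ∈ range (d.X + 1 - K), FV u ℓ := by
      have e1 : ∑ i ∈ range (n * K), FV u (6 * K + i) =
          ∑ ℓ ∈ (range (n * K)).image (fun i => 6 * K + i), FV u ℓ := by
        rw [Finset.sum_image]
        intro a _ b _ hab
        exact Nat.add_left_cancel hab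
      rw [e1]
      refine Finset.sum_le_sum_of_subset_of_nonneg ?_ fun ℓ _ _ => F0 u ℓ
      intro ℓ hℓ
      obtain ⟨i, hi, rfl⟩ := Finset.mem_image.mp hℓ
      have hi' := Finset.mem_range.mp hi
      exact Finset.mem_range.mpr (by omega)
    have s4 : (K : ℝ) * (δ * d.X + (n + 1) * ((m + 1) * Real.log 3)) ≤
        K * (δ * d.X) + (d.X + K) * ((m + 1) * Real.log 3) := by
      have l3 : 0 ≤ ((m : ℝ) + 1) * Real.log 3 := by positivity
      have n2 : ((n * K : ℕ) : ℝ) ≤ d.X := by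
        have : n * K ≤ d.X := by omega
        exact_mod_cast this
      have e1 : (K : ℝ) * (n + 1) ≤ d.X + K := by
        push_cast at n2
        linarith
      have e2 := mul_le_mul_of_nonneg_right e1 l3
      linarith
    linarith
  -- all shifts
  have tot := Finset.sum_le_sum one
  rw [← Finset.sum_mul, Finset.sum_add_distrib, Finset.sum_const, card_range, nsmul_eq_mul] at tot
  have hrs : rowSum d.P d.X d.N d.k K (fun ω => (d.T ω, d.a ω)) =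
      ∑ u ∈ range (2 ^ d.X), ∑ ℓ ∈ range (d.X + 1 - K), FV u ℓ := by
    unfold rowSum
    refine Finset.sum_congr rfl fun u _ => Finset.sum_congr rfl fun ℓ _ => ?_
    rw [hFV]
  rw [hrs]
  -- the mean error
  have hE := h.errs hK k' ha₀ hc hn3 hT hT' hTb
  rw [← hx] at hE
  have hm : ∑ u ∈ range (2 ^ d.X), ∑ i ∈ range (n * K),
      d.er K k' a₀ c (d.cr K u (7 * K + i)) (7 * K + i) ≤
      2 ^ d.X * ∑ i ∈ range (n * K), d.er K k' a₀ c x (7 * K + i) := by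
    rw [Finset.sum_comm, Finset.mul_sum]
    refine Finset.sum_le_sum fun i hi => ?_
    have hi' := Finset.mem_range.mp hi
    rw [hx]
    exact h.er_mean hK (by omega) (by omega) ha₀ hc
  have hDs : ∑ i ∈ range (n * K), Pr d.P (D (7 * K + i)) ≤ ∑ i ∈ range d.X, Pr d.P (D i) := by
    have e1 : ∑ i ∈ range (n * K), Pr d.P (D (7 * K + i)) =
        ∑ ℓ ∈ (range (n * K)).image (fun i => 7 * K + i), Pr d.P (D ℓ) := by
      rw [Finset.sum_image]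
      intro a _ b _ hab
      exact Nat.add_left_cancel hab
    rw [e1]
    refine Finset.sum_le_sum_of_subset_of_nonneg ?_ fun ℓ _ _ => law_nonneg hp0 _ _
    intro ℓ hℓ
    obtain ⟨i, hi, rfl⟩ := Finset.mem_image.mp hℓ
    have hi' := Finset.mem_range.mp hi
    exact Finset.mem_range.mpr (by omega)
  have n1 : (d.X : ℝ) - 15 * K ≤ ((n * K : ℕ) : ℝ) := by
    have : d.X ≤ n * K + 15 * K := by omega
    have h' : (d.X : ℝ) ≤ ((n * K : ℕ) : ℝ) + 15 * K := by exact_mod_cast this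
    linarith
  have e3 : ∑ u ∈ range (2 ^ d.X), ∑ i ∈ range (n * K), (1 - Pr d.P (D (7 * K + i)) -
      d.er K k' a₀ c (d.cr K u (7 * K + i)) (7 * K + i)) =
      2 ^ d.X * (((n * K : ℕ) : ℝ) - ∑ i ∈ range (n * K), Pr d.P (D (7 * K + i))) -
      ∑ u ∈ range (2 ^ d.X), ∑ i ∈ range (n * K),
        d.er K k' a₀ c (d.cr K u (7 * K + i)) (7 * K + i) := by
    have t : ∀ u : ℕ, ∑ i ∈ range (n * K), (1 - Pr d.P (D (7 * K + i)) -
      d.er K k' a₀ c (d.cr K u (7 * K + i)) (7 * K + i)) =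
      (((n * K : ℕ) : ℝ) - ∑ i ∈ range (n * K), Pr d.P (D (7 * K + i))) -
      ∑ i ∈ range (n * K), d.er K k' a₀ c (d.cr K u (7 * K + i)) (7 * K + i) := by
      intro u
      rw [Finset.sum_sub_distrib, Finset.sum_sub_distrib, Finset.sum_const, card_range,
        nsmul_eq_mul, mul_one]
    rw [Finset.sum_congr rfl fun u _ => t u, Finset.sum_sub_distrib, Finset.sum_const, card_range,
      nsmul_eq_mul]
    push_cast
    ring
  obtain ⟨Er, hEr⟩ : ∃ Er, Er = ((2 * (2 * (a₀ + 14 * K * δ / a₀) + 24 * m / 2 ^ (6 * K) +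
    6 * Pr d.P d.Gᶜ) * (9 * 4 ^ (K + k')) + (a₀ + 14 * K * δ / a₀) + (a₀ + 7 * K * δ / a₀)) / c) :=
    ⟨_, rfl⟩
  rw [← hEr] at hE ⊢
  have h2X : (0 : ℝ) < 2 ^ d.X := by positivity
  have lo : 2 ^ d.X * (d.X - 15 * K - ∑ i ∈ range d.X, Pr d.P (D i) - d.X * Er) ≤
      ∑ u ∈ range (2 ^ d.X), ∑ i ∈ range (n * K), (1 - Pr d.P (D (7 * K + i)) -
      d.er K k' a₀ c (d.cr K u (7 * K + i)) (7 * K + i)) := by
    rw [e3]
    have t1 : (2 : ℝ) ^ d.X * ∑ i ∈ range (n * K), d.er K k' a₀ c x (7 * K + i) ≤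
        2 ^ d.X * (d.X * Er) := mul_le_mul_of_nonneg_left hE h2X.le
    have t2 : (2 : ℝ) ^ d.X * (d.X - 15 * K - ∑ i ∈ range d.X, Pr d.P (D i)) ≤
        2 ^ d.X * (((n * K : ℕ) : ℝ) - ∑ i ∈ range (n * K), Pr d.P (D (7 * K + i))) :=
      mul_le_mul_of_nonneg_left (by linarith) h2X.le
    have t3 : (2 : ℝ) ^ d.X * (d.X - 15 * K - ∑ i ∈ range d.X, Pr d.P (D i) - d.X * Er) =
        2 ^ d.X * (d.X - 15 * K - ∑ i ∈ range d.X, Pr d.P (D i)) - 2 ^ d.X * (d.X * Er) := by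
      ring
    rw [t3]
    linarith
  have lo' := mul_le_mul_of_nonneg_right lo hΛ
  push_cast at tot
  have t4 : (2 : ℝ) ^ d.X * ((d.X - 15 * K - ∑ i ∈ range d.X, Pr d.P (D i) - d.X * Er) * Λ -
      (K * (δ * d.X) + (d.X + K) * ((m + 1) * Real.log 3))) =
      2 ^ d.X * (d.X - 15 * K - ∑ i ∈ range d.X, Pr d.P (D i) - d.X * Er) * Λ -
      2 ^ d.X * (K * (δ * d.X) + (d.X + K) * ((m + 1) * Real.log 3)) := by ring
  rw [t4]
  linarith

end OD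

end Pool.KSM
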